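import Pool.Agent.PGo.M.Co
import Pool.Agent.PGr.Nib

/-!
# PGo-M-NibM: from weights to a family of labelled cycles

PLAN. `δ` from `Pool.Agent.PGr.nibble` with `r = 3 L + 1` and `η`. Apply it to `V = Vt`, `J = Ed P`, `E = VE`,
`S = Sv P`, weights `w e / s`. `(Sv e).card = 3 L + 1` for valid `e` (labels and differences injective; three kinds
of vertices: `card_insert_of_notMem`, `card_union_of_disjoint`, `card_image_of_injective`,
`Fintype.card_prod`). Degrees: by the hypotheses (`dg` is the sum over `VE.filter`); for a difference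
`d ∉ D1` no valid edge contains it. Pair degrees: the filter is contained in `thr2 u v`, at most
`16 kk n^(L-1)` elements (`pair_le`), each of weight `w e / s ≤ w e ≤ δ / (16 kk n^(L-1))` (hypothesis `hp`; the
product is positive). Matching `M ⊆ VE`: `J = M.image Prod.fst`; two different elements of `M` have disjoint `Sv`, in
particular different cycles (`mem_Sv_cyc`), so `|J| = |M|` and `X m` = the `x` with `(m, x) ∈ M` (e.g.
`if h : ∃ x, (m, x) ∈ M then h.choose else 0`). `Fam`: `lt`: `m < g ≤ n`; `res`: `m, m' < g`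
(`Nat.mod_eq_of_lt`); `ok`: `OkC Z0 D1` and `D1 ⊆ D0`; `lab`, `dif`: disjointness (`mem_Sv_lab`, `mem_Sv_dif`).
-/
set_option autoImplicit false

noncomputable section

namespace Pool.Agent.PGo.M

open Finset Pool.Agent.PGr Pool.Agent.PGo
open scoped Classical

private theorem nb_Sv_card {P : Par} (e : Ed P) (h1 : Function.Injective e.2)
    (h2 : Function.Injective (P.df e.1 e.2)) : (Sv P e).card = 3 * P.L + 1 := by
  unfold Sv
  rw [card_insert_of_notMem, card_union_of_disjoint, card_image_of_injective,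
    card_image_of_injective, card_univ, card_univ, Fintype.card_fin, Fintype.card_prod,
    Fintype.card_bool, Fintype.card_fin]
  · ring
  · intro a b hab
    exact h2 (Sum.inr.inj (Sum.inr.inj hab))
  · intro a b hab
    exact h1 (Sum.inl.inj (Sum.inr.inj hab))
  · rw [disjoint_left]
    intro a ha hb
    obtain ⟨j, _, rfl⟩ := mem_image.1 ha
    obtain ⟨i, _, hi⟩ := mem_image.1 hb
    exact absurd (Sum.inr.inj hi) (by simp)
  · intro h
    rw [mem_union, mem_image, mem_image] at h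
    rcases h with ⟨_, _, h⟩ | ⟨_, _, h⟩
    · exact absurd h (by simp)
    · exact absurd h (by simp)

private theorem nb_kk_pos {P : Par} (h : P.Ok) :
    0 < 16 * kk P * (P.n : ℝ) ^ (P.L - 1) := by
  have h1 : (0 : ℝ) < P.L := by exact_mod_cast h.L_pos
  have h2 : (0 : ℝ) < P.n := by exact_mod_cast h.n_pos
  unfold kk
  positivity

theorem exists_fam (L : ℕ) (hL : 1 ≤ L) (η : ℝ) (hη : 0 < η) :
    ∃ δ : ℝ, 0 < δ ∧ ∀ (X : Cx), X.P.L = L → X.P.Ok → ∀ (w : Ed X.P → ℝ) (s : ℝ), 1 ≤ s →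
      (∀ e ∈ X.VE, 0 ≤ w e) → (∀ r, X.dg w (Sum.inl r) ≤ 1) →
      (∀ z, X.dg w (Sum.inr (Sum.inl z)) ≤ 1) → (∀ d ∈ X.D1, X.dg w (Sum.inr (Sum.inr d)) ≤ s) →
      (∀ e ∈ X.VE, w e * (16 * kk X.P * (X.P.n : ℝ) ^ (X.P.L - 1)) ≤ δ) →
      ∃ (J : Finset ℕ) (Y : ℕ → Fin X.P.L → ℤ), J ⊆ X.I ∧
        (1 - η) * ((∑ e ∈ X.VE, w e) / s) ≤ (J.card : ℝ) ∧ X.P.Fam X.Z0 X.D0 J Y := by
  obtain ⟨δ, hδ, H⟩ := nibble.{0, 0} (3 * L + 1) (by omega) η hη
  refine ⟨δ, hδ, ?_⟩
  intro X hXL hOk w s hs hw0 hdc hdl hdd hwp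
  have hs0 : 0 < s := lt_of_lt_of_le one_pos hs
  have hval : ∀ e ∈ X.VE, X.valid e := fun e he => (Cx.mem_VE.1 he).2
  have hdg : ∀ u : Vt, X.dg w u ≤ s := by
    intro u
    rcases u with r | z | d
    · exact (hdc r).trans hs
    · exact (hdl z).trans hs
    · by_cases hd : d ∈ X.D1
      · exact hdd d hd
      · have : X.VE.filter (fun e => (Sum.inr (Sum.inr d) : Vt) ∈ Sv X.P e) = ∅ := by
          rw [filter_eq_empty_iff]
          intro e he hc
          obtain ⟨i, hi⟩ := mem_Sv_dif.1 hc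
          exact hd (hi ▸ (hval e he).2.2.2.dif i)
        unfold Cx.dg
        rw [this, sum_empty]
        exact hs0.le
  obtain ⟨M, hM, hMd, hMc⟩ := H Vt (Ed X.P) X.VE (Sv X.P) (fun e => w e / s)
    (by
      intro e he
      have hv := (hval e he).2.2.2
      rw [nb_Sv_card e hv.labi hv.difi, hXL])
    (fun e he => div_nonneg (hw0 e he) hs0.le)
    (by
      intro u
      rw [← sum_div, div_le_one hs0]
      exact hdg u)
    (by
      intro u v huv
      have hK := nb_kk_pos hOk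
      have h1 : ∀ e ∈ X.VE.filter (fun e => u ∈ Sv X.P e ∧ v ∈ Sv X.P e),
          w e / s ≤ δ / (16 * kk X.P * (X.P.n : ℝ) ^ (X.P.L - 1)) := by
        intro e he
        have he' := (mem_filter.1 he).1
        rw [le_div_iff₀ hK]
        refine le_trans ?_ (hwp e he')
        refine mul_le_mul_of_nonneg_right ?_ hK.le
        rw [div_le_iff₀ hs0]
        exact le_mul_of_one_le_right (hw0 e he') hs
      refine (sum_le_card_nsmul _ _ _ h1).trans ?_
      rw [nsmul_eq_mul]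
      have h2 : ((X.VE.filter (fun e => u ∈ Sv X.P e ∧ v ∈ Sv X.P e)).card : ℝ) ≤
          16 * kk X.P * (X.P.n : ℝ) ^ (X.P.L - 1) := by
        refine le_trans ?_ (pair_le hOk huv)
        exact_mod_cast card_le_card (by
          intro e he
          rw [mem_filter] at he
          rw [mem_thr2]
          exact ⟨(Cx.mem_VE.1 he.1).1, he.2⟩)
      calc ((X.VE.filter (fun e => u ∈ Sv X.P e ∧ v ∈ Sv X.P e)).card : ℝ) *
            (δ / (16 * kk X.P * (X.P.n : ℝ) ^ (X.P.L - 1)))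
          ≤ 16 * kk X.P * (X.P.n : ℝ) ^ (X.P.L - 1) *
            (δ / (16 * kk X.P * (X.P.n : ℝ) ^ (X.P.L - 1))) :=
            mul_le_mul_of_nonneg_right h2 (div_pos hδ hK).le
        _ = δ := mul_div_cancel₀ δ hK.ne')
  have hinj : ∀ e ∈ M, ∀ e' ∈ M, e.1 = e'.1 → e = e' := by
    intro e he e' he' h
    by_contra hne
    have := hMd e he e' he' hne
    exact disjoint_left.1 this (mem_Sv_cyc.2 rfl) (mem_Sv_cyc.2 h.symm)
  have hex : ∀ m : ℕ, ∃ x : Fin X.P.L → ℤ, (∃ y, ((m, y) : Ed X.P) ∈ M) → ((m, x) : Ed X.P) ∈ M := by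
    intro m
    by_cases h : ∃ y, ((m, y) : Ed X.P) ∈ M
    · obtain ⟨y, hy⟩ := h
      exact ⟨y, fun _ => hy⟩
    · exact ⟨0, fun h' => absurd h' h⟩
  choose Y hY using hex
  have hJ : ∀ m ∈ M.image Prod.fst, ((m, Y m) : Ed X.P) ∈ M := by
    intro m hm
    obtain ⟨e, he, rfl⟩ := mem_image.1 hm
    exact hY e.1 ⟨e.2, he⟩
  refine ⟨M.image Prod.fst, Y, ?_, ?_, ?_⟩
  · intro m hm
    exact (hval _ (hM (hJ m hm))).1
  · rw [card_image_of_injOn (fun e he e' he' h => hinj e he e' he' h), sum_div]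
    exact hMc
  · have hlt : ∀ m ∈ M.image Prod.fst, m < X.P.g := fun m hm =>
      (mem_EE.1 (Cx.mem_VE.1 (hM (hJ m hm))).1).1
    have hD : X.D1 ⊆ X.D0 := by
      intro d hd
      exact (Cx.mem_D1.1 hd).1.1.1
    constructor
    · intro m hm
      exact lt_of_lt_of_le (hlt m hm) hOk.g_le_n
    · intro m hm m' hm' h
      rwa [Nat.mod_eq_of_lt (hlt m hm), Nat.mod_eq_of_lt (hlt m' hm')] at h
    · intro m hm
      have h := (hval _ (hM (hJ m hm))).2.2.2
      exact ⟨h.lab, h.labi, fun i => hD (h.dif i), h.difi⟩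
    · intro m hm m' hm' hne j j' h
      have hne' : ((m, Y m) : Ed X.P) ≠ (m', Y m') := fun hc => hne (congrArg Prod.fst hc)
      have := hMd _ (hJ m hm) _ (hJ m' hm') hne'
      exact disjoint_left.1 this (mem_Sv_lab.2 ⟨j, rfl⟩) (mem_Sv_lab.2 ⟨j', h.symm⟩)
    · intro m hm m' hm' hne i i' h
      have hne' : ((m, Y m) : Ed X.P) ≠ (m', Y m') := fun hc => hne (congrArg Prod.fst hc)
      have := hMd _ (hJ m hm) _ (hJ m' hm') hne'
      exact disjoint_left.1 this (mem_Sv_dif.2 ⟨i, rfl⟩) (mem_Sv_dif.2 ⟨i', h.symm⟩)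

end Pool.Agent.PGo.M
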