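import Pool.Agent.PGo.M.DegB

/-!
# PGo-M-Tau: the average degree of the differences

PLAN. Exchange the sums: `∑_{d ∈ D1} dg w1 d = ∑_{e ∈ VE} w1 e * #{d ∈ D1 | inr (inr d) ∈ Sv e}` and the number is
`2 L` (the image of the injective `df e : Bool × Fin L → D1`, `OkC.difi`, `OkC.dif`). So the sum is
`2 L #{r ∈ I good} ≤ 2 L |I| ≤ |D0| ≤ |D1| + |D0 \ D1| ≤ |D1| + 2 ε n ≤ (1 + 2 ε) |D1|`
(`sum_w1`, `card_le`, `D0_D1_card`, `D1_card`).
-/
set_option autoImplicit false

noncomputable section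

namespace Pool.Agent.PGo.M

open Finset Pool.Agent.PGr Pool.Agent.PGo
open scoped Classical

namespace Cx

variable {X : Cx} {C c ε : ℝ}

theorem tau_le (hX : X.Ok C c ε) (hS : Sm X.P.L C c X.ρ) : X.τ ≤ 1 + 2 * ε := by

  have hD := D1_card hX hS
  have hn := hX.n_pos
  have hDp : (0 : ℝ) < X.D1.card := lt_of_lt_of_le hn hD
  unfold τ
  rw [div_le_iff₀ hDp]
  have h1 : ∑ d ∈ X.D1, X.dg X.w1 (Sum.inr (Sum.inr d)) ≤
      ∑ e ∈ X.VE, X.w1 e * (2 * (X.P.L : ℝ)) := by
    have e1 : ∀ d ∈ X.D1, X.dg X.w1 (Sum.inr (Sum.inr d)) =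
        ∑ e ∈ X.VE, if (Sum.inr (Sum.inr d) : Vt) ∈ Sv X.P e then X.w1 e else 0 := by
      intro d _
      unfold dg
      rw [Finset.sum_filter]
    rw [Finset.sum_congr rfl e1, Finset.sum_comm]
    apply Finset.sum_le_sum
    intro e _
    rw [← Finset.sum_filter, Finset.sum_const, nsmul_eq_mul, mul_comm]
    apply mul_le_mul_of_nonneg_left _ (w1_nonneg hX hS e)
    have h2 : X.D1.filter (fun d => (Sum.inr (Sum.inr d) : Vt) ∈ Sv X.P e) ⊆
        univ.image (fun i => X.P.df e.1 e.2 i) := by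
      intro d hd
      obtain ⟨i, hi⟩ := mem_Sv_dif.1 (mem_filter.1 hd).2
      exact mem_image.2 ⟨i, mem_univ _, hi⟩
    have h3 := (card_le_card h2).trans card_image_le
    rw [Finset.card_univ, Fintype.card_prod, Fintype.card_bool, Fintype.card_fin] at h3
    exact_mod_cast h3
  rw [← Finset.sum_mul, sum_w1 hX hS] at h1
  have h4 : ((X.I.filter (fun r => X.P.good r)).card : ℝ) * (2 * (X.P.L : ℝ)) ≤ X.D0.card := by
    have h5 : (X.I.filter (fun r => X.P.good r)).card ≤ X.I.card := card_filter_le _ _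
    have h6 : (X.I.filter (fun r => X.P.good r)).card * (2 * X.P.L) ≤ X.D0.card := by
      calc (X.I.filter (fun r => X.P.good r)).card * (2 * X.P.L) ≤ X.I.card * (2 * X.P.L) :=
            Nat.mul_le_mul_right _ h5
        _ = 2 * X.P.L * X.I.card := Nat.mul_comm _ _
        _ ≤ X.D0.card := hX.card_le
    exact_mod_cast h6
  have h7 : (X.D0.card : ℝ) ≤ X.D1.card + ((X.D0 \ X.D1).card : ℝ) := by
    have h8 : X.D0 ⊆ X.D1 ∪ (X.D0 \ X.D1) := by
      intro d hd
      by_cases h : d ∈ X.D1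
      · exact mem_union_left _ h
      · exact mem_union_right _ (mem_sdiff.2 ⟨hd, h⟩)
    have h9 := (card_le_card h8).trans (card_union_le _ _)
    exact_mod_cast h9
  have h10 := D0_D1_card hX
  have h11 : 2 * ε * X.P.n ≤ 2 * ε * X.D1.card :=
    mul_le_mul_of_nonneg_left hD (mul_nonneg zero_le_two hX.ε_pos.le)
  linarith


end Cx

end Pool.Agent.PGo.M
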