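import Pool.Agent.PGo.M.W2B

/-!
# PGo-M-W2C: size of the corrected weights

PLAN. For `e ∈ VE` the number of the `a ∈ Tv` with `a.1 = e` is at most `2 L`, the number with `tgt a = e` too
(for each `a.2`: `tgt_tgt`). With `mv_le`: `|w2 e - w1 e| ≤ 4 L Cg ρ / n^L ≤ c / n^L` (`Sm.s3`). Upper bound:
`w1_le`. Lower bound: if there is no such `a` then `w2 e = w1 e ≥ 0`; otherwise `Reg e.1 a.2.2 e.2`
(from `a ∈ Tv`), so `w1 e ≥ c / n^L` by `w1_low`.
-/
set_option autoImplicit false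

noncomputable section

namespace Pool.Agent.PGo.M

open Finset Pool.Agent.PGr Pool.Agent.PGo
open scoped Classical

namespace Cx

variable {X : Cx} {C c ε : ℝ}

private theorem w2c_card1 (e : Ed X.P) :
    ((X.Tv.filter (fun a => a.1 = e)).card : ℝ) ≤ 2 * X.P.L := by
  have h1 : (X.Tv.filter (fun a => a.1 = e)).card ≤
      (univ : Finset (Bool × Fin X.P.L)).card := by
    refine card_le_card_of_injOn (fun a => a.2) (fun _ _ => mem_univ _) ?_
    intro a ha b hb hab
    have h2 : a.1 = e := (mem_filter.1 (mem_coe.1 ha)).2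
    have h3 : b.1 = e := (mem_filter.1 (mem_coe.1 hb)).2
    exact Prod.ext (h2.trans h3.symm) hab
  rw [card_univ, Fintype.card_prod, Fintype.card_bool, Fintype.card_fin] at h1
  exact_mod_cast h1

private theorem w2c_card2 (hP : X.P.Ok) (e : Ed X.P) :
    ((X.Tv.filter (fun a => tgt X.P a = e)).card : ℝ) ≤ 2 * X.P.L := by
  have h1 : (X.Tv.filter (fun a => tgt X.P a = e)).card ≤
      (univ : Finset (Bool × Fin X.P.L)).card := by
    refine card_le_card_of_injOn (fun a => a.2) (fun _ _ => mem_univ _) ?_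
    intro a ha b hb hab
    have h2 : tgt X.P a = e := (mem_filter.1 (mem_coe.1 ha)).2
    have h3 : tgt X.P b = e := (mem_filter.1 (mem_coe.1 hb)).2
    have h4 : tgt X.P a = tgt X.P b := h2.trans h3.symm
    obtain ⟨⟨ra, xa⟩, ta, ja⟩ := a
    obtain ⟨⟨rb, xb⟩, tb, jb⟩ := b
    have h5 : ((ta, ja) : Bool × Fin X.P.L) = (tb, jb) := hab
    obtain ⟨h6, h7⟩ := Prod.mk.inj h5
    subst h6
    subst h7
    have h8 : ((ra, sw X.P ta ra ja xa) : Ed X.P) = (rb, sw X.P ta rb ja xb) := h4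
    obtain ⟨h9, h10⟩ := Prod.mk.inj h8
    subst h9
    have h11 := congrArg (sw X.P ta ra ja) h10
    rw [sw_sw hP, sw_sw hP] at h11
    rw [h11]
  rw [card_univ, Fintype.card_prod, Fintype.card_bool, Fintype.card_fin] at h1
  exact_mod_cast h1

private theorem w2c_w1_nonneg (hX : X.Ok C c ε) (e : Ed X.P) : 0 ≤ X.w1 e := by
  unfold w1
  split_ifs with h
  · refine div_nonneg (hX.nonneg _ _) ?_
    unfold S
    exact sum_nonneg fun e _ => hX.nonneg _ _
  · exact le_refl _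

theorem w2_bd (hX : X.Ok C c ε) (hS : Sm X.P.L C c X.ρ) {γ : ℤ → ℤ → ℝ}
    (hγ : ∀ d ∈ X.D1, ∀ j ∈ X.J0, |γ d j| ≤ Cg X.P.L C * X.ρ / X.P.n) {e : Ed X.P}
    (he : e ∈ X.VE) : 0 ≤ X.w2 γ e ∧ X.w2 γ e ≤ (2 * C + c) / (X.P.n : ℝ) ^ X.P.L := by
  have hn : (0 : ℝ) < X.P.n := by exact_mod_cast hX.ok.n_pos
  have hN : (0 : ℝ) < (X.P.n : ℝ) ^ X.P.L := pow_pos hn _
  have hmain : |∑ a ∈ X.Tv, X.mv γ a *
      ((if tgt X.P a = e then (1 : ℝ) else 0) - (if a.1 = e then (1 : ℝ) else 0))| ≤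
      c / (X.P.n : ℝ) ^ X.P.L := by
    have hK : ∀ a ∈ X.Tv, |X.mv γ a *
        ((if tgt X.P a = e then (1 : ℝ) else 0) - (if a.1 = e then (1 : ℝ) else 0))| ≤
        Cg X.P.L C * X.ρ / (X.P.n : ℝ) ^ X.P.L *
        ((if tgt X.P a = e then (1 : ℝ) else 0) + (if a.1 = e then (1 : ℝ) else 0)) := by
      intro a ha
      rw [abs_mul]
      refine mul_le_mul (mv_le hX hγ ha) ?_ (abs_nonneg _)
        ((abs_nonneg _).trans (mv_le hX hγ ha))
      split_ifs <;> norm_num
    refine (abs_sum_le_sum_abs _ _).trans ((sum_le_sum hK).trans ?_)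
    rw [← mul_sum, sum_add_distrib, ← sum_filter, ← sum_filter, sum_const, sum_const,
      nsmul_eq_mul, nsmul_eq_mul, mul_one, mul_one]
    have h1 := w2c_card1 (X := X) e
    have h2 := w2c_card2 hX.ok e
    by_cases h0 : X.Tv = ∅
    · rw [h0, filter_empty, filter_empty, card_empty, Nat.cast_zero, add_zero, mul_zero]
      exact div_nonneg hX.c_pos.le hN.le
    · obtain ⟨a, ha⟩ := nonempty_iff_ne_empty.2 h0
      have h3 : 0 ≤ Cg X.P.L C * X.ρ / (X.P.n : ℝ) ^ X.P.L :=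
        (abs_nonneg _).trans (mv_le hX hγ ha)
      have h4 : Cg X.P.L C * X.ρ / (X.P.n : ℝ) ^ X.P.L *
          (((X.Tv.filter (fun a => tgt X.P a = e)).card : ℝ) +
            ((X.Tv.filter (fun a => a.1 = e)).card : ℝ)) ≤
          Cg X.P.L C * X.ρ / (X.P.n : ℝ) ^ X.P.L * (4 * X.P.L) :=
        mul_le_mul_of_nonneg_left (by linarith) h3
      refine h4.trans ?_
      rw [div_mul_eq_mul_div]
      refine div_le_div_of_nonneg_right ?_ hN.le
      have h5 := hS.s3
      linarith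
  have hw2 : X.w2 γ e = X.w1 e + ∑ a ∈ X.Tv, X.mv γ a *
      ((if tgt X.P a = e then (1 : ℝ) else 0) - (if a.1 = e then (1 : ℝ) else 0)) := rfl
  constructor
  · by_cases hex : ∃ a ∈ X.Tv, tgt X.P a = e ∨ a.1 = e
    · obtain ⟨a, ha, h1⟩ := hex
      have h2 : Reg X.P e.1 a.2.2 e.2 := by
        obtain ⟨-, -, -, h3, h4, -⟩ := mem_Tv.1 ha
        rcases h1 with h1 | h1
        · rw [← h1]
          exact h4
        · rw [← h1]
          exact h3
      have h3 := w1_low hX hS he h2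
      rw [hw2]
      have h4 := (abs_le.1 hmain).1
      linarith
    · have h1 : ∑ a ∈ X.Tv, X.mv γ a *
          ((if tgt X.P a = e then (1 : ℝ) else 0) - (if a.1 = e then (1 : ℝ) else 0)) = 0 := by
        refine sum_eq_zero fun a ha => ?_
        rw [if_neg (fun h => hex ⟨a, ha, Or.inl h⟩), if_neg (fun h => hex ⟨a, ha, Or.inr h⟩),
          sub_zero, mul_zero]
      rw [hw2, h1, add_zero]
      exact w2c_w1_nonneg hX e
  · have h3 := w1_le hX hS e
    have h4 := (abs_le.1 hmain).2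
    rw [hw2, add_div]
    linarith

end Cx

end Pool.Agent.PGo.M
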