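import Pool.Agent.PGo.M.W2A
import Pool.Agent.PGo.M.W2C
import Pool.Agent.PGo.M.Tau
import Pool.Agent.PGo.M.NibM

/-!
# PGo, Theorem M: assembly
-/

set_option autoImplicit false

noncomputable section

namespace Pool.Agent.PGo.M

open Finset Pool.Agent.PGr Pool.Agent.PGo
open scoped Classical

theorem main_cx (L : ℕ) (hL : 1 ≤ L) (η : ℝ) (hη : 0 < η) :
    ∃ δ : ℝ, 0 < δ ∧ ∀ (X : Cx) (C c ε : ℝ), X.P.L = L → X.Ok C c ε → Sm X.P.L C c X.ρ →
      (2 * C + c) * (16 * kk X.P) ≤ δ * X.P.n →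
      ∃ (J : Finset ℕ) (Y : ℕ → Fin X.P.L → ℤ), J ⊆ X.I ∧
        (1 - η) * (((X.I.filter (fun r => X.P.good r)).card : ℝ) / (1 + 2 * ε)) ≤ (J.card : ℝ) ∧
        X.P.Fam X.Z0 X.D0 J Y := by
  obtain ⟨δ, hδ, hfam⟩ := exists_fam L hL η hη
  refine ⟨δ, hδ, ?_⟩
  intro X C c ε hXL hX hS hsmall
  obtain ⟨γ, hγ, h1, h2⟩ := Cx.exists_flow hX hS
  have hn : (0 : ℝ) < X.P.n := Cx.Ok.n_pos hX
  have hs : (1 : ℝ) ≤ 1 + 2 * ε := by
    have := hX.ε_pos
    linarith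
  obtain ⟨J, Y, hJ, hc, hF⟩ := hfam X hXL hX.ok (X.w2 γ) (1 + 2 * ε) hs
    (fun e he => (Cx.w2_bd hX hS hγ he).1)
    (fun r => by
      rw [Cx.w2_cyc, Cx.dg_cyc hX hS]
      split_ifs
      · exact le_rfl
      · exact zero_le_one)
    (fun z => by
      have := Cx.w2_lab hX hS hγ z
      linarith)
    (fun d hd => by
      rw [Cx.w2_dif hX h1 h2 hd]
      exact Cx.tau_le hX hS)
    (fun e he => by
      have h3 := (Cx.w2_bd hX hS hγ he).2
      have hkk : 0 ≤ kk X.P := by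
        unfold kk
        positivity
      have hLpos : 0 < X.P.L := hX.ok.L_pos
      have h4 : 0 ≤ 16 * kk X.P * (X.P.n : ℝ) ^ (X.P.L - 1) := by positivity
      refine (mul_le_mul_of_nonneg_right h3 h4).trans ?_
      have h5 : (X.P.n : ℝ) ^ X.P.L = (X.P.n : ℝ) ^ (X.P.L - 1) * X.P.n := by
        rw [← pow_succ]
        congr 1
        omega
      have h6 : (0 : ℝ) < (X.P.n : ℝ) ^ (X.P.L - 1) := by positivity
      rw [h5, div_mul_eq_mul_div, div_le_iff₀ (by positivity)]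
      calc (2 * C + c) * (16 * kk X.P * (X.P.n : ℝ) ^ (X.P.L - 1))
          = (2 * C + c) * (16 * kk X.P) * (X.P.n : ℝ) ^ (X.P.L - 1) := by ring
        _ ≤ δ * X.P.n * (X.P.n : ℝ) ^ (X.P.L - 1) :=
            mul_le_mul_of_nonneg_right hsmall h6.le
        _ = δ * ((X.P.n : ℝ) ^ (X.P.L - 1) * X.P.n) := by ring)
  refine ⟨J, Y, hJ, ?_, hF⟩
  rw [Cx.w2_sum, Cx.sum_w1 hX hS] at hc
  exact hc

theorem exists_rho (L : ℕ) (C c : ℝ) (hC : 0 < C) (hc : 0 < c) :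
    ∃ ρ : ℝ, 0 < ρ ∧ ρ ≤ 1 ∧ Sm L C c ρ := by
  have hCb : 0 ≤ Cb L := by unfold Cb; positivity
  have hCd : 0 ≤ Cd L C := by unfold Cd; positivity
  have hC4 : 0 ≤ C4 L := by unfold C4; positivity
  have hCg : 0 ≤ Cg L C := by unfold Cg; positivity
  have a1 : 0 ≤ 400 * (C * Cb L) := by positivity
  have a2 : 0 ≤ 200 * (4 * L * 3 ^ L * Cg L C) := by positivity
  have a3 : 0 ≤ 4 * L * Cg L C / c := by positivity
  have a4 : 0 ≤ 4 * L * Cb L * 500000 / 9 := by positivity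
  obtain ⟨A, hA⟩ : ∃ A : ℝ, A = 400 * (C * Cb L) + 200 * (4 * L * 3 ^ L * Cg L C) +
      4 * L * Cg L C / c + 4 * L * Cb L * 500000 / 9 + 1 := ⟨_, rfl⟩
  have hA1 : 1 ≤ A := by rw [hA]; linarith
  have hA0 : 0 < A := by linarith
  refine ⟨1 / A, by positivity, by rw [div_le_one hA0]; exact hA1, ⟨?_, ?_, ?_, ?_⟩⟩
  · rw [mul_one_div, div_le_iff₀ hA0]
    linarith
  · rw [mul_one_div, div_le_iff₀ hA0]
    linarith
  · rw [mul_one_div, div_le_iff₀ hA0]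
    have h1 : 4 * L * Cg L C / c ≤ A := by linarith
    rw [div_le_iff₀ hc] at h1
    linarith
  · rw [mul_one_div, div_le_iff₀ hA0]
    linarith

theorem thmM {L p : ℕ} (hA : Adm L p) : ThmM L p := by
  intro C c hC hc
  obtain ⟨ρ, hρ0, hρ1, hS⟩ := exists_rho L C c hC hc
  refine ⟨ρ, hρ0, ?_⟩
  intro η hη
  have hL : 1 ≤ L := by have := hA.three; omega
  obtain ⟨δ, hδ, hmain⟩ := main_cx L hL (η / 4) (by positivity)
  obtain ⟨ε, hε⟩ : ∃ ε : ℝ, ε = min ρ (η / 8) := ⟨_, rfl⟩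
  have hε0 : 0 < ε := by rw [hε]; exact lt_min hρ0 (by positivity)
  have hερ : ε ≤ ρ := by rw [hε]; exact min_le_left _ _
  have hεη : ε ≤ η / 8 := by rw [hε]; exact min_le_right _ _
  refine ⟨ε, hε0, ?_⟩
  obtain ⟨K, hK⟩ : ∃ K : ℝ, K = (L : ℝ) ^ 2 * 3 ^ L := ⟨_, rfl⟩
  have hK0 : 0 ≤ K := by rw [hK]; positivity
  obtain ⟨N1, hN1⟩ := exists_nat_ge ((1000 + 1000 * (L : ℝ) * K / ρ) / ε)
  obtain ⟨N2, hN2⟩ := exists_nat_ge ((2 * C + c) * (16 * K) / δ)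
  obtain ⟨N3, hN3⟩ := exists_nat_ge (4 / η)
  refine ⟨N1 + N2 + N3 + 1, ?_⟩
  intro g hg W hW I Z0 D0 hI hIc hZ hZc hD hDc hcard
  obtain ⟨Bd, hBd, hdif⟩ := hW.dif
  have hg1 : (N1 : ℝ) + N2 + N3 + 1 ≤ g := by exact_mod_cast hg
  have hN1' : (0 : ℝ) ≤ N1 := Nat.cast_nonneg _
  have hN2' : (0 : ℝ) ≤ N2 := Nat.cast_nonneg _
  have hN3' : (0 : ℝ) ≤ N3 := Nat.cast_nonneg _
  have hg2 : 0 < g := by omega
  have hok : (Par.mk L p g).Ok := ⟨hA, hg2⟩
  have hgn : (g : ℝ) ≤ (Par.mk L p g).n := by exact_mod_cast hok.g_le_n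
  have hXok : (Cx.mk (Par.mk L p g) W I Z0 D0 Bd ρ).Ok C c ε := by
    refine ⟨hok, hC, hc, hρ0, hρ1, hε0, hερ, hW.nonneg, hW.supp, hW.le, hW.cyc, hW.low, hW.lab,
      hBd, hdif, hI, hIc.trans ?_, hZ, hZc.trans ?_, hD, hDc.trans ?_, hcard, ?_⟩
    · exact mul_le_mul_of_nonneg_left hgn hρ0.le
    · exact mul_le_mul_of_nonneg_left hgn hρ0.le
    · exact mul_le_mul_of_nonneg_left hgn hρ0.le
    · show 1000 + 1000 * (L : ℝ) * kk (Par.mk L p g) / ρ ≤ ε * ((Par.mk L p g).n : ℝ)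
      have h1 : kk (Par.mk L p g) = K := by rw [hK]; rfl
      rw [h1]
      have h2 : (1000 + 1000 * (L : ℝ) * K / ρ) / ε ≤ (Par.mk L p g).n := by linarith
      rw [div_le_iff₀ hε0] at h2
      linarith
  have h3 : (2 * C + c) * (16 * kk (Par.mk L p g)) ≤ δ * ((Par.mk L p g).n : ℝ) := by
    have h1 : kk (Par.mk L p g) = K := by rw [hK]; rfl
    rw [h1]
    have h2 : (2 * C + c) * (16 * K) / δ ≤ (Par.mk L p g).n := by linarith
    rw [div_le_iff₀ hδ] at h2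
    linarith
  obtain ⟨J, Y, hJ, hJc, hF⟩ := hmain (Cx.mk (Par.mk L p g) W I Z0 D0 Bd ρ) C c ε rfl hXok hS h3
  refine ⟨J, Y, hJ, ?_, hF⟩
  -- the number of the cycles
  have hJc' : (1 - η / 4) * (((I.filter (fun r => (Par.mk L p g).good r)).card : ℝ) /
      (1 + 2 * ε)) ≤ (J.card : ℝ) := hJc
  have hJI : J ⊆ I := hJ
  have hgood : (I.card : ℝ) - 1 ≤ ((I.filter (fun r => (Par.mk L p g).good r)).card : ℝ) := by
    have h4 : (I.filter (fun r => ¬ (Par.mk L p g).good r)).card ≤ 1 := by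
      rw [card_le_one]
      intro r hr r' hr'
      rw [mem_filter] at hr hr'
      exact good_all_but hok (mem_range.1 (hI hr.1)) (mem_range.1 (hI hr'.1)) hr.2 hr'.2
    have h5 := card_filter_add_card_filter_not (s := I) (fun r => (Par.mk L p g).good r)
    have h6 : I.card ≤ (I.filter (fun r => (Par.mk L p g).good r)).card + 1 := by omega
    have h7 : (I.card : ℝ) ≤ ((I.filter (fun r => (Par.mk L p g).good r)).card : ℝ) + 1 := by
      exact_mod_cast h6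
    linarith
  have hIg : (I.card : ℝ) ≤ g := by
    have := card_le_card hI
    rw [card_range] at this
    exact_mod_cast this
  have hsd : ((I \ J).card : ℝ) = (I.card : ℝ) - J.card := by
    rw [card_sdiff_of_subset hJI, Nat.cast_sub (card_le_card hJI)]
  rw [hsd]
  have hg0 : (0 : ℝ) ≤ g := Nat.cast_nonneg _
  have hηg : 4 ≤ η * g := by
    have h8 : 4 / η ≤ g := by linarith
    rw [div_le_iff₀ hη] at h8
    linarith
  obtain ⟨G, hG⟩ : ∃ G : ℝ, G = ((I.filter (fun r => (Par.mk L p g).good r)).card : ℝ) := ⟨_, rfl⟩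
  rw [← hG] at hJc' hgood
  have hG0 : 0 ≤ G := by rw [hG]; positivity
  have hGg : G ≤ g := by
    rw [hG]
    refine le_trans ?_ hIg
    exact_mod_cast card_filter_le I _
  by_cases hη4 : 4 ≤ η
  · have hJ0 : (0 : ℝ) ≤ J.card := Nat.cast_nonneg _
    have h19 : 4 * (g : ℝ) ≤ η * g := mul_le_mul_of_nonneg_right hη4 hg0
    linarith
  · push Not at hη4
    have h9 : G * (1 - 2 * ε) ≤ G / (1 + 2 * ε) := by
      rw [le_div_iff₀ (by linarith)]
      have h14 : G * (1 - 2 * ε) * (1 + 2 * ε) = G - 4 * (G * (ε * ε)) := by ring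
      have h15 : 0 ≤ G * (ε * ε) := mul_nonneg hG0 (mul_nonneg hε0.le hε0.le)
      rw [h14]
      linarith
    have h10 : (1 - η / 4) * (G * (1 - 2 * ε)) ≤ J.card :=
      (mul_le_mul_of_nonneg_left h9 (by linarith)).trans hJc'
    have h11 : G - (η / 4 + 2 * ε) * G ≤ (1 - η / 4) * (G * (1 - 2 * ε)) := by
      have h16 : 0 ≤ η / 4 * (2 * ε) * G := by positivity
      have h17 : (1 - η / 4) * (G * (1 - 2 * ε)) =
          G - (η / 4 + 2 * ε) * G + η / 4 * (2 * ε) * G := by ring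
      rw [h17]
      linarith
    have h12 : (η / 4 + 2 * ε) * G ≤ η / 2 * g := by
      have h13 : (η / 4 + 2 * ε) * G ≤ (η / 2) * G :=
        mul_le_mul_of_nonneg_right (by linarith) hG0
      exact h13.trans (mul_le_mul_of_nonneg_left hGg (by linarith))
    have h18 : η / 2 * g = η * g / 2 := by ring
    rw [h18] at h12
    linarith

end Pool.Agent.PGo.M
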