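import Pool.Agent.PGo.M.Cnt

/-!
# PGo-M-Anc: anchors

PLAN. `anc n v`: `v` even: `v/2`; `v` odd, not special: `3n - v/2` (integer division);
special (`n` even, `v = n - 1`): `3 (n/2)`. All statements: unfold `anc`, `spec`, `split_ifs`, `omega`.
`anc_inj`: maybe already in `Pool/Agent/PGr` (grep `anc_inj`); else unfold and `omega`.
`anc_vx_inj`: `vx r j = vx r' j` by injectivity, `Par.vx_mod_g`, `Nat.mod_eq_of_lt`.
`good_all_but`: if `vx r j`, `vx r' j'` are both special they are `n - 1`, so `r = (n-1) mod g = r'`.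
-/
set_option autoImplicit false

noncomputable section

namespace Pool.Agent.PGo.M

open Finset Pool.Agent.PGr Pool.Agent.PGo
open scoped Classical

variable {P : Par}

theorem anc_cases {n v : ℕ} (hv : v < n) (hs : ¬ spec n v) :
    (0 ≤ anc n v ∧ 2 * anc n v < n) ∨ (5 * (n : ℤ) < 2 * anc n v ∧ anc n v ≤ 3 * n) := by
  unfold spec at hs
  unfold anc
  split_ifs with h1
  · left; omega
  · right; omega

theorem anc_inj {n v w : ℕ} (hv : v < n) (hw : w < n) (he : anc n v = anc n w) : v = w := by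
  unfold anc at he
  split_ifs at he <;> omega

theorem anc_vx_inj (h : P.Ok) {r r' j : ℕ} (hr : r < P.g) (hr' : r' < P.g)
    (he : anc P.n (P.vx r j) = anc P.n (P.vx r' j)) : r = r' := by
  have h1 := anc_inj (Par.vx_lt h r j) (Par.vx_lt h r' j) he
  have h2 : P.vx r j % P.g = P.vx r' j % P.g := by rw [h1]
  rw [Par.vx_mod_g, Par.vx_mod_g, Nat.mod_eq_of_lt hr, Nat.mod_eq_of_lt hr'] at h2
  exact h2

private theorem mem_ZB' {n : ℕ} {z : ℤ} (hz : z ∈ ZB n) : (n : ℤ) < 2 * z ∧ 2 * z < 5 * n :=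
  (mem_filter.1 hz).2

/-- box labels are different from the anchors of good cycles -/
theorem zb_ne_anc (h : P.Ok) {r : ℕ} (hr : P.good r) (j : Fin P.L) {z : ℤ} (hz : z ∈ ZB P.n) :
    z ≠ anc P.n (P.vx r j) := by
  have h1 := anc_cases (Par.vx_lt h r j) (hr j j.2)
  have h2 := mem_ZB' hz
  intro he
  rw [he] at h2
  rcases h1 with h1 | h1 <;> omega

theorem spoke_le (h : P.Ok) {r : ℕ} (hr : P.good r) (j : Fin P.L) {z : ℤ} (h1 : (P.n : ℤ) ≤ z)
    (h2 : z ≤ 2 * P.n) : |z - anc P.n (P.vx r j)| ≤ 2 * (P.n : ℤ) := by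
  have h3 := anc_cases (Par.vx_lt h r j) (hr j j.2)
  rw [abs_le]
  rcases h3 with h3 | h3 <;> constructor <;> omega

/-- at most one cycle is not good -/
theorem good_all_but (h : P.Ok) {r r' : ℕ} (hr : r < P.g) (hr' : r' < P.g) (h1 : ¬ P.good r)
    (h2 : ¬ P.good r') : r = r' := by
  have key : ∀ s : ℕ, s < P.g → ¬ P.good s → s = (P.n - 1) % P.g := by
    intro s hs hg
    unfold Par.good at hg
    push Not at hg
    obtain ⟨j, _, hj⟩ := hg
    have h3 : P.vx s j = P.n - 1 := by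
      have := hj.2
      omega
    have h4 := Par.vx_mod_g (P := P) s j
    rw [h3, Nat.mod_eq_of_lt hs] at h4
    exact h4.symm
  rw [key r hr h1, key r' hr' h2]

/-- two different box labels have difference between `1` and `2 n` -/
theorem zb_dif {n : ℕ} {z z' : ℤ} (hz : z ∈ ZB n) (hz' : z' ∈ ZB n) (hne : z ≠ z') :
    1 ≤ |z - z'| ∧ |z - z'| ≤ 2 * (n : ℤ) := by
  have h1 := mem_ZB' hz
  have h2 := mem_ZB' hz'
  constructor
  · exact Int.one_le_abs (sub_ne_zero.2 hne)
  · rw [abs_le]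
    constructor <;> omega

end Pool.Agent.PGo.M
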