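import Pool.Agent.PGo.M.Sets

/-!
# PGo-M-BadC: number of the bad edges through a cycle or a difference

PLAN. `bad_cyc`: the bad edges through the cycle `r ∈ I` are in
`⋃_{z ∈ BZ} thr2 (cycle r) (label z) ∪ ⋃_{d ∈ BD} thr2 (cycle r) (difference d) ∪ {(r, x) | Co}`:
`pair_le`, `BZ_card`, `BD_card`, `co_le`: `(2 ρ n + 3 ρ n) 16 kk n^(L-1) + 20 kk n^(L-1)`
`≤ 80 ρ kk n^L + ρ kk n^L ≤ 120 kk ρ n^L` (`20 ≤ ρ n`). `Cb L = 120 (L^2 3^L) = 120 kk`.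
`bad_dif`: `d ∈ D1`: `⋃_{r ∉ I} thr2 (cycle r) (difference d) ∪ ⋃_{z ∈ BZ} thr2 (label z) (difference d)`
`∪ ⋃_{d' ∈ BD} thr2 (difference d) (difference d')` (`d' ≠ d` because `d ∈ D1`) `∪ coT d` (`|coT d| ≤ ρ n^L`
because `d ∉ Bx` and `1 ≤ d ≤ 2n`): `(ρ + 2 ρ + 3 ρ) n 16 kk n^(L-1) + ρ n^L ≤ 97 kk ρ n^L`.
-/
set_option autoImplicit false

noncomputable section

namespace Pool.Agent.PGo.M

open Finset Pool.Agent.PGr Pool.Agent.PGo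
open scoped Classical

namespace Cx

variable {X : Cx} {C c ε : ℝ}

private theorem badc_un {ι : Type} (s : Finset ι) (A : ι → Finset (Ed X.P)) (M : ℝ)
    (hM : ∀ i ∈ s, ((A i).card : ℝ) ≤ M) : ((s.biUnion A).card : ℝ) ≤ s.card * M := by
  have h1 : ((s.biUnion A).card : ℝ) ≤ ∑ i ∈ s, ((A i).card : ℝ) := by
    exact_mod_cast card_biUnion_le
  refine h1.trans ?_
  have h2 := Finset.sum_le_card_nsmul s (fun i => ((A i).card : ℝ)) M hM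
  rw [nsmul_eq_mul] at h2
  exact h2

private theorem badc_pow (hX : X.Ok C c ε) :
    (X.P.n : ℝ) * (X.P.n : ℝ) ^ (X.P.L - 1) = (X.P.n : ℝ) ^ X.P.L := by
  have h1 := hX.ok.L_pos
  rw [← pow_succ']
  congr 1
  omega

private theorem badc_big (hX : X.Ok C c ε) : 20 ≤ X.ρ * (X.P.n : ℝ) := by
  have h1 := hX.big1
  have h2 := hX.n_pos
  have h3 := hX.ε_le
  nlinarith [mul_le_mul_of_nonneg_right h3 h2.le]

theorem bad_cyc (hX : X.Ok C c ε) {r : ℕ} (hr : r ∈ X.I) :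
    ((X.Bad.filter (fun e => (Sum.inl r : Vt) ∈ Sv X.P e)).card : ℝ) ≤
      Cb X.P.L * X.ρ * (X.P.n : ℝ) ^ X.P.L := by
  have hsub : X.Bad.filter (fun e => (Sum.inl r : Vt) ∈ Sv X.P e) ⊆
      (X.BZ.biUnion (fun z => thr2 X.P (Sum.inl r) (Sum.inr (Sum.inl z))) ∪
        X.BD.biUnion (fun d => thr2 X.P (Sum.inl r) (Sum.inr (Sum.inr d)))) ∪
      (X.P.box.filter (fun x => Co X.P (r, x))).image (fun x => ((r, x) : Ed X.P)) := by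
    intro e he
    obtain ⟨he1, he2⟩ := mem_filter.1 he
    obtain ⟨he3, he4⟩ := mem_Bad.1 he1
    have her := mem_Sv_cyc.1 he2
    rw [mem_union, mem_union]
    rcases he4 with h | ⟨j, hj⟩ | ⟨i, hi⟩ | h
    · rw [her] at h
      exact absurd hr h
    · refine Or.inl (Or.inl (mem_biUnion.2 ⟨e.2 j, hj, mem_thr2.2 ⟨he3, he2, ?_⟩⟩))
      exact mem_Sv_lab.2 ⟨j, rfl⟩
    · refine Or.inl (Or.inr (mem_biUnion.2 ⟨X.P.df e.1 e.2 i, hi, mem_thr2.2 ⟨he3, he2, ?_⟩⟩))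
      exact mem_Sv_dif.2 ⟨i, rfl⟩
    · refine Or.inr (mem_image.2 ⟨e.2, mem_filter.2 ⟨(mem_EE.1 he3).2, ?_⟩, ?_⟩)
      · rw [← her]
        exact h
      · rw [← her]
  have h1 : ((X.Bad.filter (fun e => (Sum.inl r : Vt) ∈ Sv X.P e)).card : ℝ) ≤
      ((X.BZ.biUnion (fun z => thr2 X.P (Sum.inl r) (Sum.inr (Sum.inl z)))).card : ℝ) +
      ((X.BD.biUnion (fun d => thr2 X.P (Sum.inl r) (Sum.inr (Sum.inr d)))).card : ℝ) +
      ((X.P.box.filter (fun x => Co X.P (r, x))).card : ℝ) := by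
    have h2 := (card_le_card hsub).trans ((card_union_le _ _).trans
      (Nat.add_le_add (card_union_le _ _) card_image_le))
    exact_mod_cast h2
  have h2 := badc_un (X := X) X.BZ (fun z => thr2 X.P (Sum.inl r) (Sum.inr (Sum.inl z)))
    (16 * kk X.P * (X.P.n : ℝ) ^ (X.P.L - 1)) (fun z _ => pair_le hX.ok (by simp))
  have h3 := badc_un (X := X) X.BD (fun d => thr2 X.P (Sum.inl r) (Sum.inr (Sum.inr d)))
    (16 * kk X.P * (X.P.n : ℝ) ^ (X.P.L - 1)) (fun z _ => pair_le hX.ok (by simp))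
  have h4 := co_le hX.ok r
  have h5 := BZ_card hX
  have h6 := BD_card hX
  have h7 := badc_big hX
  have h8 := hX.kk_ge
  have hp : (0 : ℝ) ≤ (X.P.n : ℝ) ^ (X.P.L - 1) := by positivity
  have hk : (0 : ℝ) ≤ kk X.P * (X.P.n : ℝ) ^ (X.P.L - 1) :=
    mul_nonneg (by linarith) hp
  have e1 : Cb X.P.L = 120 * kk X.P := rfl
  rw [e1, ← badc_pow hX]
  have g1 : (X.BZ.card : ℝ) * (16 * kk X.P * (X.P.n : ℝ) ^ (X.P.L - 1)) ≤
      (2 * X.ρ * X.P.n) * (16 * kk X.P * (X.P.n : ℝ) ^ (X.P.L - 1)) :=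
    mul_le_mul_of_nonneg_right h5 (by linarith)
  have g2 : (X.BD.card : ℝ) * (16 * kk X.P * (X.P.n : ℝ) ^ (X.P.L - 1)) ≤
      (3 * X.ρ * X.P.n) * (16 * kk X.P * (X.P.n : ℝ) ^ (X.P.L - 1)) :=
    mul_le_mul_of_nonneg_right h6 (by linarith)
  have g3 : 20 * (kk X.P * (X.P.n : ℝ) ^ (X.P.L - 1)) ≤
      (X.ρ * X.P.n) * (kk X.P * (X.P.n : ℝ) ^ (X.P.L - 1)) :=
    mul_le_mul_of_nonneg_right h7 hk
  have g4 : 0 ≤ (X.ρ * X.P.n) * (kk X.P * (X.P.n : ℝ) ^ (X.P.L - 1)) :=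
    mul_nonneg (by linarith) hk
  have g5 : 120 * kk X.P * X.ρ * ((X.P.n : ℝ) * (X.P.n : ℝ) ^ (X.P.L - 1)) =
      120 * ((X.ρ * X.P.n) * (kk X.P * (X.P.n : ℝ) ^ (X.P.L - 1))) := by ring
  rw [g5]
  linarith

theorem bad_dif (hX : X.Ok C c ε) {d : ℤ} (hd : d ∈ X.D1) :
    ((X.Bad.filter (fun e => (Sum.inr (Sum.inr d) : Vt) ∈ Sv X.P e)).card : ℝ) ≤
      Cb X.P.L * X.ρ * (X.P.n : ℝ) ^ X.P.L := by
  have hsub : X.Bad.filter (fun e => (Sum.inr (Sum.inr d) : Vt) ∈ Sv X.P e) ⊆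
      ((range X.P.g \ X.I).biUnion (fun r => thr2 X.P (Sum.inl r) (Sum.inr (Sum.inr d))) ∪
        X.BZ.biUnion (fun z => thr2 X.P (Sum.inr (Sum.inl z)) (Sum.inr (Sum.inr d)))) ∪
      (X.BD.biUnion (fun d' => thr2 X.P (Sum.inr (Sum.inr d)) (Sum.inr (Sum.inr d'))) ∪
        coT X.P d) := by
    intro e he
    obtain ⟨he1, he2⟩ := mem_filter.1 he
    obtain ⟨he3, he4⟩ := mem_Bad.1 he1
    rw [mem_union, mem_union, mem_union]
    rcases he4 with h | ⟨j, hj⟩ | ⟨i, hi⟩ | h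
    · refine Or.inl (Or.inl (mem_biUnion.2 ⟨e.1, mem_sdiff.2 ⟨mem_range.2 (mem_EE.1 he3).1, h⟩,
        mem_thr2.2 ⟨he3, ?_, he2⟩⟩))
      exact mem_Sv_cyc.2 rfl
    · refine Or.inl (Or.inr (mem_biUnion.2 ⟨e.2 j, hj, mem_thr2.2 ⟨he3, ?_, he2⟩⟩))
      exact mem_Sv_lab.2 ⟨j, rfl⟩
    · refine Or.inr (Or.inl (mem_biUnion.2 ⟨X.P.df e.1 e.2 i, hi, mem_thr2.2 ⟨he3, he2, ?_⟩⟩))
      exact mem_Sv_dif.2 ⟨i, rfl⟩
    · exact Or.inr (Or.inr (mem_coT.2 ⟨he3, h, mem_Sv_dif.1 he2⟩))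
  have h1 : ((X.Bad.filter (fun e => (Sum.inr (Sum.inr d) : Vt) ∈ Sv X.P e)).card : ℝ) ≤
      (((range X.P.g \ X.I).biUnion
        (fun r => thr2 X.P (Sum.inl r) (Sum.inr (Sum.inr d)))).card : ℝ) +
      ((X.BZ.biUnion (fun z => thr2 X.P (Sum.inr (Sum.inl z)) (Sum.inr (Sum.inr d)))).card : ℝ) +
      (((X.BD.biUnion
        (fun d' => thr2 X.P (Sum.inr (Sum.inr d)) (Sum.inr (Sum.inr d')))).card : ℝ) +
      ((coT X.P d).card : ℝ)) := by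
    have h2 := (card_le_card hsub).trans ((card_union_le _ _).trans
      (Nat.add_le_add (card_union_le _ _) (card_union_le _ _)))
    exact_mod_cast h2
  have h2 := badc_un (X := X) (range X.P.g \ X.I)
    (fun r => thr2 X.P (Sum.inl r) (Sum.inr (Sum.inr d)))
    (16 * kk X.P * (X.P.n : ℝ) ^ (X.P.L - 1)) (fun z _ => pair_le hX.ok (by simp))
  have h3 := badc_un (X := X) X.BZ
    (fun z => thr2 X.P (Sum.inr (Sum.inl z)) (Sum.inr (Sum.inr d)))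
    (16 * kk X.P * (X.P.n : ℝ) ^ (X.P.L - 1)) (fun z _ => pair_le hX.ok (by simp))
  have h3' := badc_un (X := X) X.BD
    (fun d' => thr2 X.P (Sum.inr (Sum.inr d)) (Sum.inr (Sum.inr d')))
    (16 * kk X.P * (X.P.n : ℝ) ^ (X.P.L - 1)) (fun d' hd' => pair_le hX.ok (by
      intro he
      have he' : d = d' := Sum.inr.inj (Sum.inr.inj he)
      rw [← he'] at hd'
      unfold Cx.BD at hd'
      exact (mem_sdiff.1 hd').2 hd))
  have hd2 := mem_D1.1 hd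
  have h4 : ((coT X.P d).card : ℝ) ≤ X.ρ * (X.P.n : ℝ) ^ X.P.L := by
    by_contra hc
    exact hd2.2 (mem_Bx.2 ⟨hd2.1.1.2, not_le.1 hc⟩)
  have h5 := BZ_card hX
  have h6 := BD_card hX
  have h6' := hX.I_card
  have h7 := badc_big hX
  have h8 := hX.kk_ge
  have hρ := hX.ρ_pos
  have hn := hX.n_pos
  have hp : (0 : ℝ) ≤ (X.P.n : ℝ) ^ (X.P.L - 1) := by positivity
  have hk : (0 : ℝ) ≤ kk X.P * (X.P.n : ℝ) ^ (X.P.L - 1) :=
    mul_nonneg (by linarith) hp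
  have e1 : Cb X.P.L = 120 * kk X.P := rfl
  rw [← badc_pow hX] at h4
  rw [e1, ← badc_pow hX]
  have g0 : ((range X.P.g \ X.I).card : ℝ) * (16 * kk X.P * (X.P.n : ℝ) ^ (X.P.L - 1)) ≤
      (X.ρ * X.P.n) * (16 * kk X.P * (X.P.n : ℝ) ^ (X.P.L - 1)) :=
    mul_le_mul_of_nonneg_right h6' (by linarith)
  have g1 : (X.BZ.card : ℝ) * (16 * kk X.P * (X.P.n : ℝ) ^ (X.P.L - 1)) ≤
      (2 * X.ρ * X.P.n) * (16 * kk X.P * (X.P.n : ℝ) ^ (X.P.L - 1)) :=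
    mul_le_mul_of_nonneg_right h5 (by linarith)
  have g2 : (X.BD.card : ℝ) * (16 * kk X.P * (X.P.n : ℝ) ^ (X.P.L - 1)) ≤
      (3 * X.ρ * X.P.n) * (16 * kk X.P * (X.P.n : ℝ) ^ (X.P.L - 1)) :=
    mul_le_mul_of_nonneg_right h6 (by linarith)
  have g3 : X.ρ * ((X.P.n : ℝ) * (X.P.n : ℝ) ^ (X.P.L - 1)) ≤
      (X.ρ * X.P.n) * (kk X.P * (X.P.n : ℝ) ^ (X.P.L - 1)) := by
    have : X.ρ * ((X.P.n : ℝ) * (X.P.n : ℝ) ^ (X.P.L - 1)) =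
        (X.ρ * X.P.n) * (1 * (X.P.n : ℝ) ^ (X.P.L - 1)) := by ring
    rw [this]
    exact mul_le_mul_of_nonneg_left (mul_le_mul_of_nonneg_right (by linarith) hp) (by linarith)
  have g4 : 0 ≤ (X.ρ * X.P.n) * (kk X.P * (X.P.n : ℝ) ^ (X.P.L - 1)) :=
    mul_nonneg (by linarith) hk
  have g5 : 120 * kk X.P * X.ρ * ((X.P.n : ℝ) * (X.P.n : ℝ) ^ (X.P.L - 1)) =
      120 * ((X.ρ * X.P.n) * (kk X.P * (X.P.n : ℝ) ^ (X.P.L - 1))) := by ring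
  rw [g5]
  linarith

end Cx

end Pool.Agent.PGo.M
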