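import Pool.Agent.PGo.M.Defs

/-!
# PGo-M-Cnt: counting labelled cycles with one or two determined labels

PLAN. `zb_card_le`: the elements of `ZB n` are the integers `x` with `n < 2 x < 5 n`, so
`ZB n ⊆ Icc (n/2) (5n/2)`-like interval of at most `2 n + 1 ≤ 3 n` integers (`n ≥ 1`; for `n = 0` it is
empty): e.g. `ZB n ⊆ Ioo ((n:ℤ)/2) ((5n+1)/2)`, `Int.card_Ioo`, `omega`.
`cnt1`: `card_le_mul_card_image` (Mathlib: `s.card ≤ n * (s.image f).card` if all fibres have at most `n`
elements) for `f (r, x) = (r, Function.update x j 0)`: a fibre over the image of `(r, x)` injects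
into `{y ∈ ZB n | (r, update x j y) ∈ A}` by `(r, x') ↦ x' j` (then `x' = update x j (x' j)`), and
the image is contained in `R ×ˢ Fintype.piFinset (fun i => if i = j then {0} else ZB n)`, which has
`|R| |ZB n|^(L-1)` elements (`Fintype.card_piFinset`, `Finset.prod_ite_eq`-style: `prod_erase_mul`
or `Finset.prod_update`). `|ZB n|^(L-1) ≤ (3 n)^(L-1) ≤ 3^L n^(L-1)`.
`cnt2`: the same with `f (r, x) = (r, update (update x j 0) l 0)`.
-/
set_option autoImplicit false

noncomputable section

namespace Pool.Agent.PGo.M

open Finset Pool.Agent.PGr Pool.Agent.PGo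
open scoped Classical

theorem zb_card_le (n : ℕ) : (ZB n).card ≤ 3 * n := by
  have h1 : ZB n ⊆ Icc ((n : ℤ) / 2 + 1) (5 * (n : ℤ) / 2) := by
    intro z hz
    unfold ZB at hz
    rw [mem_filter] at hz
    rw [mem_Icc]
    omega
  have h2 := card_le_card h1
  rw [Int.card_Icc] at h2
  omega

theorem mem_box {P : Par} {x : Fin P.L → ℤ} : x ∈ P.box ↔ ∀ j, x j ∈ ZB P.n := by
  unfold Par.box
  exact Fintype.mem_piFinset

theorem mem_ZB {n : ℕ} {z : ℤ} : z ∈ ZB n ↔ (n : ℤ) < 2 * z ∧ 2 * z < 5 * n := by
  unfold ZB
  rw [mem_filter, mem_Icc]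
  constructor
  · intro h
    exact h.2
  · intro h
    exact ⟨⟨by omega, by omega⟩, h⟩

private theorem cnt_prod {L : ℕ} (s : Finset (Fin L)) (Z : Finset ℤ) :
    (Fintype.piFinset (fun i => if i ∈ s then ({0} : Finset ℤ) else Z)).card =
      Z.card ^ (L - s.card) := by
  rw [Fintype.card_piFinset]
  have h1 : ∀ i : Fin L, (if i ∈ s then ({0} : Finset ℤ) else Z).card =
      if i ∈ s then 1 else Z.card := by
    intro i
    split_ifs
    · exact card_singleton _
    · rfl
  simp only [h1]
  rw [prod_ite, prod_const_one, one_mul, prod_const]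
  congr 1
  rw [filter_not, card_sdiff_of_subset (filter_subset _ _), card_univ, Fintype.card_fin]
  congr 2
  ext i
  simp

private theorem cnt_real {K R N n L c : ℕ} (hN : N ≤ 3 * n) (hc : c ≤ L) {a : ℕ}
    (h : a ≤ K * (R * N ^ c)) : (a : ℝ) ≤ K * R * 3 ^ L * (n : ℝ) ^ c := by
  have h1 : N ^ c ≤ 3 ^ L * n ^ c := by
    calc N ^ c ≤ (3 * n) ^ c := Nat.pow_le_pow_left hN _
      _ = 3 ^ c * n ^ c := Nat.mul_pow _ _ _
      _ ≤ 3 ^ L * n ^ c := Nat.mul_le_mul_right _ (Nat.pow_le_pow_right (by norm_num) hc)
  have h2 : a ≤ K * R * 3 ^ L * n ^ c := by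
    refine h.trans ?_
    calc K * (R * N ^ c) ≤ K * (R * (3 ^ L * n ^ c)) :=
          Nat.mul_le_mul_left _ (Nat.mul_le_mul_left _ h1)
      _ = K * R * 3 ^ L * n ^ c := by ring
  exact_mod_cast h2

theorem cnt1 {P : Par} (R : Finset ℕ) (A : Finset (Ed P)) (hA : A ⊆ R ×ˢ P.box)
    (j : Fin P.L) (K : ℕ)
    (hK : ∀ r ∈ R, ∀ x ∈ P.box,
      ((ZB P.n).filter (fun y => (r, Function.update x j y) ∈ A)).card ≤ K) :
    (A.card : ℝ) ≤ K * R.card * 3 ^ P.L * (P.n : ℝ) ^ (P.L - 1) := by
  refine cnt_real (zb_card_le P.n) (Nat.sub_le _ _) ?_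
  have ht := cnt_prod ({j} : Finset (Fin P.L)) (ZB P.n)
  rw [card_singleton] at ht
  rw [← ht, ← card_product]
  refine card_le_mul_card_image_of_maps_to (f := fun e : Ed P => (e.1, Function.update e.2 j 0))
    ?_ K ?_
  · rintro ⟨r, x⟩ he
    obtain ⟨hr, hx⟩ := mem_product.1 (hA he)
    refine mem_product.2 ⟨hr, Fintype.mem_piFinset.2 fun i => ?_⟩
    have hx' := mem_box.1 hx
    by_cases hi : i = j
    · subst hi
      rw [if_pos (mem_singleton_self _), mem_singleton]
      exact Function.update_self _ _ _
    · rw [if_neg (by rw [mem_singleton]; exact hi)]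
      change Function.update x j 0 i ∈ ZB P.n
      rw [Function.update_of_ne hi]
      exact hx' i
  · rintro b -
    rcases (A.filter (fun e : Ed P => (e.1, Function.update e.2 j 0) = b)).eq_empty_or_nonempty
      with h0 | ⟨⟨r, x⟩, h0⟩
    · rw [h0, card_empty]
      exact Nat.zero_le _
    · obtain ⟨hrx, hb⟩ := mem_filter.1 h0
      obtain ⟨hr, hx⟩ := mem_product.1 (hA hrx)
      have key : ∀ e : Ed P, e ∈ A.filter (fun e : Ed P => (e.1, Function.update e.2 j 0) = b) →
          e = (r, Function.update x j (e.2 j)) := by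
        rintro ⟨r', x'⟩ he
        obtain ⟨-, hb'⟩ := mem_filter.1 he
        rw [← hb] at hb'
        have e1 : r' = r := congrArg Prod.fst hb'
        have e2 : Function.update x' j 0 = Function.update x j 0 := congrArg Prod.snd hb'
        refine Prod.ext e1 (funext fun i => ?_)
        change x' i = Function.update x j (x' j) i
        by_cases hi : i = j
        · subst hi
          rw [Function.update_self]
        · have e3 := congrFun e2 i
          rw [Function.update_of_ne hi, Function.update_of_ne hi] at e3
          rw [Function.update_of_ne hi, e3]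
      refine le_trans ?_ (hK r hr x hx)
      refine card_le_card_of_injOn (fun e => e.2 j) ?_ ?_
      · intro e he
        have he' : e ∈ A.filter (fun e : Ed P => (e.1, Function.update e.2 j 0) = b) := he
        have heA := (mem_filter.1 he').1
        refine mem_coe.2 (mem_filter.2 ⟨?_, ?_⟩)
        · exact mem_box.1 (mem_product.1 (hA heA)).2 j
        · rw [← key e he']
          exact heA
      · intro e he e' he' hee
        have h1 := key e he
        have h2 := key e' he'
        have h3 : e.2 j = e'.2 j := hee
        rw [h1, h2, ← h3]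

theorem cnt2 {P : Par} (R : Finset ℕ) (A : Finset (Ed P)) (hA : A ⊆ R ×ˢ P.box)
    {j l : Fin P.L} (hjl : j ≠ l) (K : ℕ)
    (hK : ∀ r ∈ R, ∀ x ∈ P.box, (((ZB P.n) ×ˢ (ZB P.n)).filter
      (fun y => (r, Function.update (Function.update x j y.1) l y.2) ∈ A)).card ≤ K) :
    (A.card : ℝ) ≤ K * R.card * 3 ^ P.L * (P.n : ℝ) ^ (P.L - 2) := by
  refine cnt_real (zb_card_le P.n) (Nat.sub_le _ _) ?_
  have ht := cnt_prod ({j, l} : Finset (Fin P.L)) (ZB P.n)
  rw [card_pair hjl] at ht
  rw [← ht, ← card_product]
  refine card_le_mul_card_image_of_maps_to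
    (f := fun e : Ed P => (e.1, Function.update (Function.update e.2 j 0) l 0)) ?_ K ?_
  · rintro ⟨r, x⟩ he
    obtain ⟨hr, hx⟩ := mem_product.1 (hA he)
    refine mem_product.2 ⟨hr, Fintype.mem_piFinset.2 fun i => ?_⟩
    have hx' := mem_box.1 hx
    by_cases hi : i ∈ ({j, l} : Finset (Fin P.L))
    · rw [if_pos hi, mem_singleton]
      change Function.update (Function.update x j 0) l 0 i = 0
      by_cases hl : i = l
      · subst hl
        exact Function.update_self _ _ _
      · rw [Function.update_of_ne hl]
        have hj : i = j := by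
          rw [mem_insert, mem_singleton] at hi
          exact hi.resolve_right hl
        subst hj
        exact Function.update_self _ _ _
    · rw [if_neg hi]
      rw [mem_insert, mem_singleton, not_or] at hi
      change Function.update (Function.update x j 0) l 0 i ∈ ZB P.n
      rw [Function.update_of_ne hi.2, Function.update_of_ne hi.1]
      exact hx' i
  · rintro b -
    rcases (A.filter (fun e : Ed P =>
      (e.1, Function.update (Function.update e.2 j 0) l 0) = b)).eq_empty_or_nonempty
      with h0 | ⟨⟨r, x⟩, h0⟩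
    · rw [h0, card_empty]
      exact Nat.zero_le _
    · obtain ⟨hrx, hb⟩ := mem_filter.1 h0
      obtain ⟨hr, hx⟩ := mem_product.1 (hA hrx)
      have key : ∀ e : Ed P, e ∈ A.filter (fun e : Ed P =>
          (e.1, Function.update (Function.update e.2 j 0) l 0) = b) →
          e = (r, Function.update (Function.update x j (e.2 j)) l (e.2 l)) := by
        rintro ⟨r', x'⟩ he
        obtain ⟨-, hb'⟩ := mem_filter.1 he
        rw [← hb] at hb'
        have e1 : r' = r := congrArg Prod.fst hb'
        have e2 : Function.update (Function.update x' j 0) l 0 =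
          Function.update (Function.update x j 0) l 0 := congrArg Prod.snd hb'
        refine Prod.ext e1 (funext fun i => ?_)
        change x' i = Function.update (Function.update x j (x' j)) l (x' l) i
        by_cases hl : i = l
        · subst hl
          rw [Function.update_self]
        · rw [Function.update_of_ne hl]
          by_cases hi : i = j
          · subst hi
            rw [Function.update_self]
          · have e3 := congrFun e2 i
            rw [Function.update_of_ne hl, Function.update_of_ne hi, Function.update_of_ne hl,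
              Function.update_of_ne hi] at e3
            rw [Function.update_of_ne hi, e3]
      refine le_trans ?_ (hK r hr x hx)
      refine card_le_card_of_injOn (fun e => (e.2 j, e.2 l)) ?_ ?_
      · intro e he
        have he' : e ∈ A.filter (fun e : Ed P =>
          (e.1, Function.update (Function.update e.2 j 0) l 0) = b) := he
        have heA := (mem_filter.1 he').1
        have hbx := mem_box.1 (mem_product.1 (hA heA)).2
        refine mem_coe.2 (mem_filter.2 ⟨mem_product.2 ⟨hbx j, hbx l⟩, ?_⟩)
        change (r, Function.update (Function.update x j (e.2 j)) l (e.2 l)) ∈ A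
        rw [← key e he']
        exact heA
      · intro e he e' he' hee
        have h1 := key e he
        have h2 := key e' he'
        have h3 : e.2 j = e'.2 j := congrArg Prod.fst hee
        have h4 : e.2 l = e'.2 l := congrArg Prod.snd hee
        rw [h1, h2, ← h3, ← h4]

end Pool.Agent.PGo.M
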