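import Pool.Agent.PGo.M.CoA

/-!
# PGo-M-CoB: coincidences of differences (fixed cycle)

PLAN. For each pair `i ≠ i'` (at most `4 L^2`) there is a place `u` such that, the other labels being
given, `df i = df i'` leaves at most 2 values of `x u`; `cntx` (CoA) with `K = 2`:
* `(true, j), (true, l)`, `j ≠ l`: `u = j`: `|x j - a| = |x l - a'|`;
* `(true, j), (false, l)` (labels of `l`, `nxt l`): `u` = one of `l, nxt l` different from `j`:
  `|x u - x u'| = |x j - a|` where `u' ` is the other one (possibly `u' = j`, given);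
* `(false, j), (false, l)`, `j ≠ l`: there is a vertex `u` of the first pair `{j, nxt j}` not in the second
  pair `{l, nxt l}` (`u = j` unless `j = nxt l`, then `u = nxt j`; use `L ≥ 3`: `nxt_ne`, `nxt_ne_prv`,
  `prv_nxt`): `|x u - x u'| = |x l - x (nxt l)|`.
`two_sol` (PairA).
-/
set_option autoImplicit false

noncomputable section

namespace Pool.Agent.PGo.M

open Finset Pool.Agent.PGr Pool.Agent.PGo
open scoped Classical

variable {P : Par}

private theorem coB_un {ι α : Type} [Fintype ι] (s : Finset α) (A : ι → Finset α) (C : ℝ)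
    (h : ∀ e ∈ s, ∃ i, e ∈ A i) (hC : ∀ i, ((A i).card : ℝ) ≤ C) :
    (s.card : ℝ) ≤ Fintype.card ι * C := by
  have h1 : s.card ≤ (univ.biUnion A).card := card_le_card fun e he => by
    obtain ⟨i, hi⟩ := h e he
    exact mem_biUnion.2 ⟨i, mem_univ _, hi⟩
  have h2 : (univ.biUnion A).card ≤ ∑ i, (A i).card := card_biUnion_le
  calc (s.card : ℝ) ≤ ((∑ i, (A i).card : ℕ) : ℝ) := by exact_mod_cast h1.trans h2
    _ = ∑ i, ((A i).card : ℝ) := by push_cast; rfl
    _ ≤ ∑ i : ι, C := sum_le_sum fun i _ => hC i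
    _ = _ := by rw [sum_const, card_univ, nsmul_eq_mul]

/-- the coincidence of `i` and `i'` leaves two values at the place `u` -/
private def CoG (P : Par) (r : ℕ) (i i' : Bool × Fin P.L) (u : Fin P.L) : Prop :=
  ∀ x : Fin P.L → ℤ, ∃ a d : ℤ, ∀ y : ℤ,
    P.df r (Function.update x u y) i = P.df r (Function.update x u y) i' → |y - a| = d

private theorem coG_symm {r : ℕ} {i i' : Bool × Fin P.L} {u : Fin P.L} (h : CoG P r i i' u) :
    CoG P r i' i u := by
  intro x
  obtain ⟨a, d, h1⟩ := h x
  exact ⟨a, d, fun y hy => h1 y hy.symm⟩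

private theorem df_t (r : ℕ) (x : Fin P.L → ℤ) (j : Fin P.L) :
    P.df r x (true, j) = |x j - anc P.n (P.vx r j)| := rfl

private theorem df_f (r : ℕ) (x : Fin P.L → ℤ) (j : Fin P.L) :
    P.df r x (false, j) = |x j - x (nxt j)| := rfl

private theorem coG_tt (r : ℕ) {j l : Fin P.L} (hjl : j ≠ l) :
    CoG P r (true, j) (true, l) j := by
  intro x
  refine ⟨anc P.n (P.vx r j), |x l - anc P.n (P.vx r l)|, fun y hy => ?_⟩
  rw [df_t, df_t, Function.update_self, Function.update_of_ne hjl.symm] at hy
  exact hy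

private theorem coG_tf (h : P.Ok) (r : ℕ) (j l : Fin P.L) :
    ∃ u, CoG P r (true, j) (false, l) u := by
  by_cases hjl : l = j
  · subst hjl
    refine ⟨nxt l, fun x => ⟨x l, |x l - anc P.n (P.vx r l)|, fun y hy => ?_⟩⟩
    rw [df_t, df_f, Function.update_self, Function.update_of_ne (nxt_ne h l).symm] at hy
    rw [abs_sub_comm]
    exact hy.symm
  · refine ⟨l, fun x => ⟨x (nxt l), |x j - anc P.n (P.vx r j)|, fun y hy => ?_⟩⟩
    rw [df_t, df_f, Function.update_self, Function.update_of_ne (nxt_ne h l),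
      Function.update_of_ne (Ne.symm hjl)] at hy
    exact hy.symm

private theorem coG_ff (h : P.Ok) (r : ℕ) {j l : Fin P.L} (hjl : j ≠ l) :
    ∃ u, CoG P r (false, j) (false, l) u := by
  by_cases hj : nxt l = j
  · have h1 : nxt j ≠ l := by
      intro h2
      apply nxt_ne_prv h j
      rw [h2, ← hj, prv_nxt h]
    refine ⟨nxt j, fun x => ⟨x j, |x l - x j|, fun y hy => ?_⟩⟩
    rw [df_f, df_f, Function.update_self, Function.update_of_ne (nxt_ne h j).symm,
      Function.update_of_ne (Ne.symm h1), hj, Function.update_of_ne (nxt_ne h j).symm] at hy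
    rw [abs_sub_comm]
    exact hy
  · refine ⟨j, fun x => ⟨x (nxt j), |x l - x (nxt l)|, fun y hy => ?_⟩⟩
    rw [df_f, df_f, Function.update_self, Function.update_of_ne (nxt_ne h j),
      Function.update_of_ne (Ne.symm hjl), Function.update_of_ne hj] at hy
    exact hy

private theorem coG_ex (h : P.Ok) (r : ℕ) {i i' : Bool × Fin P.L} (hne : i ≠ i') :
    ∃ u, CoG P r i i' u := by
  obtain ⟨b, j⟩ := i
  obtain ⟨c, l⟩ := i'
  cases b with
  | true =>
    cases c with
    | true => exact ⟨j, coG_tt r fun e => hne (by rw [e])⟩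
    | false => exact coG_tf h r j l
  | false =>
    cases c with
    | true =>
      obtain ⟨u, hu⟩ := coG_tf h r l j
      exact ⟨u, coG_symm hu⟩
    | false => exact coG_ff h r fun e => hne (by rw [e])

theorem co2_le (h : P.Ok) (r : ℕ) :
    ((P.box.filter (fun x => ∃ i i', i ≠ i' ∧ P.df r x i = P.df r x i')).card : ℝ) ≤
      8 * kk P * (P.n : ℝ) ^ (P.L - 1) := by
  have key := coB_un (ι := (Bool × Fin P.L) × (Bool × Fin P.L))
    (P.box.filter (fun x => ∃ i i', i ≠ i' ∧ P.df r x i = P.df r x i'))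
    (fun t => P.box.filter (fun x => t.1 ≠ t.2 ∧ P.df r x t.1 = P.df r x t.2))
    (2 * 3 ^ P.L * (P.n : ℝ) ^ (P.L - 1)) (fun x hx => by
      obtain ⟨h1, i, i', h2, h3⟩ := mem_filter.1 hx
      exact ⟨(i, i'), mem_filter.2 ⟨h1, h2, h3⟩⟩) (fun t => by
      obtain ⟨i, i'⟩ := t
      by_cases hne : i = i'
      · have h2 : P.box.filter (fun x => i ≠ i' ∧ P.df r x i = P.df r x i') = ∅ :=
          filter_eq_empty_iff.2 fun x _ hx => hx.1 hne
        show (((P.box.filter (fun x => i ≠ i' ∧ P.df r x i = P.df r x i')).card : ℕ) : ℝ) ≤ _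
        rw [h2, card_empty, Nat.cast_zero]
        positivity
      · obtain ⟨u, hu⟩ := coG_ex h r hne
        have h1 := cntx (P := P) (P.box.filter (fun x => i ≠ i' ∧ P.df r x i = P.df r x i'))
          (filter_subset _ _) u 2 (by
            intro x _
            obtain ⟨a, d, had⟩ := hu x
            have h2 : (ZB P.n).filter (fun y => Function.update x u y ∈
                P.box.filter (fun x => i ≠ i' ∧ P.df r x i = P.df r x i')) ⊆
                (ZB P.n).filter (fun y => |y - a| = d) := by
              intro y hy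
              obtain ⟨hy1, hy2⟩ := mem_filter.1 hy
              exact mem_filter.2 ⟨hy1, had y (mem_filter.1 hy2).2.2⟩
            exact (card_le_card h2).trans (two_sol _ _ _))
        exact_mod_cast h1)
  refine key.trans (le_of_eq ?_)
  rw [Fintype.card_prod, Fintype.card_prod, Fintype.card_fin, Fintype.card_bool]
  unfold kk
  push_cast
  ring

end Pool.Agent.PGo.M
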