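import Pool.Agent.PGo.M.CoA

/-!
# PGo-M-CoC: the difference created by a switch is already present (fixed cycle)

PLAN. For each `t, j` and `i ≠ (t, j)` (at most `2 L * 2 L` choices) there is a place `u` among the three
different places `j, nxt j, prv j` such that the difference `df i` does not involve `x u`
(a difference involves one or two places). The new difference is
`t = true`: `|x (nxt j) + x (prv j) - x j - a|`, `t = false`: `|a + x (prv j) - x j - x (nxt j)|`
(`sw_self`, `df_true`, `df_false`, `sw_ne` for `nxt j ≠ j`), in which all three labels have the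
coefficient `1` or `-1`. So, the other labels being given, `new difference = df i` leaves at most 2
values of `x u`: `cntx` (CoA) with `K = 2`, `two_sol`.
-/
set_option autoImplicit false

noncomputable section

namespace Pool.Agent.PGo.M

open Finset Pool.Agent.PGr Pool.Agent.PGo
open scoped Classical

variable {P : Par}

private theorem coc_place (h : P.Ok) (j l : Fin P.L) :
    ∃ u : Fin P.L, (u = j ∨ u = nxt j ∨ u = prv j) ∧ u ≠ l ∧ u ≠ nxt l := by
  have h1 := nxt_ne h j
  have h2 := prv_ne h j
  have h3 := nxt_ne_prv h j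
  by_cases a1 : j ≠ l ∧ j ≠ nxt l
  · exact ⟨j, Or.inl rfl, a1.1, a1.2⟩
  · by_cases a2 : nxt j ≠ l ∧ nxt j ≠ nxt l
    · exact ⟨nxt j, Or.inr (Or.inl rfl), a2.1, a2.2⟩
    · by_cases a3 : prv j ≠ l ∧ prv j ≠ nxt l
      · exact ⟨prv j, Or.inr (Or.inr rfl), a3.1, a3.2⟩
      · exfalso
        rw [not_and_or, not_ne_iff, not_ne_iff] at a1 a2 a3
        rcases a1 with a1 | a1
        · rcases a2 with a2 | a2
          · exact h1 (a2.trans a1.symm)
          · rcases a3 with a3 | a3
            · exact h2 (a3.trans a1.symm)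
            · exact h3 (a2.trans a3.symm)
        · rcases a2 with a2 | a2
          · rcases a3 with a3 | a3
            · exact h3 (a2.trans a3.symm)
            · exact h2 (a3.trans a1.symm)
          · exact h1 (a2.trans a1.symm)

private theorem coc_new (h : P.Ok) (t : Bool) (r : ℕ) (j u : Fin P.L) (x : Fin P.L → ℤ)
    (hu : u = j ∨ u = nxt j ∨ u = prv j) :
    ∃ c : ℤ, ∀ y : ℤ, P.df r (sw P t r j (Function.update x u y)) (t, j) = |y - c| := by
  have h1 := nxt_ne h j
  have h2 := prv_ne h j
  have h3 := nxt_ne_prv h j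
  cases t with
  | true =>
    rcases hu with rfl | rfl | rfl
    · refine ⟨x (nxt u) + x (prv u) - anc P.n (P.vx r u), fun y => ?_⟩
      rw [Par.df_true, sw_self, if_pos rfl, Function.update_self, Function.update_of_ne h1,
        Function.update_of_ne h2, ← abs_neg]
      congr 1
      ring
    · refine ⟨x j + anc P.n (P.vx r j) - x (prv j), fun y => ?_⟩
      rw [Par.df_true, sw_self, if_pos rfl, Function.update_self, Function.update_of_ne h3.symm,
        Function.update_of_ne h1.symm]
      congr 1
      ring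
    · refine ⟨x j + anc P.n (P.vx r j) - x (nxt j), fun y => ?_⟩
      rw [Par.df_true, sw_self, if_pos rfl, Function.update_self, Function.update_of_ne h3,
        Function.update_of_ne h2.symm]
      congr 1
      ring
  | false =>
    rcases hu with rfl | rfl | rfl
    · refine ⟨anc P.n (P.vx r u) + x (prv u) - x (nxt u), fun y => ?_⟩
      rw [Par.df_false, sw_self, sw_ne _ h1, if_neg (by simp), Function.update_self,
        Function.update_of_ne h1, Function.update_of_ne h2, ← abs_neg]
      congr 1
      ring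
    · refine ⟨anc P.n (P.vx r j) + x (prv j) - x j, fun y => ?_⟩
      rw [Par.df_false, sw_self, sw_ne _ h1, if_neg (by simp), Function.update_self,
        Function.update_of_ne h3.symm, Function.update_of_ne h1.symm, ← abs_neg]
      congr 1
      ring
    · refine ⟨x j + x (nxt j) - anc P.n (P.vx r j), fun y => ?_⟩
      rw [Par.df_false, sw_self, sw_ne _ h1, if_neg (by simp), Function.update_self,
        Function.update_of_ne h3, Function.update_of_ne h2.symm]
      congr 1
      ring

private theorem coc_old (r : ℕ) (u l : Fin P.L) (b : Bool) (x : Fin P.L → ℤ) (y : ℤ)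
    (h1 : u ≠ l) (h2 : u ≠ nxt l) :
    P.df r (Function.update x u y) (b, l) = P.df r x (b, l) := by
  cases b with
  | true => rw [Par.df_true, Par.df_true, Function.update_of_ne h1.symm]
  | false => rw [Par.df_false, Par.df_false, Function.update_of_ne h1.symm,
      Function.update_of_ne h2.symm]

private theorem coc_one (h : P.Ok) (r : ℕ) (t : Bool) (j : Fin P.L) (i : Bool × Fin P.L) :
    ((P.box.filter (fun x => P.df r (sw P t r j x) (t, j) = P.df r x i)).card : ℝ) ≤
      2 * 3 ^ P.L * (P.n : ℝ) ^ (P.L - 1) := by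
  obtain ⟨b, l⟩ := i
  obtain ⟨u, hu, h1, h2⟩ := coc_place h j l
  have h3 := cntx (P.box.filter (fun x => P.df r (sw P t r j x) (t, j) = P.df r x (b, l)))
    (Finset.filter_subset _ _) u 2 (by
    intro x _
    obtain ⟨c, hc⟩ := coc_new h t r j u x hu
    have hsub : (ZB P.n).filter (fun y => Function.update x u y ∈
        P.box.filter (fun x => P.df r (sw P t r j x) (t, j) = P.df r x (b, l))) ⊆
        (ZB P.n).filter (fun y => |y - c| = P.df r x (b, l)) := by
      intro y hy
      obtain ⟨hy1, hy2⟩ := mem_filter.1 hy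
      have hy3 := (mem_filter.1 hy2).2
      rw [hc, coc_old r u l b x y h1 h2] at hy3
      exact mem_filter.2 ⟨hy1, hy3⟩
    exact (card_le_card hsub).trans (two_sol _ _ _))
  exact_mod_cast h3

theorem co4_le (h : P.Ok) (r : ℕ) :
    ((P.box.filter (fun x => ∃ t j i, i ≠ (t, j) ∧
      P.df r (sw P t r j x) (t, j) = P.df r x i)).card : ℝ) ≤
      8 * kk P * (P.n : ℝ) ^ (P.L - 1) := by
  have h1 : P.box.filter (fun x => ∃ t j i, i ≠ (t, j) ∧
      P.df r (sw P t r j x) (t, j) = P.df r x i) ⊆
      (univ : Finset ((Bool × Fin P.L) × (Bool × Fin P.L))).biUnion (fun q =>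
        P.box.filter (fun x => P.df r (sw P q.1.1 r q.1.2 x) (q.1.1, q.1.2) = P.df r x q.2)) := by
    intro x hx
    obtain ⟨hx1, t, j, i, _, hi⟩ := mem_filter.1 hx
    exact mem_biUnion.2 ⟨((t, j), i), mem_univ _, mem_filter.2 ⟨hx1, hi⟩⟩
  have h2 := (card_le_card h1).trans card_biUnion_le
  have h3 : (((∑ q : (Bool × Fin P.L) × (Bool × Fin P.L),
      (P.box.filter (fun x => P.df r (sw P q.1.1 r q.1.2 x) (q.1.1, q.1.2) =
        P.df r x q.2)).card : ℕ)) : ℝ) ≤
      ∑ q : (Bool × Fin P.L) × (Bool × Fin P.L), 2 * 3 ^ P.L * (P.n : ℝ) ^ (P.L - 1) := by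
    rw [Nat.cast_sum]
    exact Finset.sum_le_sum fun q _ => coc_one h r q.1.1 q.1.2 q.2
  have h4 : ((P.box.filter (fun x => ∃ t j i, i ≠ (t, j) ∧
      P.df r (sw P t r j x) (t, j) = P.df r x i)).card : ℝ) ≤
      ((∑ q : (Bool × Fin P.L) × (Bool × Fin P.L),
      (P.box.filter (fun x => P.df r (sw P q.1.1 r q.1.2 x) (q.1.1, q.1.2) =
        P.df r x q.2)).card : ℕ) : ℝ) := by exact_mod_cast h2
  refine h4.trans (h3.trans (le_of_eq ?_))
  rw [sum_const, card_univ, nsmul_eq_mul, Fintype.card_prod, Fintype.card_prod, Fintype.card_bool,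
    Fintype.card_fin]
  unfold kk
  push_cast
  ring

end Pool.Agent.PGo.M
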