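import Pool.Agent.PGo.M.PairA

/-!
# PGo-M-PairB: pairs (label, difference)

PLAN. `thr2 P (label z) (difference d) ⊆ ⋃_{j, i} {e ∈ EE | e.2 j = z, df i = d}` (`2 L^2` sets), each
of at most `2 * 3^L n^(L-1)` elements:
* `i = (true, l)`, `l ≠ j`: `cnt2` with coordinates `j, l`, `K = 2` (`R = range g`, `|R| ≤ n`);
* `i = (true, j)`: `|z - anc (vx r j)| = d` leaves at most 2 values of `r` (`anc_vx_inj`):
  `card_le_mul_card_image` for `Prod.snd` with `K = 2`; the image is in `{x ∈ box | x j = z}`, which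
  has at most `3^L n^(L-1)` elements (`cnt1` with `R = {0}`, `K = 1`);
* `i = (false, l)` (labels `x l`, `x (nxt l)`): one of `l, nxt l` is different from `j`, call it `u`
  (`nxt_ne`); `cnt2` with the coordinates `j, u`: `x j = z` and `x u` has 2 values given the other labels.
-/
set_option autoImplicit false

noncomputable section

namespace Pool.Agent.PGo.M

open Finset Pool.Agent.PGr Pool.Agent.PGo
open scoped Classical

variable {P : Par}

private theorem pb_pow (h : P.Ok) :
    (P.g : ℝ) * (P.n : ℝ) ^ (P.L - 2) ≤ (P.n : ℝ) ^ (P.L - 1) := by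
  have h3 := h.adm.three
  have e : P.L - 1 = (P.L - 2) + 1 := by omega
  have hg : (P.g : ℝ) ≤ P.n := by exact_mod_cast h.g_le_n
  rw [e, pow_succ, mul_comm]
  exact mul_le_mul_of_nonneg_left hg (by positivity)

private theorem pb_two (h : P.Ok) {j u : Fin P.L} (hju : j ≠ u) (z d : ℤ) (Q : Ed P → Prop)
    [DecidablePred Q]
    (hQ : ∀ (r : ℕ) (x : Fin P.L → ℤ), ∃ c : ℤ, ∀ y : ℤ,
      Q (r, Function.update (Function.update x j z) u y) → |y - c| = d) :
    (((EE P).filter (fun e => e.2 j = z ∧ Q e)).card : ℝ) ≤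
      2 * 3 ^ P.L * (P.n : ℝ) ^ (P.L - 1) := by
  have hA : (EE P).filter (fun e => e.2 j = z ∧ Q e) ⊆ range P.g ×ˢ P.box :=
    Finset.filter_subset _ _
  have h1 := cnt2 (range P.g) _ hA hju 2 (by
    intro r hr x hx
    obtain ⟨c, hc⟩ := hQ r x
    have hsub : ((ZB P.n) ×ˢ (ZB P.n)).filter (fun y =>
        (r, Function.update (Function.update x j y.1) u y.2) ∈
          (EE P).filter (fun e => e.2 j = z ∧ Q e)) ⊆
        ({z} : Finset ℤ) ×ˢ ((ZB P.n).filter (fun y => |y - c| = d)) := by
      intro y hy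
      rw [mem_filter, mem_product, mem_filter] at hy
      obtain ⟨⟨hy1, hy2⟩, _, hz, hq⟩ := hy
      have hz' : Function.update (Function.update x j y.1) u y.2 j = z := hz
      rw [Function.update_of_ne hju, Function.update_self] at hz'
      rw [hz'] at hq
      rw [mem_product, mem_singleton, mem_filter]
      exact ⟨hz', hy2, hc _ hq⟩
    refine (Finset.card_le_card hsub).trans ?_
    rw [card_product, card_singleton, one_mul]
    exact two_sol _ _ _)
  rw [card_range] at h1
  have h2 := pb_pow h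
  refine h1.trans ?_
  have e : ((2 : ℕ) : ℝ) * P.g * 3 ^ P.L * (P.n : ℝ) ^ (P.L - 2) =
      2 * 3 ^ P.L * ((P.g : ℝ) * (P.n : ℝ) ^ (P.L - 2)) := by
    push_cast
    ring
  rw [e]
  exact mul_le_mul_of_nonneg_left h2 (by positivity)

private theorem pb_box (j : Fin P.L) (z : ℤ) :
    ((P.box.filter (fun x => x j = z)).card : ℝ) ≤ 3 ^ P.L * (P.n : ℝ) ^ (P.L - 1) := by
  have hA : ({0} : Finset ℕ) ×ˢ (P.box.filter (fun x => x j = z)) ⊆ ({0} : Finset ℕ) ×ˢ P.box :=
    Finset.product_subset_product_right (Finset.filter_subset _ _)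
  have h1 := cnt1 (P := P) ({0} : Finset ℕ) _ hA j 1 (by
    intro r hr x hx
    have hsub : (ZB P.n).filter (fun y => (r, Function.update x j y) ∈
        ({0} : Finset ℕ) ×ˢ (P.box.filter (fun x => x j = z))) ⊆ {z} := by
      intro y hy
      rw [mem_filter, mem_product, mem_filter] at hy
      have hz : Function.update x j y j = z := hy.2.2.2
      rw [Function.update_self] at hz
      rw [mem_singleton]
      exact hz
    exact (Finset.card_le_card hsub).trans (by rw [card_singleton]))
  rw [card_product, card_singleton, one_mul] at h1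
  refine h1.trans (le_of_eq ?_)
  push_cast
  ring

private theorem pb_one (h : P.Ok) (j : Fin P.L) (z d : ℤ) :
    (((EE P).filter (fun e => e.2 j = z ∧ P.df e.1 e.2 (true, j) = d)).card : ℝ) ≤
      2 * 3 ^ P.L * (P.n : ℝ) ^ (P.L - 1) := by
  obtain ⟨A, hA⟩ : ∃ A : Finset (Ed P),
    A = (EE P).filter (fun e => e.2 j = z ∧ P.df e.1 e.2 (true, j) = d) := ⟨_, rfl⟩
  have hm : ∀ e ∈ A, e.1 < P.g ∧ e.2 ∈ P.box ∧ e.2 j = z ∧ |z - anc P.n (P.vx e.1 j)| = d := by
    intro e he
    rw [hA, mem_filter, mem_EE] at he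
    obtain ⟨⟨h1, h2⟩, h3, h4⟩ := he
    refine ⟨h1, h2, h3, ?_⟩
    unfold Par.df at h4
    rw [if_pos rfl] at h4
    rw [← h3]
    exact h4
  have h1 : A.card ≤ 2 * (A.image Prod.snd).card := by
    refine Finset.card_le_mul_card_image A 2 fun x hx => ?_
    have h2 : (A.filter (fun e => e.2 = x)).card ≤ ({z - d, z + d} : Finset ℤ).card := by
      refine Finset.card_le_card_of_injOn (fun e => anc P.n (P.vx e.1 j)) ?_ ?_
      · intro e he
        have he' := Finset.mem_filter.1 (Finset.mem_coe.1 he)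
        have h3 := (hm e he'.1).2.2.2
        rw [Finset.mem_coe, mem_insert, mem_singleton]
        show anc P.n (P.vx e.1 j) = z - d ∨ anc P.n (P.vx e.1 j) = z + d
        rcases abs_cases (z - anc P.n (P.vx e.1 j)) with h4 | h4
        · left
          linarith [h4.1]
        · right
          linarith [h4.1]
      · intro e he e' he' hee
        have h3 := Finset.mem_filter.1 (Finset.mem_coe.1 he)
        have h3' := Finset.mem_filter.1 (Finset.mem_coe.1 he')
        have h4 : e.1 = e'.1 := anc_vx_inj h (hm e h3.1).1 (hm e' h3'.1).1 hee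
        exact Prod.ext h4 (h3.2.trans h3'.2.symm)
    exact h2.trans Finset.card_le_two
  have h2 : A.image Prod.snd ⊆ P.box.filter (fun x => x j = z) := by
    intro x hx
    rw [mem_image] at hx
    obtain ⟨e, he, rfl⟩ := hx
    rw [mem_filter]
    exact ⟨(hm e he).2.1, (hm e he).2.2.1⟩
  have h3 := pb_box (P := P) j z
  rw [← hA]
  have h4 : (A.card : ℝ) ≤ 2 * ((P.box.filter (fun x => x j = z)).card : ℝ) := by
    have h5 : A.card ≤ 2 * (P.box.filter (fun x => x j = z)).card :=
      h1.trans (Nat.mul_le_mul_left 2 (Finset.card_le_card h2))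
    exact_mod_cast h5
  refine h4.trans ?_
  rw [mul_assoc]
  exact mul_le_mul_of_nonneg_left h3 (by norm_num)

private theorem pb_all (h : P.Ok) (j : Fin P.L) (i : Bool × Fin P.L) (z d : ℤ) :
    (((EE P).filter (fun e => e.2 j = z ∧ P.df e.1 e.2 i = d)).card : ℝ) ≤
      2 * 3 ^ P.L * (P.n : ℝ) ^ (P.L - 1) := by
  obtain ⟨b, l⟩ := i
  rcases b with _ | _
  · by_cases hl : j = l
    · -- the other label is `nxt l`
      have hn : j ≠ nxt l := by
        rw [hl]
        exact (nxt_ne h l).symm
      refine pb_two h hn z d (fun e => P.df e.1 e.2 (false, l) = d) fun r x => ⟨z, fun y hy => ?_⟩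
      have hy' : |Function.update (Function.update x j z) (nxt l) y l -
          Function.update (Function.update x j z) (nxt l) y (nxt l)| = d := hy
      rw [Function.update_self, Function.update_of_ne (nxt_ne h l).symm, hl,
        Function.update_self] at hy'
      rw [abs_sub_comm]
      exact hy'
    · refine pb_two h hl z d (fun e => P.df e.1 e.2 (false, l) = d) fun r x =>
        ⟨Function.update x j z (nxt l), fun y hy => ?_⟩
      have hy' : |Function.update (Function.update x j z) l y l -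
          Function.update (Function.update x j z) l y (nxt l)| = d := hy
      rw [Function.update_self, Function.update_of_ne (nxt_ne h l)] at hy'
      exact hy'
  · by_cases hl : j = l
    · rw [← hl]
      exact pb_one h j z d
    · refine pb_two h hl z d (fun e => P.df e.1 e.2 (true, l) = d) fun r x =>
        ⟨anc P.n (P.vx r l), fun y hy => ?_⟩
      have hy' : |Function.update (Function.update x j z) l y l - anc P.n (P.vx r l)| = d := hy
      rw [Function.update_self] at hy'
      exact hy'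

theorem pair_ld (h : P.Ok) (z d : ℤ) :
    ((thr2 P (Sum.inr (Sum.inl z)) (Sum.inr (Sum.inr d))).card : ℝ) ≤
      16 * kk P * (P.n : ℝ) ^ (P.L - 1) := by
  have hsub : thr2 P (Sum.inr (Sum.inl z)) (Sum.inr (Sum.inr d)) ⊆
      (univ : Finset (Fin P.L × (Bool × Fin P.L))).biUnion
        (fun a => (EE P).filter (fun e => e.2 a.1 = z ∧ P.df e.1 e.2 a.2 = d)) := by
    intro e he
    rw [mem_thr2, mem_Sv_lab, mem_Sv_dif] at he
    obtain ⟨h1, ⟨j, hj⟩, ⟨i, hi⟩⟩ := he
    rw [mem_biUnion]
    refine ⟨(j, i), mem_univ _, ?_⟩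
    rw [mem_filter]
    exact ⟨h1, hj, hi⟩
  have h1 : (thr2 P (Sum.inr (Sum.inl z)) (Sum.inr (Sum.inr d))).card ≤
      ∑ a : Fin P.L × (Bool × Fin P.L),
        ((EE P).filter (fun e => e.2 a.1 = z ∧ P.df e.1 e.2 a.2 = d)).card :=
    (Finset.card_le_card hsub).trans Finset.card_biUnion_le
  have h2 : ((thr2 P (Sum.inr (Sum.inl z)) (Sum.inr (Sum.inr d))).card : ℝ) ≤
      ∑ a : Fin P.L × (Bool × Fin P.L),
        (((EE P).filter (fun e => e.2 a.1 = z ∧ P.df e.1 e.2 a.2 = d)).card : ℝ) := by
    exact_mod_cast h1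
  have h3 : ∑ a : Fin P.L × (Bool × Fin P.L),
      (((EE P).filter (fun e => e.2 a.1 = z ∧ P.df e.1 e.2 a.2 = d)).card : ℝ) ≤
      ∑ _a : Fin P.L × (Bool × Fin P.L), 2 * 3 ^ P.L * (P.n : ℝ) ^ (P.L - 1) :=
    Finset.sum_le_sum fun a _ => pb_all h a.1 a.2 z d
  refine h2.trans (h3.trans ?_)
  rw [Finset.sum_const, Finset.card_univ, Fintype.card_prod, Fintype.card_prod, Fintype.card_fin,
    Fintype.card_bool, nsmul_eq_mul, kk]
  push_cast
  have h4 : (0 : ℝ) ≤ (P.L : ℝ) ^ 2 * 3 ^ P.L * (P.n : ℝ) ^ (P.L - 1) := by positivity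
  nlinarith [h4]

end Pool.Agent.PGo.M
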