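import Pool.Agent.PGo.M.PairA

/-!
# PGo-M-PairC: pairs of differences

PLAN. `thr2 ⊆ ⋃_{i, i'} {e ∈ EE | df i = d, df i' = d'}` (`4 L^2` sets; `i = i'` impossible since
`d ≠ d'`), each of at most `4 * 3^L n^(L-1)` elements by `cnt2`, `K = 4`, `R = range g`:
* `(true, j), (true, l)`, `j ≠ l`: coordinates `j, l`;
* `(true, j), (false, l)`: if `j ∉ {l, nxt l}` coordinates `j, l`; if `j = l`: coordinates `j, nxt j`
  (`x j` has 2 values, then `x (nxt j)` has 2 values given `x j`); if `j = nxt l`: coordinates `j, l`;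
* `(false, j), (false, l)`, `j ≠ l`: if `nxt j ≠ l` : coordinates `j` and ... in all cases there is a
  vertex `u` of the first edge not in the second one, and the second edge `{l, nxt l}` has a vertex `v`
  not in the first one, `u ≠ v`: given the other labels, `x u` has 2 values and `x v` has 2 values
  (if the two edges are disjoint, or share the vertex different from u and v, whose label is given).
  For `j ≠ l`: `u = j` unless `nxt l = j`, in which case `u = nxt j`, `v = l`.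
  If `nxt j = l`: `u = j`, `v = nxt l`. Otherwise (disjoint): `u = j`, `v = l`.
General lemma (recommended): if `B(y1)`-style: a subset of `ZB ×ˢ ZB` contained in
`{(y1, y2) | |y1 - s| = d, |y2 - s'| = d'}` or in `{(y1, y2) | |y1 - s| = d, |y2 - y1| = d'}` has at most 4
elements.
-/
set_option autoImplicit false

noncomputable section

namespace Pool.Agent.PGo.M

open Finset Pool.Agent.PGr Pool.Agent.PGo
open scoped Classical

variable {P : Par}

private theorem four_sol (S : Finset (ℤ × ℤ)) (s c c' : ℤ) (t : ℤ → ℤ)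
    (hS : ∀ y ∈ S, |y.1 - s| = c ∧ |y.2 - t y.1| = c') : S.card ≤ 4 := by
  have hsub : S ⊆ {(s + c, t (s + c) + c'), (s + c, t (s + c) - c'), (s - c, t (s - c) + c'),
      (s - c, t (s - c) - c')} := by
    intro y hy
    obtain ⟨h1, h2⟩ := hS y hy
    rw [mem_insert, mem_insert, mem_insert, mem_singleton]
    have h1' : y.1 = s + c ∨ y.1 = s - c := by
      rcases abs_choice (y.1 - s) with h | h
      · left
        linarith
      · right
        linarith
    have h2' : y.2 = t y.1 + c' ∨ y.2 = t y.1 - c' := by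
      rcases abs_choice (y.2 - t y.1) with h | h
      · left
        linarith
      · right
        linarith
    rcases h1' with h1' | h1' <;> rcases h2' with h2' | h2' <;> rw [h1'] at h2'
    · exact Or.inl (Prod.ext h1' h2')
    · exact Or.inr (Or.inl (Prod.ext h1' h2'))
    · exact Or.inr (Or.inr (Or.inl (Prod.ext h1' h2')))
    · exact Or.inr (Or.inr (Or.inr (Prod.ext h1' h2')))
  exact (card_le_card hsub).trans card_le_four

private theorem pc_u {u v : Fin P.L} (huv : u ≠ v) (x : Fin P.L → ℤ) (y1 y2 : ℤ) :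
    Function.update (Function.update x u y1) v y2 u = y1 := by
  rw [Function.update_of_ne huv, Function.update_self]

private theorem pc_v (u v : Fin P.L) (x : Fin P.L → ℤ) (y1 y2 : ℤ) :
    Function.update (Function.update x u y1) v y2 v = y2 := Function.update_self _ _ _

private theorem pc_w {u v w : Fin P.L} (hu : w ≠ u) (hv : w ≠ v) (x : Fin P.L → ℤ) (y1 y2 : ℤ) :
    Function.update (Function.update x u y1) v y2 w = x w := by
  rw [Function.update_of_ne hv, Function.update_of_ne hu]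

private theorem pc_aux (h : P.Ok) (A : Finset (Ed P)) (hA : A ⊆ EE P) {u v : Fin P.L}
    (huv : u ≠ v) (s : ℕ → (Fin P.L → ℤ) → ℤ) (t : ℕ → (Fin P.L → ℤ) → ℤ → ℤ) (c c' : ℤ)
    (hA2 : ∀ r x y1 y2, (r, Function.update (Function.update x u y1) v y2) ∈ A →
      |y1 - s r x| = c ∧ |y2 - t r x y1| = c') :
    (A.card : ℝ) ≤ 4 * 3 ^ P.L * (P.n : ℝ) ^ (P.L - 1) := by
  have h1 := cnt2 (range P.g) A hA huv 4 (by
    intro r _ x _
    refine four_sol _ (s r x) c c' (t r x) fun y hy => ?_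
    rw [mem_filter] at hy
    exact hA2 r x y.1 y.2 hy.2)
  rw [card_range] at h1
  have hL := h.adm.three
  have e : P.L - 1 = (P.L - 2) + 1 := by omega
  have hg : (P.g : ℝ) ≤ (P.n : ℝ) := by exact_mod_cast h.g_le_n
  refine h1.trans ?_
  rw [e, pow_succ]
  have h3 : (0 : ℝ) ≤ 4 * 3 ^ P.L * (P.n : ℝ) ^ (P.L - 2) := by positivity
  have h4 := mul_le_mul_of_nonneg_left hg h3
  push_cast
  nlinarith [h4]

/-- edges with two prescribed differences -/
private def dd (P : Par) (i i' : Bool × Fin P.L) (d d' : ℤ) : Finset (Ed P) :=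
  (EE P).filter (fun e => P.df e.1 e.2 i = d ∧ P.df e.1 e.2 i' = d')

private theorem dd_swap (i i' : Bool × Fin P.L) (d d' : ℤ) : dd P i i' d d' = dd P i' i d' d := by
  unfold dd
  refine filter_congr fun e _ => ?_
  rw [and_comm]

private theorem dd_sub (i i' : Bool × Fin P.L) (d d' : ℤ) : dd P i i' d d' ⊆ EE P :=
  filter_subset _ _

private theorem mem_dd {i i' : Bool × Fin P.L} {d d' : ℤ} {r : ℕ} {x : Fin P.L → ℤ}
    (h : ((r, x) : Ed P) ∈ dd P i i' d d') : P.df r x i = d ∧ P.df r x i' = d' := by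
  unfold dd at h
  rw [mem_filter] at h
  exact h.2

private theorem dd_tt (h : P.Ok) {j l : Fin P.L} (hjl : j ≠ l) (d d' : ℤ) :
    ((dd P (true, j) (true, l) d d').card : ℝ) ≤ 4 * 3 ^ P.L * (P.n : ℝ) ^ (P.L - 1) := by
  refine pc_aux h _ (dd_sub _ _ _ _) hjl (fun r _ => anc P.n (P.vx r j))
    (fun r _ _ => anc P.n (P.vx r l)) d d' fun r x y1 y2 hm => ?_
  obtain ⟨h1, h2⟩ := mem_dd hm
  rw [Par.df_true, pc_u hjl] at h1
  rw [Par.df_true, pc_v] at h2
  exact ⟨h1, h2⟩

private theorem dd_tf (h : P.Ok) (j l : Fin P.L) (d d' : ℤ) :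
    ((dd P (true, j) (false, l) d d').card : ℝ) ≤ 4 * 3 ^ P.L * (P.n : ℝ) ^ (P.L - 1) := by
  by_cases h1 : j = l
  · subst h1
    refine pc_aux h _ (dd_sub _ _ _ _) (nxt_ne h j).symm (fun r _ => anc P.n (P.vx r j))
      (fun _ _ y => y) d d' fun r x y1 y2 hm => ?_
    obtain ⟨h1, h2⟩ := mem_dd hm
    rw [Par.df_true, pc_u (nxt_ne h j).symm] at h1
    rw [Par.df_false, pc_v, pc_u (nxt_ne h j).symm] at h2
    exact ⟨h1, (abs_sub_comm _ _).trans h2⟩
  · by_cases h2 : j = nxt l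
    · refine pc_aux h _ (dd_sub _ _ _ _) h1 (fun r _ => anc P.n (P.vx r j))
        (fun _ _ y => y) d d' fun r x y1 y2 hm => ?_
      obtain ⟨h3, h4⟩ := mem_dd hm
      rw [Par.df_true, pc_u h1] at h3
      rw [Par.df_false, ← h2, pc_v, pc_u h1] at h4
      exact ⟨h3, h4⟩
    · refine pc_aux h _ (dd_sub _ _ _ _) h1 (fun r _ => anc P.n (P.vx r j))
        (fun _ x _ => x (nxt l)) d d' fun r x y1 y2 hm => ?_
      obtain ⟨h3, h4⟩ := mem_dd hm
      rw [Par.df_true, pc_u h1] at h3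
      rw [Par.df_false, pc_v, pc_w (Ne.symm h2) (nxt_ne h l)] at h4
      exact ⟨h3, h4⟩

private theorem dd_ff1 (h : P.Ok) {j l : Fin P.L} (hn : nxt l = j) (d d' : ℤ) :
    ((dd P (false, j) (false, l) d d').card : ℝ) ≤ 4 * 3 ^ P.L * (P.n : ℝ) ^ (P.L - 1) := by
  have hl : prv j = l := by rw [← hn, prv_nxt h]
  have hu : nxt j ≠ l := by
    rw [← hl]
    exact nxt_ne_prv h j
  have hj1 : j ≠ nxt j := (nxt_ne h j).symm
  have hj2 : j ≠ l := by
    rw [← hn]
    exact nxt_ne h l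
  refine pc_aux h _ (dd_sub _ _ _ _) hu (fun _ x => x j) (fun _ x _ => x j) d d'
    fun r x y1 y2 hm => ?_
  obtain ⟨h3, h4⟩ := mem_dd hm
  rw [Par.df_false, pc_u hu, pc_w hj1 hj2] at h3
  rw [Par.df_false, hn, pc_v, pc_w hj1 hj2] at h4
  exact ⟨(abs_sub_comm _ _).trans h3, h4⟩

private theorem dd_ff (h : P.Ok) {j l : Fin P.L} (hjl : j ≠ l) (d d' : ℤ) :
    ((dd P (false, j) (false, l) d d').card : ℝ) ≤ 4 * 3 ^ P.L * (P.n : ℝ) ^ (P.L - 1) := by
  by_cases h1 : nxt l = j
  · exact dd_ff1 h h1 d d'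
  · by_cases h2 : nxt j = l
    · rw [dd_swap]
      exact dd_ff1 h h2 d' d
    · refine pc_aux h _ (dd_sub _ _ _ _) hjl (fun _ x => x (nxt j)) (fun _ x _ => x (nxt l)) d d'
        fun r x y1 y2 hm => ?_
      obtain ⟨h3, h4⟩ := mem_dd hm
      rw [Par.df_false, pc_u hjl, pc_w (nxt_ne h j) h2] at h3
      rw [Par.df_false, pc_v, pc_w h1 (nxt_ne h l)] at h4
      exact ⟨h3, h4⟩

private theorem dd_le (h : P.Ok) {i i' : Bool × Fin P.L} (hi : i ≠ i') (d d' : ℤ) :
    ((dd P i i' d d').card : ℝ) ≤ 4 * 3 ^ P.L * (P.n : ℝ) ^ (P.L - 1) := by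
  obtain ⟨b, j⟩ := i
  obtain ⟨b', l⟩ := i'
  cases b <;> cases b'
  · exact dd_ff h (fun e => hi (by rw [e])) d d'
  · rw [dd_swap]
    exact dd_tf h l j d' d
  · exact dd_tf h j l d d'
  · exact dd_tt h (fun e => hi (by rw [e])) d d'

theorem pair_dd (h : P.Ok) {d d' : ℤ} (hne : d ≠ d') :
    ((thr2 P (Sum.inr (Sum.inr d)) (Sum.inr (Sum.inr d'))).card : ℝ) ≤
      16 * kk P * (P.n : ℝ) ^ (P.L - 1) := by
  have hsub : thr2 P (Sum.inr (Sum.inr d)) (Sum.inr (Sum.inr d')) ⊆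
      ((univ : Finset ((Bool × Fin P.L) × (Bool × Fin P.L))).filter
        (fun q => q.1 ≠ q.2)).biUnion (fun q => dd P q.1 q.2 d d') := by
    intro e he
    rw [mem_thr2, mem_Sv_dif, mem_Sv_dif] at he
    obtain ⟨h1, ⟨i, h2⟩, ⟨i', h3⟩⟩ := he
    rw [mem_biUnion]
    refine ⟨(i, i'), mem_filter.2 ⟨mem_univ _, fun hii => hne ?_⟩, ?_⟩
    · rw [← h2, ← h3]
      have : i = i' := hii
      rw [this]
    · show e ∈ dd P i i' d d'
      unfold dd
      exact mem_filter.2 ⟨h1, h2, h3⟩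
  have h1 : ((thr2 P (Sum.inr (Sum.inr d)) (Sum.inr (Sum.inr d'))).card : ℝ) ≤
      ∑ q ∈ (univ : Finset ((Bool × Fin P.L) × (Bool × Fin P.L))).filter
        (fun q => q.1 ≠ q.2), ((dd P q.1 q.2 d d').card : ℝ) := by
    exact_mod_cast (card_le_card hsub).trans card_biUnion_le
  have h2 : ∑ q ∈ (univ : Finset ((Bool × Fin P.L) × (Bool × Fin P.L))).filter
        (fun q => q.1 ≠ q.2), ((dd P q.1 q.2 d d').card : ℝ) ≤
      ∑ _q ∈ (univ : Finset ((Bool × Fin P.L) × (Bool × Fin P.L))).filter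
        (fun q => q.1 ≠ q.2), 4 * 3 ^ P.L * (P.n : ℝ) ^ (P.L - 1) :=
    sum_le_sum fun q hq => dd_le h (mem_filter.1 hq).2 d d'
  have h3 : ((((univ : Finset ((Bool × Fin P.L) × (Bool × Fin P.L))).filter
        (fun q => q.1 ≠ q.2)).card : ℕ) : ℝ) ≤ 4 * (P.L : ℝ) ^ 2 := by
    have h4 : ((univ : Finset ((Bool × Fin P.L) × (Bool × Fin P.L))).filter
        (fun q => q.1 ≠ q.2)).card ≤ 4 * P.L ^ 2 := by
      refine (card_le_card (filter_subset _ _)).trans ?_
      rw [card_univ, Fintype.card_prod, Fintype.card_prod, Fintype.card_bool, Fintype.card_fin]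
      apply le_of_eq
      ring
    exact_mod_cast h4
  rw [sum_const, nsmul_eq_mul] at h2
  refine h1.trans (h2.trans ?_)
  have h5 : (0 : ℝ) ≤ 4 * 3 ^ P.L * (P.n : ℝ) ^ (P.L - 1) := by positivity
  refine (mul_le_mul_of_nonneg_right h3 h5).trans (le_of_eq ?_)
  unfold kk
  ring

end Pool.Agent.PGo.M
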