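import Pool.Agent.PGo.M.PairA
import Pool.Agent.PGo.M.PairB
import Pool.Agent.PGo.M.PairC
import Pool.Agent.PGo.M.CoB
import Pool.Agent.PGo.M.CoC

/-!
# PGo-M-Co: assembly: all pair counts, all coincidences
-/
set_option autoImplicit false

noncomputable section

namespace Pool.Agent.PGo.M

open Finset Pool.Agent.PGr Pool.Agent.PGo
open scoped Classical

variable {P : Par}

theorem thr2_comm (u v : Vt) : thr2 P u v = thr2 P v u := by
  ext e
  rw [mem_thr2, mem_thr2]
  tauto

/-- the edges through two different vertices -/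
theorem pair_le (h : P.Ok) {u v : Vt} (huv : u ≠ v) :
    ((thr2 P u v).card : ℝ) ≤ 16 * kk P * (P.n : ℝ) ^ (P.L - 1) := by
  rcases u with r | z | d <;> rcases v with r' | z' | d'
  · have h0 : thr2 P (Sum.inl r) (Sum.inl r') = ∅ := by
      rw [eq_empty_iff_forall_notMem]
      intro e he
      rw [mem_thr2, mem_Sv_cyc, mem_Sv_cyc] at he
      exact huv (by rw [← he.2.1, ← he.2.2])
    rw [h0, card_empty, Nat.cast_zero]
    unfold kk
    positivity
  · exact pair_cl h r z'
  · exact pair_cd h r d'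
  · rw [thr2_comm]
    exact pair_cl h r' z
  · exact pair_ll h (fun he => huv (by rw [he]))
  · exact pair_ld h z d'
  · rw [thr2_comm]
    exact pair_cd h r' d
  · rw [thr2_comm]
    exact pair_ld h z' d
  · exact pair_dd h (fun he => huv (by rw [he]))

/-- the coincidences of a fixed cycle -/
theorem co_le (h : P.Ok) (r : ℕ) :
    ((P.box.filter (fun x => Co P (r, x))).card : ℝ) ≤ 20 * kk P * (P.n : ℝ) ^ (P.L - 1) := by
  have h1 : P.box.filter (fun x => Co P (r, x)) ⊆
      (P.box.filter (fun x => ∃ j l, j ≠ l ∧ x j = x l) ∪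
        P.box.filter (fun x => ∃ i i', i ≠ i' ∧ P.df r x i = P.df r x i')) ∪
      (P.box.filter (fun x => ∃ t j l, j ≠ l ∧ sw P t r j x j = x l) ∪
        P.box.filter (fun x => ∃ t j i, i ≠ (t, j) ∧
          P.df r (sw P t r j x) (t, j) = P.df r x i)) := by
    intro x hx
    rw [mem_filter] at hx
    rw [mem_union, mem_union, mem_union, mem_filter, mem_filter, mem_filter, mem_filter]
    obtain ⟨hb, h1 | h1 | h1 | h1⟩ := hx
    · exact Or.inl (Or.inl ⟨hb, h1⟩)
    · exact Or.inl (Or.inr ⟨hb, h1⟩)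
    · exact Or.inr (Or.inl ⟨hb, h1⟩)
    · exact Or.inr (Or.inr ⟨hb, h1⟩)
  have h2 := (card_le_card h1).trans ((card_union_le _ _).trans
    (Nat.add_le_add (card_union_le _ _) (card_union_le _ _)))
  have h3 : ((P.box.filter (fun x => Co P (r, x))).card : ℝ) ≤
      (((P.box.filter (fun x => ∃ j l, j ≠ l ∧ x j = x l)).card : ℝ) +
        ((P.box.filter (fun x => ∃ i i', i ≠ i' ∧ P.df r x i = P.df r x i')).card : ℝ)) +
      (((P.box.filter (fun x => ∃ t j l, j ≠ l ∧ sw P t r j x j = x l)).card : ℝ) +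
        ((P.box.filter (fun x => ∃ t j i, i ≠ (t, j) ∧
          P.df r (sw P t r j x) (t, j) = P.df r x i)).card : ℝ)) := by
    exact_mod_cast h2
  have a1 := co1_le h
  have a2 := co2_le h r
  have a3 := co3_le h r
  have a4 := co4_le h r
  have hk : 0 ≤ kk P * (P.n : ℝ) ^ (P.L - 1) := by
    unfold kk
    positivity
  linarith

end Pool.Agent.PGo.M
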