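import Pool.Agent.PGo.M.PairA

/-!
# PGo-M-CoA: coincidences of labels (fixed cycle)

PLAN. `cnt1` with `R = {r}`, `A = {r} ×ˢ filter ..` (or `.map`/image of the filter under `x ↦ (r, x)`), for
every choice of the places; `K = 1`: `x j = x l` determines `x j` (the other labels are given);
`sw t r j x j = x l` (`j ≠ l`) says `x (nxt j) + x (prv j) - x j = x l` or
`anc + x (prv j) - x j = x l` and determines `x j` (`nxt j ≠ j`, `prv j ≠ j`, `l ≠ j`).
`L^2` respectively `2 L^2` choices, each at most `3^L n^(L-1)`.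
-/
set_option autoImplicit false

noncomputable section

namespace Pool.Agent.PGo.M

open Finset Pool.Agent.PGr Pool.Agent.PGo
open scoped Classical

variable {P : Par}

/-- `cnt1` for a fixed cycle -/
theorem cntx {P : Par} (A : Finset (Fin P.L → ℤ)) (hA : A ⊆ P.box) (j : Fin P.L) (K : ℕ)
    (hK : ∀ x ∈ P.box, ((ZB P.n).filter (fun y => Function.update x j y ∈ A)).card ≤ K) :
    (A.card : ℝ) ≤ K * 3 ^ P.L * (P.n : ℝ) ^ (P.L - 1) := by
  have h1 := cnt1 {0} (({0} : Finset ℕ) ×ˢ A) (product_subset_product_right hA) j K (by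
    intro r _ x hx
    refine le_trans (card_le_card ?_) (hK x hx)
    intro y hy
    obtain ⟨hy1, hy2⟩ := mem_filter.1 hy
    exact mem_filter.2 ⟨hy1, (mem_product.1 hy2).2⟩)
  rw [card_product, card_singleton, Nat.one_mul, Nat.cast_one, mul_one] at h1
  exact h1

private theorem coA_un {ι α : Type} [Fintype ι] (s : Finset α) (A : ι → Finset α) (C : ℝ)
    (h : ∀ e ∈ s, ∃ i, e ∈ A i) (hC : ∀ i, ((A i).card : ℝ) ≤ C) :
    (s.card : ℝ) ≤ Fintype.card ι * C := by
  have h1 : s.card ≤ (univ.biUnion A).card := card_le_card fun e he => by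
    obtain ⟨i, hi⟩ := h e he
    exact mem_biUnion.2 ⟨i, mem_univ _, hi⟩
  have h2 : (univ.biUnion A).card ≤ ∑ i, (A i).card := card_biUnion_le
  calc (s.card : ℝ) ≤ ((∑ i, (A i).card : ℕ) : ℝ) := by exact_mod_cast h1.trans h2
    _ = ∑ i, ((A i).card : ℝ) := by push_cast; rfl
    _ ≤ ∑ i : ι, C := sum_le_sum fun i _ => hC i
    _ = _ := by rw [sum_const, card_univ, nsmul_eq_mul]

theorem co1_le (h : P.Ok) :
    ((P.box.filter (fun x => ∃ j l, j ≠ l ∧ x j = x l)).card : ℝ) ≤
      kk P * (P.n : ℝ) ^ (P.L - 1) := by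
  have _ := h
  have h1 := coA_un (P.box.filter (fun x => ∃ j l, j ≠ l ∧ x j = x l))
    (fun p : Fin P.L × Fin P.L => P.box.filter (fun x => p.1 ≠ p.2 ∧ x p.1 = x p.2))
    (3 ^ P.L * (P.n : ℝ) ^ (P.L - 1)) (fun x hx => by
      obtain ⟨hx1, j, l, hjl, hx2⟩ := mem_filter.1 hx
      exact ⟨(j, l), mem_filter.2 ⟨hx1, hjl, hx2⟩⟩) (fun p => by
      obtain ⟨j, l⟩ := p
      have h2 := cntx (P.box.filter (fun x => j ≠ l ∧ x j = x l)) (filter_subset _ _) j 1 (by
        intro x _
        have h3 : (ZB P.n).filter (fun y => Function.update x j y ∈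
            P.box.filter (fun x => j ≠ l ∧ x j = x l)) ⊆ {x l} := by
          intro y hy
          obtain ⟨-, hjl, h4⟩ := mem_filter.1 (mem_filter.1 hy).2
          rw [Function.update_self, Function.update_of_ne (Ne.symm hjl)] at h4
          rw [mem_singleton, h4]
        exact (card_le_card h3).trans (card_singleton _).le)
      rw [Nat.cast_one, one_mul] at h2
      exact h2)
  refine h1.trans (le_of_eq ?_)
  rw [Fintype.card_prod, Fintype.card_fin]
  unfold kk
  push_cast
  ring

theorem co3_le (h : P.Ok) (r : ℕ) :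
    ((P.box.filter (fun x => ∃ t j l, j ≠ l ∧ sw P t r j x j = x l)).card : ℝ) ≤
      2 * kk P * (P.n : ℝ) ^ (P.L - 1) := by
  have h1 := coA_un (P.box.filter (fun x => ∃ t j l, j ≠ l ∧ sw P t r j x j = x l))
    (fun p : Bool × Fin P.L × Fin P.L =>
      P.box.filter (fun x => p.2.1 ≠ p.2.2 ∧ sw P p.1 r p.2.1 x p.2.1 = x p.2.2))
    (3 ^ P.L * (P.n : ℝ) ^ (P.L - 1)) (fun x hx => by
      obtain ⟨hx1, t, j, l, hjl, hx2⟩ := mem_filter.1 hx
      exact ⟨(t, j, l), mem_filter.2 ⟨hx1, hjl, hx2⟩⟩) (fun p => by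
      obtain ⟨t, j, l⟩ := p
      have h2 := cntx (P.box.filter (fun x => j ≠ l ∧ sw P t r j x j = x l))
        (filter_subset _ _) j 1 (by
        intro x _
        have h3 : (ZB P.n).filter (fun y => Function.update x j y ∈
            P.box.filter (fun x => j ≠ l ∧ sw P t r j x j = x l)) ⊆
            {(if t then x (nxt j) + x (prv j) else anc P.n (P.vx r j) + x (prv j)) - x l} := by
          intro y hy
          obtain ⟨-, hjl, h4⟩ := mem_filter.1 (mem_filter.1 hy).2
          rw [sw_self, Function.update_self, Function.update_of_ne (Ne.symm hjl),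
            Function.update_of_ne (nxt_ne h j), Function.update_of_ne (prv_ne h j)] at h4
          rw [mem_singleton]
          split_ifs at h4 ⊢ <;> linarith
        exact (card_le_card h3).trans (card_singleton _).le)
      rw [Nat.cast_one, one_mul] at h2
      exact h2)
  refine h1.trans (le_of_eq ?_)
  rw [Fintype.card_prod, Fintype.card_prod, Fintype.card_fin, Fintype.card_bool]
  unfold kk
  push_cast
  ring

end Pool.Agent.PGo.M
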