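import Pool.Agent.PGo.Vx

/-!
# PGo, Theorem M: definitions

The hypergraph: an edge is a labelled cycle `(r, x)`, `r < g`; its vertices are the cycle, the `L`
labels and the `2L` differences.
-/

noncomputable section

namespace Pool.Agent.PGo.M

open Finset Pool.Agent.PGr Pool.Agent.PGo
open scoped Classical

/-- pairs (cycle, labels) -/
abbrev Ed (P : Par) := ℕ × (Fin P.L → ℤ)

/-- vertices of the hypergraph: cycles, labels, differences -/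
abbrev Vt := ℕ ⊕ (ℤ ⊕ ℤ)

section

variable (P : Par)

/-- all labelled cycles -/
def EE : Finset (Ed P) := range P.g ×ˢ P.box

theorem mem_EE {P : Par} {e : Ed P} : e ∈ EE P ↔ e.1 < P.g ∧ e.2 ∈ P.box := by
  unfold EE
  rw [mem_product, mem_range]

/-- the vertices of an edge -/
def Sv (e : Ed P) : Finset Vt :=
  insert (Sum.inl e.1) ((univ.image (fun j : Fin P.L => (Sum.inr (Sum.inl (e.2 j)) : Vt))) ∪
    (univ.image (fun i : Bool × Fin P.L => (Sum.inr (Sum.inr (P.df e.1 e.2 i)) : Vt))))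

theorem mem_Sv_cyc {P : Par} {e : Ed P} {r : ℕ} : (Sum.inl r : Vt) ∈ Sv P e ↔ e.1 = r := by
  unfold Sv
  constructor
  · intro h
    rw [mem_insert, mem_union, mem_image, mem_image] at h
    rcases h with h | ⟨_, _, h⟩ | ⟨_, _, h⟩
    · exact (Sum.inl.inj h).symm
    · exact absurd h (by simp)
    · exact absurd h (by simp)
  · intro h
    rw [h]
    exact mem_insert_self _ _

theorem mem_Sv_lab {P : Par} {e : Ed P} {z : ℤ} :
    (Sum.inr (Sum.inl z) : Vt) ∈ Sv P e ↔ ∃ j, e.2 j = z := by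
  unfold Sv
  rw [mem_insert, mem_union, mem_image, mem_image]
  constructor
  · rintro (h | ⟨j, _, h⟩ | ⟨_, _, h⟩)
    · exact absurd h (by simp)
    · exact ⟨j, by simpa using h⟩
    · exact absurd h (by simp)
  · rintro ⟨j, h⟩
    exact Or.inr (Or.inl ⟨j, mem_univ _, by rw [h]⟩)

theorem mem_Sv_dif {P : Par} {e : Ed P} {d : ℤ} :
    (Sum.inr (Sum.inr d) : Vt) ∈ Sv P e ↔ ∃ i, P.df e.1 e.2 i = d := by
  unfold Sv
  rw [mem_insert, mem_union, mem_image, mem_image]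
  constructor
  · rintro (h | ⟨_, _, h⟩ | ⟨i, _, h⟩)
    · exact absurd h (by simp)
    · exact absurd h (by simp)
    · exact ⟨i, by simpa using h⟩
  · rintro ⟨i, h⟩
    exact Or.inr (Or.inr ⟨i, mem_univ _, by rw [h]⟩)

/-- the edges through a vertex -/
def thr (u : Vt) : Finset (Ed P) := (EE P).filter (fun e => u ∈ Sv P e)

/-- the edges through two vertices -/
def thr2 (u v : Vt) : Finset (Ed P) := (EE P).filter (fun e => u ∈ Sv P e ∧ v ∈ Sv P e)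

theorem mem_thr {P : Par} {u : Vt} {e : Ed P} : e ∈ thr P u ↔ e ∈ EE P ∧ u ∈ Sv P e := by
  unfold thr
  rw [mem_filter]

theorem mem_thr2 {P : Par} {u v : Vt} {e : Ed P} :
    e ∈ thr2 P u v ↔ e ∈ EE P ∧ u ∈ Sv P e ∧ v ∈ Sv P e := by
  unfold thr2
  rw [mem_filter]

/-- The reflection of the label of the vertex `j`. Type `true` exchanges the differences to the two
neighbours and changes the spoke; type `false` exchanges the spoke and the difference to the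
predecessor and changes the difference to the successor. -/
def sw (t : Bool) (r : ℕ) (j : Fin P.L) (x : Fin P.L → ℤ) : Fin P.L → ℤ :=
  Function.update x j
    (if t then x (nxt j) + x (prv j) - x j else anc P.n (P.vx r j) + x (prv j) - x j)

/-- Coincidences: two equal labels, two equal differences, or the label or the difference created by
a switch is already present. -/
def Co (e : Ed P) : Prop :=
  (∃ j l, j ≠ l ∧ e.2 j = e.2 l) ∨ (∃ i i', i ≠ i' ∧ P.df e.1 e.2 i = P.df e.1 e.2 i') ∨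
  (∃ t j l, j ≠ l ∧ sw P t e.1 j e.2 j = e.2 l) ∨
  (∃ t j i, i ≠ (t, j) ∧ P.df e.1 (sw P t e.1 j e.2) (t, j) = P.df e.1 e.2 i)

/-- the edges with a coincidence through the difference `d` -/
def coT (d : ℤ) : Finset (Ed P) :=
  (EE P).filter (fun e => Co P e ∧ ∃ i, P.df e.1 e.2 i = d)

theorem mem_coT {P : Par} {d : ℤ} {e : Ed P} :
    e ∈ coT P d ↔ e ∈ EE P ∧ Co P e ∧ ∃ i, P.df e.1 e.2 i = d := by
  unfold coT
  rw [mem_filter]

/-- The place `j` of `(r, x)` allows switches: high anchor in the middle, the other labels in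
`[n, 2n]`. -/
def Reg (r : ℕ) (j : Fin P.L) (x : Fin P.L → ℤ) : Prop :=
  P.good r ∧ 51 * (P.n : ℤ) ≤ 20 * anc P.n (P.vx r j) ∧
    5 * anc P.n (P.vx r j) ≤ 14 * (P.n : ℤ) ∧ x ∈ P.box ∧
    (∀ i, i ≠ j → (P.n : ℤ) ≤ x i ∧ x i ≤ 2 * P.n) ∧ |x j - anc P.n (P.vx r j)| ≤ 2 * (P.n : ℤ)

/-- type of the switches which change the difference `d` -/
def ty (d : ℤ) : Bool := decide ((P.n : ℤ) < d)

/-- places of switches -/
abbrev Tp (P : Par) := Ed P × (Bool × Fin P.L)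

/-- the edge after the switch -/
def tgt (a : Tp P) : Ed P := (a.1.1, sw P a.2.1 a.1.1 a.2.2 a.1.2)

/-- difference before and after the switch -/
def da (a : Tp P) : ℤ := P.df a.1.1 a.1.2 a.2
/-- difference after the switch -/
def dt (a : Tp P) : ℤ := P.df (tgt P a).1 (tgt P a).2 a.2

/-- all switches (not necessarily valid) from the difference `d` to the difference `d''` -/
def T (d d'' : ℤ) : Finset (Tp P) :=
  ((EE P) ×ˢ (univ : Finset (Bool × Fin P.L))).filter (fun a => a.2.1 = ty P d ∧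
    Reg P a.1.1 a.2.2 a.1.2 ∧ Reg P a.1.1 a.2.2 (tgt P a).2 ∧ da P a = d ∧ dt P a = d'')

theorem mem_T {P : Par} {d d'' : ℤ} {a : Tp P} : a ∈ T P d d'' ↔ a.1 ∈ EE P ∧ a.2.1 = ty P d ∧
    Reg P a.1.1 a.2.2 a.1.2 ∧ Reg P a.1.1 a.2.2 (tgt P a).2 ∧ da P a = d ∧ dt P a = d'' := by
  unfold T
  rw [mem_filter, mem_product]
  simp only [mem_univ, and_true]

/-- places where the difference `d` can be switched and the new label is `z` -/
def Tz (d z : ℤ) : Finset (Tp P) :=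
  ((EE P) ×ˢ (univ : Finset (Bool × Fin P.L))).filter (fun a => a.2.1 = ty P d ∧
    da P a = d ∧ (tgt P a).2 a.2.2 = z)

theorem mem_Tz {P : Par} {d z : ℤ} {a : Tp P} : a ∈ Tz P d z ↔ a.1 ∈ EE P ∧ a.2.1 = ty P d ∧
    da P a = d ∧ (tgt P a).2 a.2.2 = z := by
  unfold Tz
  rw [mem_filter, mem_product]
  simp only [mem_univ, and_true]

/-- the constant `L^2 3^L` -/
def kk : ℝ := (P.L : ℝ) ^ 2 * 3 ^ P.L

end

/-- The data of Theorem M. `Bd`: exceptional differences of the weight system. -/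
structure Cx where
  P : Par
  W : ℕ → (Fin P.L → ℤ) → ℝ
  I : Finset ℕ
  Z0 : Finset ℤ
  D0 : Finset ℤ
  Bd : Finset ℤ
  ρ : ℝ

namespace Cx

variable (X : Cx)

/-- differences in too many edges with coincidences -/
def Bx : Finset ℤ :=
  (Icc (1 : ℤ) (2 * (X.P.n : ℤ))).filter
    (fun d => X.ρ * (X.P.n : ℝ) ^ X.P.L < ((coT X.P d).card : ℝ))

theorem mem_Bx {X : Cx} {d : ℤ} : d ∈ X.Bx ↔ (1 ≤ d ∧ d ≤ 2 * (X.P.n : ℤ)) ∧
    X.ρ * (X.P.n : ℝ) ^ X.P.L < ((coT X.P d).card : ℝ) := by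
  unfold Bx
  rw [mem_filter, mem_Icc]

/-- the differences which are used -/
def D1 : Finset ℤ := ((X.D0 ∩ Icc (1 : ℤ) (2 * (X.P.n : ℤ))) \ X.Bd) \ X.Bx

theorem mem_D1 {X : Cx} {d : ℤ} : d ∈ X.D1 ↔
    (((d ∈ X.D0 ∧ (1 ≤ d ∧ d ≤ 2 * (X.P.n : ℤ))) ∧ d ∉ X.Bd) ∧ d ∉ X.Bx) := by
  unfold D1
  rw [mem_sdiff, mem_sdiff, mem_inter, mem_Icc]

/-- bad differences -/
def BD : Finset ℤ := Icc (1 : ℤ) (2 * (X.P.n : ℤ)) \ X.D1

/-- bad labels -/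
def BZ : Finset ℤ := ZB X.P.n \ X.Z0

/-- target differences of the switches -/
def J0 : Finset ℤ :=
  X.D1.filter (fun d => 19 * (X.P.n : ℤ) ≤ 20 * d ∧ 20 * d ≤ 21 * (X.P.n : ℤ))

theorem mem_J0 {X : Cx} {d : ℤ} : d ∈ X.J0 ↔
    d ∈ X.D1 ∧ 19 * (X.P.n : ℤ) ≤ 20 * d ∧ 20 * d ≤ 21 * (X.P.n : ℤ) := by
  unfold J0
  rw [mem_filter]

/-- valid edges -/
def valid (e : Ed X.P) : Prop :=
  e.1 ∈ X.I ∧ X.P.good e.1 ∧ e.2 ∈ X.P.box ∧ X.P.OkC X.Z0 X.D1 e.1 e.2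

/-- the set of the valid edges -/
def VE : Finset (Ed X.P) := (EE X.P).filter (fun e => X.valid e)

theorem mem_VE {X : Cx} {e : Ed X.P} : e ∈ X.VE ↔ e ∈ EE X.P ∧ X.valid e := by
  unfold VE
  rw [mem_filter]

/-- bad edges -/
def Bad : Finset (Ed X.P) := (EE X.P).filter (fun e =>
  e.1 ∉ X.I ∨ (∃ j, e.2 j ∈ X.BZ) ∨ (∃ i, X.P.df e.1 e.2 i ∈ X.BD) ∨ Co X.P e)

theorem mem_Bad {X : Cx} {e : Ed X.P} : e ∈ X.Bad ↔ e ∈ EE X.P ∧
    (e.1 ∉ X.I ∨ (∃ j, e.2 j ∈ X.BZ) ∨ (∃ i, X.P.df e.1 e.2 i ∈ X.BD) ∨ Co X.P e) := by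
  unfold Bad
  rw [mem_filter]

/-- the weight of the valid edges of the cycle `r` -/
def S (r : ℕ) : ℝ := ∑ e ∈ X.VE.filter (fun e => (Sum.inl r : Vt) ∈ Sv X.P e), X.W e.1 e.2

/-- the weights after restriction to the valid edges -/
def w1 (e : Ed X.P) : ℝ := if e ∈ X.VE then X.W e.1 e.2 / X.S e.1 else 0

/-- the degree of a vertex with respect to a weight -/
def dg (w : Ed X.P → ℝ) (u : Vt) : ℝ := ∑ e ∈ X.VE.filter (fun e => u ∈ Sv X.P e), w e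

/-- average degree of the differences -/
def τ : ℝ := (∑ d ∈ X.D1, X.dg X.w1 (Sum.inr (Sum.inr d))) / (X.D1.card : ℝ)

/-- valid switches -/
def Tv : Finset (Tp X.P) :=
  ((EE X.P) ×ˢ (univ : Finset (Bool × Fin X.P.L))).filter (fun a =>
    a.1 ∈ X.VE ∧ tgt X.P a ∈ X.VE ∧ a.2.1 = ty X.P (da X.P a) ∧
    Reg X.P a.1.1 a.2.2 a.1.2 ∧ Reg X.P a.1.1 a.2.2 (tgt X.P a).2 ∧ dt X.P a ∈ X.J0)

theorem mem_Tv {X : Cx} {a : Tp X.P} : a ∈ X.Tv ↔ a.1 ∈ X.VE ∧ tgt X.P a ∈ X.VE ∧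
    a.2.1 = ty X.P (da X.P a) ∧
    Reg X.P a.1.1 a.2.2 a.1.2 ∧ Reg X.P a.1.1 a.2.2 (tgt X.P a).2 ∧ dt X.P a ∈ X.J0 := by
  unfold Tv
  rw [mem_filter, mem_product]
  constructor
  · rintro ⟨_, h⟩
    exact h
  · intro h
    exact ⟨⟨(mem_VE.1 h.1).1, mem_univ _⟩, h⟩

/-- the valid switches from `d` to `d''` -/
def Tdd (d d'' : ℤ) : Finset (Tp X.P) :=
  X.Tv.filter (fun a => da X.P a = d ∧ dt X.P a = d'')

theorem mem_Tdd {X : Cx} {d d'' : ℤ} {a : Tp X.P} :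
    a ∈ X.Tdd d d'' ↔ a ∈ X.Tv ∧ da X.P a = d ∧ dt X.P a = d'' := by
  unfold Tdd
  rw [mem_filter]

/-- normalised number of the valid switches from `d` to `d''` -/
def Q (d d'' : ℤ) : ℝ := ((X.Tdd d d'').card : ℝ) / (X.P.n : ℝ) ^ (X.P.L - 1)

/-- the amount moved along a switch -/
def mv (γ : ℤ → ℤ → ℝ) (a : Tp X.P) : ℝ := γ (da X.P a) (dt X.P a) / (X.P.n : ℝ) ^ (X.P.L - 1)

/-- the corrected weights -/
def w2 (γ : ℤ → ℤ → ℝ) (e : Ed X.P) : ℝ :=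
  X.w1 e + ∑ a ∈ X.Tv, X.mv γ a *
    ((if tgt X.P a = e then (1 : ℝ) else 0) - (if a.1 = e then (1 : ℝ) else 0))

/-- the hypotheses of Theorem M, apart from the smallness of `ρ` -/
structure Ok (X : Cx) (C c ε : ℝ) : Prop where
  ok : X.P.Ok
  C_pos : 0 < C
  c_pos : 0 < c
  ρ_pos : 0 < X.ρ
  ρ_le : X.ρ ≤ 1
  ε_pos : 0 < ε
  ε_le : ε ≤ X.ρ
  nonneg : ∀ r x, 0 ≤ X.W r x
  supp : ∀ r x, X.W r x ≠ 0 → r < X.P.g ∧ X.P.good r ∧ x ∈ X.P.box ∧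
    ∀ j, |x j - anc X.P.n (X.P.vx r j)| ≤ 2 * (X.P.n : ℤ)
  le : ∀ r x, X.W r x ≤ C / (X.P.n : ℝ) ^ X.P.L
  cyc : ∀ r < X.P.g, X.P.good r → ∑ x ∈ X.P.box, X.W r x = 1
  low : ∀ r < X.P.g, X.P.good r → ∀ x ∈ X.P.box, ∀ j,
    (∀ i, i ≠ j → (X.P.n : ℤ) ≤ x i ∧ x i ≤ 2 * X.P.n) →
    |x j - anc X.P.n (X.P.vx r j)| ≤ 2 * (X.P.n : ℤ) →
    c / (X.P.n : ℝ) ^ X.P.L ≤ X.W r x
  lab : ∀ z : ℤ, ∑ r ∈ range X.P.g, ∑ x ∈ X.P.box,
    X.W r x * ((univ.filter (fun j : Fin X.P.L => x j = z)).card : ℝ) ≤ 49 / 50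
  Bd_card : (X.Bd.card : ℝ) ≤ ε * X.P.n
  dif : ∀ d : ℤ, 1 ≤ d → d ≤ 2 * X.P.n → d ∉ X.Bd →
    |∑ r ∈ range X.P.g, ∑ x ∈ X.P.box,
      X.W r x * ((univ.filter (fun i : Bool × Fin X.P.L => X.P.df r x i = d)).card : ℝ) - 1| ≤ ε
  I_sub : X.I ⊆ range X.P.g
  I_card : ((range X.P.g \ X.I).card : ℝ) ≤ X.ρ * X.P.n
  Z_sub : X.Z0 ⊆ zall X.P.n
  Z_card : ((zall X.P.n \ X.Z0).card : ℝ) ≤ X.ρ * X.P.n
  D_sub : X.D0 ⊆ dall X.P.n
  D_card : ((dall X.P.n \ X.D0).card : ℝ) ≤ X.ρ * X.P.n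
  card_le : 2 * X.P.L * X.I.card ≤ X.D0.card
  big : 1000 + 1000 * (X.P.L : ℝ) * kk X.P / X.ρ ≤ ε * X.P.n

end Cx

/-- constant of the bad edges -/
def Cb (L : ℕ) : ℝ := 120 * ((L : ℝ) ^ 2 * 3 ^ L)
/-- constant of the degrees of the differences -/
def Cd (L : ℕ) (C : ℝ) : ℝ := 2 + 6 * L * C * Cb L
/-- constant of the number of the switches -/
def C4 (L : ℕ) : ℝ := 4 * L * 3 ^ L
/-- constant of the flow -/
def Cg (L : ℕ) (C : ℝ) : ℝ := 300 * Cd L C * C4 L * 250000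

/-- smallness of `ρ` -/
structure Sm (L : ℕ) (C c ρ : ℝ) : Prop where
  s1 : C * Cb L * ρ ≤ 1 / 400
  s2 : 4 * L * 3 ^ L * Cg L C * ρ ≤ 1 / 200
  s3 : 4 * L * Cg L C * ρ ≤ c
  s4 : 4 * L * Cb L * ρ ≤ 9 / 1000 * (1 / 500)

end Pool.Agent.PGo.M
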