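import Pool.Agent.PGo.M.Sw
import Pool.Agent.PGo.M.Anc

/-!
# PGo-M-NotBad: edges which are not bad are valid

PLAN. `OkC Z0 D1 r x`: `lab`: `x j ∈ ZB n` and `∉ BZ`, so in `Z0`; `labi`, `difi`: no coincidence (`Co`);
`dif`: `df i ∈ Icc 1 (2n)` and `∉ BD`, so in `D1`. For the positivity: spokes: `zb_ne_anc`; inner
differences: the labels are different (`Co`, `nxt_ne`). Upper bound: inner: `zb_dif`; spokes:
in `mem_VE_of_W` from `supp`, in `mem_VE_of_T` from `Reg` (`spoke_le` for `i ≠ j`, last field of `Reg` for `j`).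
`mem_VE_of_T`, target: the labels are those of `x` except at `j` (`sw_ne`), where the label is in
`ZB` (Reg of the target) and not in `BZ`, and different from the others (third part of `Co`); the
differences are `dt = d'' ∈ J0 ⊆ D1` at `(t, j)` and `df x (swap ..)` at the other places (`df_sw`,
`swap_fix`), injective by the second and fourth part of `Co`.
-/
set_option autoImplicit false

noncomputable section

namespace Pool.Agent.PGo.M

open Finset Pool.Agent.PGr Pool.Agent.PGo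
open scoped Classical

namespace Cx

variable {X : Cx} {C c ε : ℝ}

private theorem not_bad {e : Ed X.P} (he : e ∈ EE X.P) (hb : e ∉ X.Bad) :
    e.1 ∈ X.I ∧ (∀ j, e.2 j ∉ X.BZ) ∧ (∀ i, X.P.df e.1 e.2 i ∉ X.BD) ∧ ¬ Co X.P e := by
  rw [mem_Bad] at hb
  push Not at hb
  obtain ⟨h1, h2, h3, h4⟩ := hb he
  exact ⟨h1, h2, h3, h4⟩

private theorem mem_Z0 {z : ℤ} (h1 : z ∈ ZB X.P.n) (h2 : z ∉ X.BZ) : z ∈ X.Z0 := by
  by_contra h3
  exact h2 (Finset.mem_sdiff.2 ⟨h1, h3⟩)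

private theorem mem_D1' {d : ℤ} (h1 : 1 ≤ d ∧ d ≤ 2 * (X.P.n : ℤ)) (h2 : d ∉ X.BD) :
    d ∈ X.D1 := by
  by_contra h3
  exact h2 (Finset.mem_sdiff.2 ⟨Finset.mem_Icc.2 h1, h3⟩)

private theorem valid_src (hX : X.Ok C c ε) {e : Ed X.P} (he : e ∈ EE X.P) (hb : e ∉ X.Bad)
    (hg : X.P.good e.1) (hsp : ∀ j, |e.2 j - anc X.P.n (X.P.vx e.1 j)| ≤ 2 * (X.P.n : ℤ)) :
    X.valid e := by
  obtain ⟨hI, hZ, hD, hCo⟩ := not_bad he hb
  have hbox := (mem_EE.1 he).2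
  have hzb := mem_box.1 hbox
  have hinj : Function.Injective e.2 := by
    intro j l hjl
    by_contra hne
    exact hCo (Or.inl ⟨j, l, hne, hjl⟩)
  refine ⟨hI, hg, hbox, ?_, hinj, ?_, ?_⟩
  · intro j
    exact mem_Z0 (hzb j) (hZ j)
  · rintro ⟨b, j⟩
    refine mem_D1' ?_ (hD (b, j))
    cases b with
    | true =>
      rw [Par.df_true]
      exact ⟨Int.one_le_abs (sub_ne_zero.2 (zb_ne_anc hX.ok hg j (hzb j))), hsp j⟩
    | false =>
      rw [Par.df_false]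
      exact zb_dif (hzb j) (hzb (nxt j)) fun h1 => nxt_ne hX.ok j (hinj h1).symm
  · intro i i' hii
    by_contra hne
    exact hCo (Or.inr (Or.inl ⟨i, i', hne, hii⟩))

theorem mem_VE_of_W (hX : X.Ok C c ε) {e : Ed X.P} (he : e ∈ EE X.P) (hW : X.W e.1 e.2 ≠ 0)
    (hb : e ∉ X.Bad) : e ∈ X.VE := by
  obtain ⟨_, h2, _, h4⟩ := hX.supp e.1 e.2 hW
  exact mem_VE.2 ⟨he, valid_src hX he hb h2 h4⟩

theorem mem_VE_of_T (hX : X.Ok C c ε) {d d'' : ℤ} (hd'' : d'' ∈ X.J0)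
    {a : Tp X.P} (ha : a ∈ T X.P d d'') (hb : a.1 ∉ X.Bad)
    (hz : (tgt X.P a).2 a.2.2 ∉ X.BZ) : a.1 ∈ X.VE ∧ tgt X.P a ∈ X.VE := by
  obtain ⟨he, _, hR, hR', _, hdt⟩ := mem_T.1 ha
  obtain ⟨hg, _, _, _, hR4, hR5⟩ := hR
  obtain ⟨_, _, _, hbox', _, _⟩ := hR'
  have hsp : ∀ j, |a.1.2 j - anc X.P.n (X.P.vx a.1.1 j)| ≤ 2 * (X.P.n : ℤ) := by
    intro j
    by_cases hj : j = a.2.2
    · rw [hj]
      exact hR5
    · exact spoke_le hX.ok hg j (hR4 j hj).1 (hR4 j hj).2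
  have hv := valid_src hX he hb hg hsp
  obtain ⟨_, _, _, hCo⟩ := not_bad he hb
  have hv2 := hv
  obtain ⟨hI, _, _, hok⟩ := hv2
  refine ⟨mem_VE.2 ⟨he, hv⟩, mem_VE.2 ⟨mem_EE.2 ⟨(mem_EE.1 he).1, hbox'⟩, hI, hg, hbox', ?_⟩⟩
  have hsw : ∀ i, i ≠ a.2.2 → (tgt X.P a).2 i = a.1.2 i := fun i hi => sw_ne a.1.2 hi
  have hdf : ∀ i : Bool × Fin X.P.L, i ≠ (a.2.1, a.2.2) →
      X.P.df (tgt X.P a).1 (tgt X.P a).2 i =
        X.P.df a.1.1 a.1.2 (Equiv.swap (!a.2.1, a.2.2) (false, prv a.2.2) i) :=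
    fun i hi => df_sw hX.ok a.1.1 a.1.2 hi
  have hdt' : X.P.df (tgt X.P a).1 (tgt X.P a).2 (a.2.1, a.2.2) = d'' := hdt
  have hfix := swap_fix hX.ok a.2.1 a.2.2
  have hne : ∀ i : Bool × Fin X.P.L, i ≠ (a.2.1, a.2.2) →
      Equiv.swap (!a.2.1, a.2.2) ((false, prv a.2.2) : Bool × Fin X.P.L) i ≠
        (a.2.1, a.2.2) := by
    intro i hi h1
    rw [← hfix] at h1
    have h2 := (Equiv.swap (!a.2.1, a.2.2) ((false, prv a.2.2) : Bool × Fin X.P.L)).injective h1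
    exact hi h2
  have hcl : ∀ l, l ≠ a.2.2 → (tgt X.P a).2 a.2.2 ≠ a.1.2 l := by
    intro l hl h1
    exact hCo (Or.inr (Or.inr (Or.inl ⟨a.2.1, a.2.2, l, hl.symm, h1⟩)))
  have hcd : ∀ i : Bool × Fin X.P.L, i ≠ (a.2.1, a.2.2) → d'' ≠ X.P.df a.1.1 a.1.2 i := by
    intro i hi h1
    exact hCo (Or.inr (Or.inr (Or.inr ⟨a.2.1, a.2.2, i, hi, hdt'.trans h1⟩)))
  refine ⟨?_, ?_, ?_, ?_⟩
  · intro j
    by_cases hj : j = a.2.2
    · rw [hj]
      exact mem_Z0 (mem_box.1 hbox' a.2.2) hz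
    · rw [hsw j hj]
      exact hok.lab j
  · intro j l hjl
    by_cases hj : j = a.2.2
    · by_cases hl : l = a.2.2
      · rw [hj, hl]
      · exfalso
        rw [hj, hsw l hl] at hjl
        exact hcl l hl hjl
    · by_cases hl : l = a.2.2
      · exfalso
        rw [hl, hsw j hj] at hjl
        exact hcl j hj hjl.symm
      · rw [hsw j hj, hsw l hl] at hjl
        exact hok.labi hjl
  · intro i
    by_cases hi : i = (a.2.1, a.2.2)
    · rw [hi, hdt']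
      exact (mem_J0.1 hd'').1
    · rw [hdf i hi]
      exact hok.dif _
  · intro i i' hii
    by_cases hi : i = (a.2.1, a.2.2)
    · by_cases hi' : i' = (a.2.1, a.2.2)
      · rw [hi, hi']
      · exfalso
        rw [hi, hdt', hdf i' hi'] at hii
        exact hcd _ (hne i' hi') hii
    · by_cases hi' : i' = (a.2.1, a.2.2)
      · exfalso
        rw [hi', hdt', hdf i hi] at hii
        exact hcd _ (hne i hi) hii.symm
      · rw [hdf i hi, hdf i' hi'] at hii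
        exact (Equiv.injective _) (hok.difi hii)

end Cx

end Pool.Agent.PGo.M
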