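import Pool.Agent.PGo.M.BadC
import Pool.Agent.PGo.M.NotBad

/-!
# PGo-M-DegA: weights of the cycles, restricted weights

PLAN. `S_eq`/`S_low`: `S r = ∑_{x ∈ box, (r,x) ∈ VE} W r x` (the edges of `VE` through the vertex `inl r`
are the `(r, x)`), and `1 = ∑_{x ∈ box} W r x` (`cyc`); the `x` with `(r, x) ∉ VE` and `W r x ≠ 0` give
`(r, x) ∈ Bad` (`mem_VE_of_W`), there are at most `Cb ρ n^L` of them (`bad_cyc`), each with
`W ≤ C/n^L` (`le`): `S r ≥ 1 - C Cb ρ ≥ 399/400` (`Sm.s1`). `S_le`: subsum of a sum equal to 1.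
`sum_w1`: `∑_{e ∈ VE} w1 e = ∑_{r ∈ I, good} ∑_{e ∈ VE through r} W/S = ` number of the good `r ∈ I`
(`sum_fiberwise_of_maps_to`; for `r ∈ I` good `S r > 0`).
`w1_le`: `W / S ≤ (C/n^L) / (399/400)`. `w1_low`: `W ≥ c/n^L` (`low`), `S ≤ 1`.
-/
set_option autoImplicit false

noncomputable section

namespace Pool.Agent.PGo.M

open Finset Pool.Agent.PGr Pool.Agent.PGo
open scoped Classical

namespace Cx

variable {X : Cx} {C c ε : ℝ}

private theorem dega_mem {r : ℕ} {e : Ed X.P} :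
    e ∈ X.VE.filter (fun e => (Sum.inl r : Vt) ∈ Sv X.P e) ↔ e ∈ X.VE ∧ e.1 = r := by
  rw [mem_filter, mem_Sv_cyc]

private theorem dega_sum {r : ℕ} (hr : r < X.P.g) (f : Ed X.P → ℝ) :
    ∑ e ∈ (EE X.P).filter (fun e => e.1 = r), f e = ∑ x ∈ X.P.box, f (r, x) := by
  symm
  refine Finset.sum_nbij' (fun x => ((r, x) : Ed X.P)) (fun e => e.2) ?_ ?_ ?_ ?_ ?_
  · intro x hx
    exact mem_filter.2 ⟨mem_EE.2 ⟨hr, hx⟩, rfl⟩
  · intro e he
    exact (mem_EE.1 (mem_filter.1 he).1).2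
  · intro x _
    rfl
  · intro e he
    have h1 := (mem_filter.1 he).2
    exact Prod.ext h1.symm rfl
  · intro x _
    rfl

private theorem dega_sub {r : ℕ} :
    X.VE.filter (fun e => (Sum.inl r : Vt) ∈ Sv X.P e) ⊆
      (EE X.P).filter (fun e => e.1 = r) := by
  intro e he
  obtain ⟨h1, h2⟩ := dega_mem.1 he
  exact mem_filter.2 ⟨(mem_VE.1 h1).1, h2⟩

theorem S_low (hX : X.Ok C c ε) (hS : Sm X.P.L C c X.ρ) {r : ℕ} (hr : r ∈ X.I)
    (hg : X.P.good r) : 399 / 400 ≤ X.S r := by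
  have hrg : r < X.P.g := mem_range.1 (hX.I_sub hr)
  have h1 : ∑ e ∈ (EE X.P).filter (fun e => e.1 = r), X.W e.1 e.2 = 1 := by
    rw [dega_sum hrg]
    exact hX.cyc r hrg hg
  have h2 := Finset.sum_sdiff (f := fun e : Ed X.P => X.W e.1 e.2) (dega_sub (X := X) (r := r))
  rw [h1] at h2
  have h3 : ∑ e ∈ (EE X.P).filter (fun e => e.1 = r) \
      X.VE.filter (fun e => (Sum.inl r : Vt) ∈ Sv X.P e), X.W e.1 e.2 ≤
      ∑ e ∈ X.Bad.filter (fun e => (Sum.inl r : Vt) ∈ Sv X.P e), C / (X.P.n : ℝ) ^ X.P.L := by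
    have h4 : ∀ e ∈ (EE X.P).filter (fun e => e.1 = r) \
        X.VE.filter (fun e => (Sum.inl r : Vt) ∈ Sv X.P e),
        X.W e.1 e.2 ≠ 0 → e ∈ X.Bad.filter (fun e => (Sum.inl r : Vt) ∈ Sv X.P e) := by
      intro e he hW
      obtain ⟨h5, h6⟩ := mem_sdiff.1 he
      obtain ⟨h7, h8⟩ := mem_filter.1 h5
      refine mem_filter.2 ⟨?_, mem_Sv_cyc.2 h8⟩
      by_contra h9
      exact h6 (dega_mem.2 ⟨mem_VE_of_W hX h7 hW h9, h8⟩)
    have hC : 0 ≤ C / (X.P.n : ℝ) ^ X.P.L := div_nonneg hX.C_pos.le (by positivity)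
    calc ∑ e ∈ (EE X.P).filter (fun e => e.1 = r) \
        X.VE.filter (fun e => (Sum.inl r : Vt) ∈ Sv X.P e), X.W e.1 e.2
        = ∑ e ∈ ((EE X.P).filter (fun e => e.1 = r) \
        X.VE.filter (fun e => (Sum.inl r : Vt) ∈ Sv X.P e)).filter (fun e => X.W e.1 e.2 ≠ 0),
          X.W e.1 e.2 := (Finset.sum_filter_ne_zero _).symm
      _ ≤ ∑ e ∈ ((EE X.P).filter (fun e => e.1 = r) \
        X.VE.filter (fun e => (Sum.inl r : Vt) ∈ Sv X.P e)).filter (fun e => X.W e.1 e.2 ≠ 0),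
          C / (X.P.n : ℝ) ^ X.P.L := Finset.sum_le_sum fun e _ => hX.le e.1 e.2
      _ ≤ _ := by
        refine Finset.sum_le_sum_of_subset_of_nonneg ?_ fun _ _ _ => hC
        intro e he
        obtain ⟨h5, h6⟩ := mem_filter.1 he
        exact h4 e h5 h6
  rw [Finset.sum_const, nsmul_eq_mul] at h3
  have h5 := bad_cyc hX hr
  have hn : (0 : ℝ) < (X.P.n : ℝ) ^ X.P.L := pow_pos hX.n_pos _
  have h6 : ((X.Bad.filter (fun e => (Sum.inl r : Vt) ∈ Sv X.P e)).card : ℝ) *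
      (C / (X.P.n : ℝ) ^ X.P.L) ≤ C * Cb X.P.L * X.ρ := by
    have h7 := mul_le_mul_of_nonneg_right h5 (div_nonneg hX.C_pos.le hn.le)
    refine h7.trans (le_of_eq ?_)
    field_simp
  have h7 := hS.s1
  have h8 : X.S r = ∑ e ∈ X.VE.filter (fun e => (Sum.inl r : Vt) ∈ Sv X.P e), X.W e.1 e.2 := rfl
  rw [← h8] at h2
  linarith

theorem S_le (hX : X.Ok C c ε) {r : ℕ} (hr : r < X.P.g) (hg : X.P.good r) : X.S r ≤ 1 := by
  have h1 : ∑ e ∈ (EE X.P).filter (fun e => e.1 = r), X.W e.1 e.2 = 1 := by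
    rw [dega_sum hr]
    exact hX.cyc r hr hg
  rw [← h1]
  exact Finset.sum_le_sum_of_subset_of_nonneg dega_sub fun e _ _ => hX.nonneg e.1 e.2

private theorem dega_S0 (hX : X.Ok C c ε) (r : ℕ) : 0 ≤ X.S r :=
  Finset.sum_nonneg fun e _ => hX.nonneg e.1 e.2

private theorem dega_VE {e : Ed X.P} (he : e ∈ X.VE) : e.1 ∈ X.I ∧ X.P.good e.1 := by
  obtain ⟨_, h1, h2, _⟩ := mem_VE.1 he
  exact ⟨h1, h2⟩

theorem w1_nonneg (hX : X.Ok C c ε) (hS : Sm X.P.L C c X.ρ) (e : Ed X.P) : 0 ≤ X.w1 e := by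
  unfold Cx.w1
  split_ifs with h
  · exact div_nonneg (hX.nonneg _ _) (dega_S0 hX _)
  · exact le_rfl

theorem w1_le (hX : X.Ok C c ε) (hS : Sm X.P.L C c X.ρ) (e : Ed X.P) :
    X.w1 e ≤ 2 * C / (X.P.n : ℝ) ^ X.P.L := by
  have hn : (0 : ℝ) < (X.P.n : ℝ) ^ X.P.L := pow_pos hX.n_pos _
  have hC := hX.C_pos
  unfold Cx.w1
  split_ifs with h
  · obtain ⟨h1, h2⟩ := dega_VE h
    have h3 := S_low hX hS h1 h2
    have h4 : (0 : ℝ) < X.S e.1 := by linarith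
    rw [div_le_iff₀ h4]
    have h5 := hX.le e.1 e.2
    have h6 : 0 < C / (X.P.n : ℝ) ^ X.P.L := div_pos hC hn
    have h7 : 2 * C / (X.P.n : ℝ) ^ X.P.L = 2 * (C / (X.P.n : ℝ) ^ X.P.L) := by ring
    rw [h7]
    nlinarith
  · positivity

theorem w1_low (hX : X.Ok C c ε) (hS : Sm X.P.L C c X.ρ) {e : Ed X.P} (he : e ∈ X.VE)
    {j : Fin X.P.L} (hj : Reg X.P e.1 j e.2) : c / (X.P.n : ℝ) ^ X.P.L ≤ X.w1 e := by
  have hn : (0 : ℝ) < (X.P.n : ℝ) ^ X.P.L := pow_pos hX.n_pos _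
  obtain ⟨hg, _, _, hb, h1, h2⟩ := hj
  obtain ⟨hI, _⟩ := dega_VE he
  have hr : e.1 < X.P.g := mem_range.1 (hX.I_sub hI)
  have h3 := hX.low e.1 hr hg e.2 hb j h1 h2
  have h4 := S_low hX hS hI hg
  have h5 := S_le hX hr hg
  have h6 : (0 : ℝ) < X.S e.1 := by linarith
  unfold Cx.w1
  rw [if_pos he, le_div_iff₀ h6]
  have h7 : 0 < c / (X.P.n : ℝ) ^ X.P.L := div_pos hX.c_pos hn
  nlinarith

theorem dg_cyc (hX : X.Ok C c ε) (hS : Sm X.P.L C c X.ρ) (r : ℕ) :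
    X.dg X.w1 (Sum.inl r) = if r ∈ X.I ∧ X.P.good r then 1 else 0 := by
  unfold Cx.dg
  split_ifs with h
  · have h1 := S_low hX hS h.1 h.2
    have h2 : X.S r ≠ 0 := by
      intro h3
      rw [h3] at h1
      norm_num at h1
    have h3 : ∑ e ∈ X.VE.filter (fun e => (Sum.inl r : Vt) ∈ Sv X.P e), X.w1 e =
        ∑ e ∈ X.VE.filter (fun e => (Sum.inl r : Vt) ∈ Sv X.P e), X.W e.1 e.2 / X.S r := by
      refine Finset.sum_congr rfl fun e he => ?_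
      obtain ⟨h4, h5⟩ := dega_mem.1 he
      unfold Cx.w1
      rw [if_pos h4, h5]
    rw [h3, ← Finset.sum_div]
    exact div_self h2
  · refine Finset.sum_eq_zero fun e he => ?_
    obtain ⟨h4, h5⟩ := dega_mem.1 he
    obtain ⟨h6, h7⟩ := dega_VE h4
    rw [h5] at h6 h7
    exact absurd ⟨h6, h7⟩ h

theorem sum_w1 (hX : X.Ok C c ε) (hS : Sm X.P.L C c X.ρ) :
    ∑ e ∈ X.VE, X.w1 e = ((X.I.filter (fun r => X.P.good r)).card : ℝ) := by
  have h1 : ∀ e ∈ X.VE, e.1 ∈ X.I := fun e he => (dega_VE he).1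
  rw [← Finset.sum_fiberwise_of_maps_to h1]
  have h2 : ∀ r ∈ X.I, ∑ e ∈ X.VE.filter (fun e => e.1 = r), X.w1 e =
      if X.P.good r then (1 : ℝ) else 0 := by
    intro r hr
    have h3 := dg_cyc hX hS r
    unfold Cx.dg at h3
    simp only [mem_Sv_cyc] at h3
    rw [h3]
    simp only [hr, true_and]
  rw [Finset.sum_congr rfl h2, Finset.sum_boole]

end Cx

end Pool.Agent.PGo.M
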