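import Pool.Agent.PGo.M.DegA

/-!
# PGo-M-DegB: degrees of the differences and of the labels

PLAN. `dg_dif`: `d ∈ D1`. For `e ∈ VE` the number `m_d(e)` of `i` with `df i = d` is the indicator of
`inr (inr d) ∈ Sv e` (`difi`). Let `F = ∑_{e ∈ EE} W e * m_d(e) ∈ [1 - ε, 1 + ε]` (`dif`; `d ∉ Bd`; rewrite the
double sum as a sum over `EE` by `sum_product`). The terms with `e ∉ VE`, `W e ≠ 0`, `m_d(e) ≠ 0` are bad edges
through `d` (`mem_VE_of_W`), at most `Cb ρ n^L` (`bad_dif`), each at most `(C/n^L) 2 L`: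
`∑_{e ∈ VE through d} W e ∈ [1 - ε - 2 L C Cb ρ, 1 + ε]`. As `w1 = W/S` with `1 - C Cb ρ ≤ S ≤ 1`
(or `399/400 ≤ S`; the lower bound `S ≥ 1 - C Cb ρ` as in `S_low`; if you need it, prove it here from
`bad_cyc`): `dg w1 ∈ [1 - ε - 2 L C Cb ρ, (1 + ε)(1 + 2 C Cb ρ)]`, and `Cd = 2 + 6 L C Cb`, `ε ≤ ρ ≤ 1`.
`dg_lab`: `dg w1 (label z) ≤ (400/399) ∑_{EE} W e * #{j | x j = z} ≤ (400/399)(49/50) ≤ 983/1000`.
`dg_dif0`: for `d ∉ D1` there is no valid edge through `d`.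
-/
set_option autoImplicit false

noncomputable section

namespace Pool.Agent.PGo.M

open Finset Pool.Agent.PGr Pool.Agent.PGo
open scoped Classical

namespace Cx

variable {X : Cx} {C c ε : ℝ}

private theorem degb_filter (X : Cx) (u : Vt) :
    ((EE X.P).filter (fun e => u ∈ Sv X.P e)).filter (fun e => e ∈ X.VE) =
      X.VE.filter (fun e => u ∈ Sv X.P e) := by
  ext e
  rw [mem_filter, mem_filter, mem_filter]
  constructor
  · rintro ⟨⟨_, h2⟩, h3⟩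
    exact ⟨h3, h2⟩
  · rintro ⟨h1, h2⟩
    exact ⟨⟨(mem_VE.1 h1).1, h2⟩, h1⟩

/-- the edges which are not valid have small weight -/
private theorem degb_le (hX : X.Ok C c ε) (u : Vt) (m : Ed X.P → ℝ) (K B : ℝ)
    (hm0 : ∀ e, 0 ≤ m e) (hmK : ∀ e, m e ≤ K)
    (hB : ((X.Bad.filter (fun e => u ∈ Sv X.P e)).card : ℝ) ≤ B * (X.P.n : ℝ) ^ X.P.L) :
    ∑ e ∈ (EE X.P).filter (fun e => u ∈ Sv X.P e), X.W e.1 e.2 * m e ≤
      ∑ e ∈ X.VE.filter (fun e => u ∈ Sv X.P e), X.W e.1 e.2 * m e + C * K * B := by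
  have hn : 0 < (X.P.n : ℝ) ^ X.P.L := pow_pos hX.n_pos _
  have hC := hX.C_pos
  rw [← Finset.sum_filter_add_sum_filter_not ((EE X.P).filter (fun e => u ∈ Sv X.P e))
    (fun e => e ∈ X.VE), degb_filter]
  refine add_le_add_right ?_ _
  by_cases hne : (((EE X.P).filter (fun e => u ∈ Sv X.P e)).filter (fun e => e ∉ X.VE)).Nonempty
  swap
  · rw [Finset.not_nonempty_iff_eq_empty.1 hne, Finset.sum_empty]
    by_cases hE : Nonempty (Ed X.P)
    · obtain ⟨e⟩ := hE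
      have hK : 0 ≤ K := (hm0 e).trans (hmK e)
      have hB0 : 0 ≤ B := by
        have h1 : 0 ≤ B * (X.P.n : ℝ) ^ X.P.L := (Nat.cast_nonneg _).trans hB
        exact nonneg_of_mul_nonneg_left h1 hn
      positivity
    · exact absurd ⟨((0, fun _ => 0) : Ed X.P)⟩ hE
  obtain ⟨e0, _⟩ := hne
  have hK : 0 ≤ K := (hm0 e0).trans (hmK e0)
  have h1 : ∀ e ∈ ((EE X.P).filter (fun e => u ∈ Sv X.P e)).filter (fun e => e ∉ X.VE),
      X.W e.1 e.2 * m e ≤ if e ∈ X.Bad then C / (X.P.n : ℝ) ^ X.P.L * K else 0 := by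
    intro e he
    obtain ⟨he1, he2⟩ := mem_filter.1 he
    obtain ⟨he3, _⟩ := mem_filter.1 he1
    split_ifs with hb
    · exact mul_le_mul (hX.le _ _) (hmK e) (hm0 e) (by positivity)
    · have hW : X.W e.1 e.2 = 0 := by
        by_contra hW
        exact he2 (mem_VE_of_W hX he3 hW hb)
      rw [hW, zero_mul]
  refine (Finset.sum_le_sum h1).trans ?_
  rw [← Finset.sum_filter, Finset.sum_const, nsmul_eq_mul]
  have h2 : (((((EE X.P).filter (fun e => u ∈ Sv X.P e)).filter (fun e => e ∉ X.VE)).filter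
      (fun e => e ∈ X.Bad)).card : ℝ) ≤ B * (X.P.n : ℝ) ^ X.P.L := by
    refine le_trans ?_ hB
    refine Nat.cast_le.2 (Finset.card_le_card ?_)
    intro e he
    obtain ⟨he1, hb⟩ := mem_filter.1 he
    obtain ⟨he2, _⟩ := mem_filter.1 he1
    obtain ⟨_, hu⟩ := mem_filter.1 he2
    exact mem_filter.2 ⟨hb, hu⟩
  calc (((((EE X.P).filter (fun e => u ∈ Sv X.P e)).filter (fun e => e ∉ X.VE)).filter
      (fun e => e ∈ X.Bad)).card : ℝ) * (C / (X.P.n : ℝ) ^ X.P.L * K)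
      ≤ B * (X.P.n : ℝ) ^ X.P.L * (C / (X.P.n : ℝ) ^ X.P.L * K) :=
        mul_le_mul_of_nonneg_right h2 (by positivity)
    _ = C * K * B := by
        field_simp

/-- sharper lower bound for the weight of a cycle -/
theorem S_low' (hX : X.Ok C c ε) {r : ℕ} (hr : r ∈ X.I) (hg : X.P.good r) :
    1 - C * Cb X.P.L * X.ρ ≤ X.S r := by
  have hrg : r < X.P.g := mem_range.1 (hX.I_sub hr)
  have h1 := degb_le hX (Sum.inl r) (fun _ => 1) 1 (Cb X.P.L * X.ρ) (fun _ => zero_le_one)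
    (fun _ => le_rfl) (bad_cyc hX hr)
  simp only [mul_one] at h1
  have h2 : ∑ e ∈ (EE X.P).filter (fun e => (Sum.inl r : Vt) ∈ Sv X.P e), X.W e.1 e.2 = 1 := by
    rw [← hX.cyc r hrg hg]
    have h3 : (EE X.P).filter (fun e => (Sum.inl r : Vt) ∈ Sv X.P e) =
        X.P.box.image (fun x => ((r, x) : Ed X.P)) := by
      ext e
      rw [mem_filter, mem_image, mem_EE, mem_Sv_cyc]
      constructor
      · rintro ⟨⟨_, h5⟩, h6⟩
        exact ⟨e.2, h5, by rw [← h6]⟩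
      · rintro ⟨x, hx, rfl⟩
        exact ⟨⟨hrg, hx⟩, rfl⟩
    rw [h3, Finset.sum_image]
    intro x _ y _ hxy
    exact (Prod.ext_iff.1 hxy).2
  rw [h2] at h1
  have h3 : X.S r = ∑ e ∈ X.VE.filter (fun e => (Sum.inl r : Vt) ∈ Sv X.P e), X.W e.1 e.2 := rfl
  rw [h3]
  linarith

/-- the degree with respect to `w1` and `W` -/
private theorem degb_dg (hX : X.Ok C c ε) (hS : Sm X.P.L C c X.ρ) (u : Vt) :
    (∑ e ∈ X.VE.filter (fun e => u ∈ Sv X.P e), X.W e.1 e.2) ≤ X.dg X.w1 u ∧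
    X.dg X.w1 u ≤ (∑ e ∈ X.VE.filter (fun e => u ∈ Sv X.P e), X.W e.1 e.2) *
      (1 + 2 * (C * Cb X.P.L * X.ρ)) ∧
    X.dg X.w1 u ≤ (∑ e ∈ X.VE.filter (fun e => u ∈ Sv X.P e), X.W e.1 e.2) * (400 / 399) := by
  have hk := hX.kk_ge
  have hCb : 0 ≤ Cb X.P.L := by
    have h1 : Cb X.P.L = 120 * kk X.P := rfl
    rw [h1]
    linarith
  have hδ : 0 ≤ C * Cb X.P.L * X.ρ := mul_nonneg (mul_nonneg hX.C_pos.le hCb) hX.ρ_pos.le
  have hδ2 := hS.s1
  have hpt : ∀ e ∈ X.VE.filter (fun e => u ∈ Sv X.P e), X.w1 e = X.W e.1 e.2 / X.S e.1 ∧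
      399 / 400 ≤ X.S e.1 ∧ 1 - C * Cb X.P.L * X.ρ ≤ X.S e.1 ∧ X.S e.1 ≤ 1 := by
    intro e he
    have he1 := (mem_filter.1 he).1
    obtain ⟨he2, hI, hg, _, _⟩ := mem_VE.1 he1
    refine ⟨?_, S_low hX hS hI hg, S_low' hX hI hg, S_le hX (mem_EE.1 he2).1 hg⟩
    rw [w1, if_pos he1]
  unfold dg
  refine ⟨Finset.sum_le_sum fun e he => ?_, ?_, ?_⟩
  · obtain ⟨h1, h2, _, h4⟩ := hpt e he
    rw [h1, le_div_iff₀ (by linarith)]
    have h5 := hX.nonneg e.1 e.2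
    nlinarith
  · rw [Finset.sum_mul]
    refine Finset.sum_le_sum fun e he => ?_
    obtain ⟨h1, h2, h3, h4⟩ := hpt e he
    rw [h1, div_le_iff₀ (by linarith)]
    have h5 := hX.nonneg e.1 e.2
    have h6 : 1 ≤ (1 + 2 * (C * Cb X.P.L * X.ρ)) * X.S e.1 := by
      have h7 : (1 + 2 * (C * Cb X.P.L * X.ρ)) * (1 - C * Cb X.P.L * X.ρ) ≤
          (1 + 2 * (C * Cb X.P.L * X.ρ)) * X.S e.1 :=
        mul_le_mul_of_nonneg_left h3 (by linarith)
      nlinarith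
    calc X.W e.1 e.2 = X.W e.1 e.2 * 1 := (mul_one _).symm
      _ ≤ X.W e.1 e.2 * ((1 + 2 * (C * Cb X.P.L * X.ρ)) * X.S e.1) :=
          mul_le_mul_of_nonneg_left h6 h5
      _ = X.W e.1 e.2 * (1 + 2 * (C * Cb X.P.L * X.ρ)) * X.S e.1 := by ring
  · rw [Finset.sum_mul]
    refine Finset.sum_le_sum fun e he => ?_
    obtain ⟨h1, h2, h3, h4⟩ := hpt e he
    rw [h1, div_le_iff₀ (by linarith)]
    have h5 := hX.nonneg e.1 e.2
    nlinarith

private theorem degb_F (X : Cx) (m : Ed X.P → ℝ) (u : Vt) (hm : ∀ e, u ∉ Sv X.P e → m e = 0) :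
    ∑ r ∈ range X.P.g, ∑ x ∈ X.P.box, X.W r x * m (r, x) =
      ∑ e ∈ (EE X.P).filter (fun e => u ∈ Sv X.P e), X.W e.1 e.2 * m e := by
  rw [Finset.sum_filter, EE, Finset.sum_product]
  refine Finset.sum_congr rfl fun r _ => Finset.sum_congr rfl fun x _ => ?_
  split_ifs with h
  · rfl
  · rw [hm _ h, mul_zero]

theorem dg_dif (hX : X.Ok C c ε) (hS : Sm X.P.L C c X.ρ) {d : ℤ} (hd : d ∈ X.D1) :
    |X.dg X.w1 (Sum.inr (Sum.inr d)) - 1| ≤ Cd X.P.L C * X.ρ := by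
  have hk := hX.kk_ge
  have hCb : 0 ≤ Cb X.P.L := by
    have h1 : Cb X.P.L = 120 * kk X.P := rfl
    rw [h1]
    linarith
  have hC := hX.C_pos
  have hρ := hX.ρ_pos
  have hδ : 0 ≤ C * Cb X.P.L * X.ρ := mul_nonneg (mul_nonneg hC.le hCb) hρ.le
  have hδ2 := hS.s1
  have hL : (3 : ℝ) ≤ X.P.L := by exact_mod_cast hX.ok.adm.three
  obtain ⟨⟨⟨_, hd1, hd2⟩, hd3⟩, _⟩ := mem_D1.1 hd
  have hF := hX.dif d hd1 hd2 hd3
  have hzero : ∀ e : Ed X.P, (Sum.inr (Sum.inr d) : Vt) ∉ Sv X.P e →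
      (((univ.filter (fun i : Bool × Fin X.P.L => X.P.df e.1 e.2 i = d)).card : ℕ) : ℝ) = 0 := by
    intro e he
    rw [Nat.cast_eq_zero, Finset.card_eq_zero, Finset.filter_eq_empty_iff]
    intro i _ hi
    exact he (mem_Sv_dif.2 ⟨i, hi⟩)
  have hFe := degb_F X (fun e => (((univ.filter (fun i : Bool × Fin X.P.L =>
    X.P.df e.1 e.2 i = d)).card : ℕ) : ℝ)) (Sum.inr (Sum.inr d)) hzero
  have hup := degb_le hX (Sum.inr (Sum.inr d)) (fun e => (((univ.filter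
    (fun i : Bool × Fin X.P.L => X.P.df e.1 e.2 i = d)).card : ℕ) : ℝ)) (2 * X.P.L)
    (Cb X.P.L * X.ρ) (fun e => Nat.cast_nonneg _) (fun e => by
      have h1 : (univ.filter (fun i : Bool × Fin X.P.L => X.P.df e.1 e.2 i = d)).card ≤
          2 * X.P.L := by
        refine (Finset.card_filter_le _ _).trans (le_of_eq ?_)
        rw [card_univ, Fintype.card_prod, Fintype.card_bool, Fintype.card_fin]
      exact_mod_cast h1) (bad_dif hX hd)
  have hone : ∑ e ∈ X.VE.filter (fun e => (Sum.inr (Sum.inr d) : Vt) ∈ Sv X.P e),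
      X.W e.1 e.2 * (((univ.filter (fun i : Bool × Fin X.P.L =>
        X.P.df e.1 e.2 i = d)).card : ℕ) : ℝ) =
      ∑ e ∈ X.VE.filter (fun e => (Sum.inr (Sum.inr d) : Vt) ∈ Sv X.P e), X.W e.1 e.2 := by
    refine Finset.sum_congr rfl fun e he => ?_
    obtain ⟨he1, he2⟩ := mem_filter.1 he
    obtain ⟨i, hi⟩ := mem_Sv_dif.1 he2
    have hinj := (mem_VE.1 he1).2.2.2.2.difi
    have h1 : univ.filter (fun i : Bool × Fin X.P.L => X.P.df e.1 e.2 i = d) = {i} := by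
      ext i'
      rw [mem_filter, mem_singleton]
      constructor
      · rintro ⟨_, h⟩
        exact hinj (h.trans hi.symm)
      · rintro rfl
        exact ⟨mem_univ _, hi⟩
    rw [h1, card_singleton, Nat.cast_one, mul_one]
  have hlow : ∑ e ∈ X.VE.filter (fun e => (Sum.inr (Sum.inr d) : Vt) ∈ Sv X.P e),
      X.W e.1 e.2 * (((univ.filter (fun i : Bool × Fin X.P.L =>
        X.P.df e.1 e.2 i = d)).card : ℕ) : ℝ) ≤
      ∑ e ∈ (EE X.P).filter (fun e => (Sum.inr (Sum.inr d) : Vt) ∈ Sv X.P e),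
      X.W e.1 e.2 * (((univ.filter (fun i : Bool × Fin X.P.L =>
        X.P.df e.1 e.2 i = d)).card : ℕ) : ℝ) := by
    refine Finset.sum_le_sum_of_subset_of_nonneg ?_ ?_
    · intro e he
      obtain ⟨he1, he2⟩ := mem_filter.1 he
      exact mem_filter.2 ⟨(mem_VE.1 he1).1, he2⟩
    · intro e _ _
      exact mul_nonneg (hX.nonneg _ _) (Nat.cast_nonneg _)
  rw [hFe] at hF
  rw [hone] at hup hlow
  obtain ⟨h1, h2, _⟩ := degb_dg hX hS (Sum.inr (Sum.inr d))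
  have hε := hX.ε_le
  have hρ1 := hX.ρ_le
  have hε0 := hX.ε_pos
  obtain ⟨f1, f2⟩ := abs_le.1 hF
  generalize (∑ e ∈ X.VE.filter (fun e => (Sum.inr (Sum.inr d) : Vt) ∈ Sv X.P e),
    X.W e.1 e.2) = A at *
  generalize (∑ e ∈ (EE X.P).filter (fun e => (Sum.inr (Sum.inr d) : Vt) ∈ Sv X.P e),
      X.W e.1 e.2 * (((univ.filter (fun i : Bool × Fin X.P.L =>
        X.P.df e.1 e.2 i = d)).card : ℕ) : ℝ)) = F at *
  have e1 : C * (2 * X.P.L) * (Cb X.P.L * X.ρ) = 2 * (X.P.L * (C * Cb X.P.L * X.ρ)) := by ring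
  have e2 : Cd X.P.L C * X.ρ = 2 * X.ρ + 6 * (X.P.L * (C * Cb X.P.L * X.ρ)) := by
    unfold Cd
    ring
  rw [e1] at hup
  rw [e2]
  generalize C * Cb X.P.L * X.ρ = δ at *
  have h3 : 3 * δ ≤ X.P.L * δ := mul_le_mul_of_nonneg_right hL hδ
  rw [abs_le]
  constructor
  · nlinarith
  · have h4 : A * (1 + 2 * δ) ≤ (1 + ε) * (1 + 2 * δ) :=
      mul_le_mul_of_nonneg_right (by linarith) (by linarith)
    have h5 : ε * δ ≤ 1 * δ := mul_le_mul_of_nonneg_right (by linarith) hδ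
    nlinarith

theorem dg_lab (hX : X.Ok C c ε) (hS : Sm X.P.L C c X.ρ) (z : ℤ) :
    X.dg X.w1 (Sum.inr (Sum.inl z)) ≤ 983 / 1000 := by
  have hF := hX.lab z
  have hzero : ∀ e : Ed X.P, (Sum.inr (Sum.inl z) : Vt) ∉ Sv X.P e →
      (((univ.filter (fun j : Fin X.P.L => e.2 j = z)).card : ℕ) : ℝ) = 0 := by
    intro e he
    rw [Nat.cast_eq_zero, Finset.card_eq_zero, Finset.filter_eq_empty_iff]
    intro i _ hi
    exact he (mem_Sv_lab.2 ⟨i, hi⟩)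
  have hFe := degb_F X (fun e => (((univ.filter (fun j : Fin X.P.L =>
    e.2 j = z)).card : ℕ) : ℝ)) (Sum.inr (Sum.inl z)) hzero
  rw [hFe] at hF
  have hlow : ∑ e ∈ X.VE.filter (fun e => (Sum.inr (Sum.inl z) : Vt) ∈ Sv X.P e),
      X.W e.1 e.2 ≤
      ∑ e ∈ (EE X.P).filter (fun e => (Sum.inr (Sum.inl z) : Vt) ∈ Sv X.P e),
      X.W e.1 e.2 * (((univ.filter (fun j : Fin X.P.L => e.2 j = z)).card : ℕ) : ℝ) := by
    refine le_trans (Finset.sum_le_sum (fun e he => ?_))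
      (Finset.sum_le_sum_of_subset_of_nonneg (f := fun e : Ed X.P => X.W e.1 e.2 *
        (((univ.filter (fun j : Fin X.P.L => e.2 j = z)).card : ℕ) : ℝ)) ?_ ?_)
    · obtain ⟨_, he2⟩ := mem_filter.1 he
      obtain ⟨j, hj⟩ := mem_Sv_lab.1 he2
      have h1 : 1 ≤ (univ.filter (fun j : Fin X.P.L => e.2 j = z)).card :=
        Finset.card_pos.2 ⟨j, mem_filter.2 ⟨mem_univ _, hj⟩⟩
      have h2 : (1 : ℝ) ≤ (((univ.filter (fun j : Fin X.P.L => e.2 j = z)).card : ℕ) : ℝ) := by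
        exact_mod_cast h1
      calc X.W e.1 e.2 = X.W e.1 e.2 * 1 := (mul_one _).symm
        _ ≤ _ := mul_le_mul_of_nonneg_left h2 (hX.nonneg _ _)
    · intro e he
      obtain ⟨he1, he2⟩ := mem_filter.1 he
      exact mem_filter.2 ⟨(mem_VE.1 he1).1, he2⟩
    · intro e _ _
      exact mul_nonneg (hX.nonneg _ _) (Nat.cast_nonneg _)
  obtain ⟨_, _, h3⟩ := degb_dg hX hS (Sum.inr (Sum.inl z))
  refine h3.trans ?_
  have h4 := hlow.trans hF
  nlinarith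

end Cx

end Pool.Agent.PGo.M
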