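import Pool.Agent.PGo.M.Anc

/-!
# PGo-M-TLowB: number of the places with a suitable anchor

PLAN. For `u` with `n ≤ 5 u` and `20 u ≤ 9 n` the vertex `v = 2 u + 1 < n` is not special and has
`anc n v = 3 n - u`, so `51 n ≤ 20 anc`, `5 anc ≤ 14 n`. There are at least `n/4 - 1` such `u`
(`Icc ((n+4)/5) (9n/20)`). Each `v` is `vx (v % g) j` for some `j` (`Par.exists_vx_mod`), `v % g < g`;
different `v` give different pairs. At most `L` pairs `(r, j)` have `r` not good (`good_all_but`).
`n/4 - 1 - L ≥ n/5`.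
-/
set_option autoImplicit false

noncomputable section

namespace Pool.Agent.PGo.M

open Finset Pool.Agent.PGr Pool.Agent.PGo
open scoped Classical

variable {P : Par}

theorem pos_count (h : P.Ok) (hn : 100 * (P.L + 1) ≤ P.n) :
    (P.n : ℝ) / 5 ≤ (((range P.g ×ˢ (univ : Finset (Fin P.L))).filter (fun a => P.good a.1 ∧
      51 * (P.n : ℤ) ≤ 20 * anc P.n (P.vx a.1 a.2) ∧
      5 * anc P.n (P.vx a.1 a.2) ≤ 14 * (P.n : ℤ))).card : ℝ) := by
  set A := ((range P.g ×ˢ (univ : Finset (Fin P.L))).filter (fun a => P.good a.1 ∧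
      51 * (P.n : ℤ) ≤ 20 * anc P.n (P.vx a.1 a.2) ∧
      5 * anc P.n (P.vx a.1 a.2) ≤ 14 * (P.n : ℤ))) with hA
  set B := ((range P.g ×ˢ (univ : Finset (Fin P.L))).filter (fun a => ¬ P.good a.1)) with hB
  haveI : Nonempty (Fin P.L) := ⟨⟨0, h.L_pos⟩⟩
  have hj : ∀ v : ℕ, ∃ j : Fin P.L, v < P.n → P.vx (v % P.g) j = v := by
    intro v
    by_cases hv : v < P.n
    · obtain ⟨j, hj, he⟩ := Par.exists_vx_mod h hv
      exact ⟨⟨j, hj⟩, fun _ => he⟩
    · exact ⟨Classical.arbitrary _, fun h' => absurd h' hv⟩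
  choose J hJ using hj
  have hlt : ∀ u ∈ Icc ((P.n + 4) / 5) (9 * P.n / 20), 2 * u + 1 < P.n := by
    intro u hu
    rw [mem_Icc] at hu
    omega
  have h1 : (Icc ((P.n + 4) / 5) (9 * P.n / 20)).card ≤ (A ∪ B).card := by
    refine card_le_card_of_injOn (fun u => ((2 * u + 1) % P.g, J (2 * u + 1))) ?_ ?_
    · intro u hu
      have hu1 := hlt u (mem_coe.1 hu)
      have hu2 := mem_Icc.1 (mem_coe.1 hu)
      have e := hJ _ hu1
      have hm : ((2 * u + 1) % P.g, J (2 * u + 1)) ∈
          range P.g ×ˢ (univ : Finset (Fin P.L)) :=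
        mem_product.2 ⟨mem_range.2 (Nat.mod_lt _ h.g_pos), mem_univ _⟩
      refine mem_coe.2 (mem_union.2 ?_)
      by_cases hg : P.good ((2 * u + 1) % P.g)
      · left
        rw [hA, mem_filter]
        refine ⟨hm, hg, ?_⟩
        change 51 * (P.n : ℤ) ≤ 20 * anc P.n (P.vx ((2 * u + 1) % P.g) (J (2 * u + 1))) ∧
          5 * anc P.n (P.vx ((2 * u + 1) % P.g) (J (2 * u + 1))) ≤ 14 * (P.n : ℤ)
        rw [e]
        unfold anc
        rw [if_neg (by omega), if_neg (by omega)]
        omega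
      · right
        rw [hB, mem_filter]
        exact ⟨hm, hg⟩
    · intro u hu u' hu' he
      have e1 := hJ _ (hlt u (mem_coe.1 hu))
      have e2 := hJ _ (hlt u' (mem_coe.1 hu'))
      have e3 : (2 * u + 1) % P.g = (2 * u' + 1) % P.g := congrArg Prod.fst he
      have e4 : J (2 * u + 1) = J (2 * u' + 1) := congrArg Prod.snd he
      rw [e3, e4, e2] at e1
      omega
  have h2 : B.card ≤ P.L := by
    rcases B.eq_empty_or_nonempty with h0 | ⟨⟨r, i⟩, h0⟩
    · rw [h0, card_empty]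
      exact Nat.zero_le _
    · have hr := mem_filter.1 h0
      have hr1 := mem_range.1 (mem_product.1 hr.1).1
      have hs : B ⊆ ({r} : Finset ℕ) ×ˢ (univ : Finset (Fin P.L)) := by
        rintro ⟨r', i'⟩ h0'
        have hr' := mem_filter.1 h0'
        have hr1' := mem_range.1 (mem_product.1 hr'.1).1
        exact mem_product.2 ⟨mem_singleton.2 (good_all_but h hr1' hr1 hr'.2 hr.2), mem_univ _⟩
      have := card_le_card hs
      rw [card_product, card_singleton, card_univ, Fintype.card_fin, Nat.one_mul] at this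
      exact this
  have h3 := h1.trans (card_union_le A B)
  rw [Nat.card_Icc] at h3
  have h4 : P.n ≤ 5 * A.card := by omega
  have h5 : (P.n : ℝ) ≤ 5 * (A.card : ℝ) := by exact_mod_cast h4
  linarith

end Pool.Agent.PGo.M
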