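import Pool.Agent.PGo.M.TLowA
import Pool.Agent.PGo.M.TLowB

/-!
# PGo-M-TLow: many switches

PLAN. `T P d d''` is mapped by `a ↦ (a.1.1, a.2.2)` to pairs; the fibre over a pair `(r, j)` of `pos_count`
contains `((r, x), (ty P d, j))` for all `x` of `low_fix`: so
`|T| ≥ ∑_{(r,j)} |{x}| ≥ (n/5) (n/100) n^(L-3) = n^(L-1)/500` (`card_eq_sum_card_fiberwise`,
or `card_sigma`/`card_biUnion` with the injection `(r, j, x) ↦ ((r, x), (ty P d, j))`).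
-/
set_option autoImplicit false

noncomputable section

namespace Pool.Agent.PGo.M

open Finset Pool.Agent.PGr Pool.Agent.PGo
open scoped Classical

variable {P : Par}

theorem T_low (h : P.Ok) (hn : 100 * (P.L + 1) ≤ P.n) {d d'' : ℤ} (hd1 : 1 ≤ d)
    (hd2 : d ≤ 2 * (P.n : ℤ)) (hd3 : 19 * (P.n : ℤ) ≤ 20 * d'') (hd4 : 20 * d'' ≤ 21 * (P.n : ℤ)) :
    (P.n : ℝ) ^ (P.L - 1) / 500 ≤ ((T P d d'').card : ℝ) := by
  obtain ⟨S0, hS0⟩ : ∃ S0 : Finset (ℕ × Fin P.L), S0 =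
      (range P.g ×ˢ (univ : Finset (Fin P.L))).filter (fun a => P.good a.1 ∧
      51 * (P.n : ℤ) ≤ 20 * anc P.n (P.vx a.1 a.2) ∧
      5 * anc P.n (P.vx a.1 a.2) ≤ 14 * (P.n : ℤ)) := ⟨_, rfl⟩
  obtain ⟨F, hF⟩ : ∃ F : ℕ × Fin P.L → Finset (Fin P.L → ℤ), ∀ a, F a =
      P.box.filter (fun x => Reg P a.1 a.2 x ∧
      Reg P a.1 a.2 (sw P (ty P d) a.1 a.2 x) ∧ P.df a.1 x (ty P d, a.2) = d ∧
      P.df a.1 (sw P (ty P d) a.1 a.2 x) (ty P d, a.2) = d'') := ⟨_, fun _ => rfl⟩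
  have h1 : (P.n : ℝ) / 5 ≤ (S0.card : ℝ) := by
    rw [hS0]
    exact pos_count h hn
  have h2 : ∀ a ∈ S0, (P.n : ℝ) / 100 * (P.n : ℝ) ^ (P.L - 3) ≤ ((F a).card : ℝ) := by
    intro a ha
    rw [hS0, mem_filter] at ha
    rw [hF]
    exact low_fix h hn a.2 ha.2.1 ha.2.2.1 ha.2.2.2 hd1 hd2 hd3 hd4
  have h3 : (S0.sigma F).card ≤ (T P d d'').card := by
    refine card_le_card_of_injOn (fun b => ((b.1.1, b.2), (ty P d, b.1.2))) ?_ ?_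
    · rintro ⟨⟨r, j⟩, x⟩ hb
      rw [mem_coe, mem_sigma, hS0, mem_filter, mem_product, mem_range, hF, mem_filter] at hb
      obtain ⟨⟨⟨hr, -⟩, -⟩, hx, k1, k2, k3, k4⟩ := hb
      rw [mem_coe, mem_T]
      exact ⟨mem_EE.mpr ⟨hr, hx⟩, rfl, k1, k2, k3, k4⟩
    · rintro ⟨⟨r, j⟩, x⟩ _ ⟨⟨r', j'⟩, x'⟩ _ he
      simp only [Prod.mk.injEq, true_and] at he
      obtain ⟨⟨e1, e2⟩, e3⟩ := he
      subst e1 e2 e3
      rfl
  have h4 : (S0.card : ℝ) * ((P.n : ℝ) / 100 * (P.n : ℝ) ^ (P.L - 3)) ≤ ((S0.sigma F).card : ℝ) := by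
    rw [card_sigma, Nat.cast_sum, ← nsmul_eq_mul]
    exact card_nsmul_le_sum S0 _ _ h2
  have h5 : ((S0.sigma F).card : ℝ) ≤ ((T P d d'').card : ℝ) := by exact_mod_cast h3
  have hL : P.L - 1 = (P.L - 3) + 2 := by
    have := h.adm.three
    omega
  have h6 : (0 : ℝ) ≤ (P.n : ℝ) / 100 * (P.n : ℝ) ^ (P.L - 3) := by positivity
  calc (P.n : ℝ) ^ (P.L - 1) / 500
      = (P.n : ℝ) / 5 * ((P.n : ℝ) / 100 * (P.n : ℝ) ^ (P.L - 3)) := by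
        rw [hL, pow_add]
        ring
    _ ≤ (S0.card : ℝ) * ((P.n : ℝ) / 100 * (P.n : ℝ) ^ (P.L - 3)) :=
        mul_le_mul_of_nonneg_right h1 h6
    _ ≤ _ := h4.trans h5

end Pool.Agent.PGo.M
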