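import Pool.Agent.PGo.M.PairA

/-!
# PGo-M-TUp: upper bounds for the numbers of switches

PLAN. The type is `t = ty P d`. For each place `j` (`L` choices) `cnt2` with the places `j, prv j`
(`prv_ne`), `R = range g`, `|R| ≤ n`:
* `T`: `t = false`: `|x j - x (nxt j)| = d` leaves 2 values of `x j`, then
  `|anc + x (prv j) - x j - x (nxt j)| = d''` leaves 2 values of `x (prv j)`; `t = true`: `|x j - anc| = d`,
  `|x (nxt j) + x (prv j) - x j - anc| = d''`: `K = 4` (`nxt j` is neither `j` nor `prv j`).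
* `Tz`: the label after the switch is `z`: `x (prv j) = z + x j - anc` respectively
  `x (prv j) = z + x j - x (nxt j)`: `K = 2`.
`n^(L-2) n = n^(L-1)` (`L ≥ 3`). `da`, `dt`, `tgt`, `sw_self`, `sw_ne`, `df_true`, `df_false`.
-/
set_option autoImplicit false

noncomputable section

namespace Pool.Agent.PGo.M

open Finset Pool.Agent.PGr Pool.Agent.PGo
open scoped Classical

variable {P : Par}

private theorem four_sol (S : Finset (ℤ × ℤ)) (u d d' : ℤ) (w : ℤ → ℤ)
    (h : ∀ y ∈ S, |y.1 - u| = d ∧ |y.2 - w y.1| = d') : S.card ≤ 4 := by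
  have h1 : S ⊆ ({(u + d, w (u + d) + d'), (u + d, w (u + d) - d'), (u - d, w (u - d) + d'),
      (u - d, w (u - d) - d')} : Finset (ℤ × ℤ)) := by
    rintro ⟨y1, y2⟩ hy
    obtain ⟨h2, h3⟩ := h _ hy
    have h2' : |y1 - u| = d := h2
    have h3' : |y2 - w y1| = d' := h3
    have e1 : y1 = u + d ∨ y1 = u - d := by
      rcases abs_cases (y1 - u) with h4 | h4 <;> omega
    have e2 : y2 = w y1 + d' ∨ y2 = w y1 - d' := by
      rcases abs_cases (y2 - w y1) with h4 | h4 <;> omega
    simp only [mem_insert, mem_singleton, Prod.mk.injEq]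
    rcases e1 with e1 | e1 <;> rcases e2 with e2 | e2 <;> rw [e1] at e2 <;> simp [e1, e2]
  exact (card_le_card h1).trans card_le_four

private theorem two_sol' (S : Finset (ℤ × ℤ)) (u d : ℤ) (w : ℤ → ℤ)
    (h : ∀ y ∈ S, |y.1 - u| = d ∧ y.2 = w y.1) : S.card ≤ 2 := by
  have h1 : S ⊆ ({(u + d, w (u + d)), (u - d, w (u - d))} : Finset (ℤ × ℤ)) := by
    rintro ⟨y1, y2⟩ hy
    obtain ⟨h2, h3⟩ := h _ hy
    have h2' : |y1 - u| = d := h2
    have h3' : y2 = w y1 := h3
    have e1 : y1 = u + d ∨ y1 = u - d := by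
      rcases abs_cases (y1 - u) with h4 | h4 <;> omega
    simp only [mem_insert, mem_singleton, Prod.mk.injEq]
    rcases e1 with e1 | e1 <;> rw [e1] at h3' <;> simp [e1, h3']
  exact (card_le_card h1).trans card_le_two

private theorem tup_gen (h : P.Ok) (S : Finset (Tp P)) (t : Bool) (K : ℕ)
    (A : Fin P.L → Finset (Ed P)) (hS : ∀ a ∈ S, a.2.1 = t ∧ a.1 ∈ A a.2.2)
    (hA : ∀ j, A j ⊆ range P.g ×ˢ P.box)
    (hK : ∀ j, ∀ r ∈ range P.g, ∀ x ∈ P.box, (((ZB P.n) ×ˢ (ZB P.n)).filter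
      (fun y => (r, Function.update (Function.update x j y.1) (prv j) y.2) ∈ A j)).card ≤ K) :
    (S.card : ℝ) ≤ K * P.L * 3 ^ P.L * (P.n : ℝ) ^ (P.L - 1) := by
  have h1 : S ⊆ (univ : Finset (Fin P.L)).biUnion
      (fun j => (A j).image (fun e => ((e, (t, j)) : Tp P))) := by
    rintro ⟨e, t', j⟩ ha
    obtain ⟨h2, h3⟩ := hS _ ha
    have h2' : t' = t := h2
    have h3' : e ∈ A j := h3
    rw [mem_biUnion]
    refine ⟨j, mem_univ _, mem_image.2 ⟨e, h3', ?_⟩⟩
    rw [h2']
  have h2 : S.card ≤ ∑ j : Fin P.L, (A j).card :=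
    (card_le_card h1).trans (card_biUnion_le.trans (sum_le_sum fun j _ => card_image_le))
  have hg : (P.g : ℝ) ≤ P.n := by exact_mod_cast h.g_le_n
  have hL : P.L - 1 = P.L - 2 + 1 := by have := h.adm.three; omega
  have h3 : ∀ j : Fin P.L, ((A j).card : ℝ) ≤ K * 3 ^ P.L * (P.n : ℝ) ^ (P.L - 1) := by
    intro j
    have h4 := cnt2 (range P.g) (A j) (hA j) (prv_ne h j).symm K (hK j)
    rw [card_range] at h4
    refine h4.trans ?_
    have h5 : (0 : ℝ) ≤ K * 3 ^ P.L * (P.n : ℝ) ^ (P.L - 2) := by positivity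
    calc (K : ℝ) * P.g * 3 ^ P.L * (P.n : ℝ) ^ (P.L - 2)
        = (P.g : ℝ) * (K * 3 ^ P.L * (P.n : ℝ) ^ (P.L - 2)) := by ring
      _ ≤ (P.n : ℝ) * (K * 3 ^ P.L * (P.n : ℝ) ^ (P.L - 2)) := mul_le_mul_of_nonneg_right hg h5
      _ = K * 3 ^ P.L * ((P.n : ℝ) ^ (P.L - 2) * P.n) := by ring
      _ = K * 3 ^ P.L * (P.n : ℝ) ^ (P.L - 1) := by rw [← pow_succ, ← hL]
  calc (S.card : ℝ) ≤ ((∑ j : Fin P.L, (A j).card : ℕ) : ℝ) := by exact_mod_cast h2
    _ = ∑ j : Fin P.L, ((A j).card : ℝ) := by push_cast; rfl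
    _ ≤ ∑ j : Fin P.L, (K : ℝ) * 3 ^ P.L * (P.n : ℝ) ^ (P.L - 1) := sum_le_sum fun j _ => h3 j
    _ = _ := by
      rw [sum_const, card_univ, Fintype.card_fin, nsmul_eq_mul]
      ring

private theorem tup_vals (h : P.Ok) (j : Fin P.L) (x : Fin P.L → ℤ) (y : ℤ × ℤ) :
    (Function.update (Function.update x j y.1) (prv j) y.2) j = y.1 ∧
    (Function.update (Function.update x j y.1) (prv j) y.2) (prv j) = y.2 ∧
    (Function.update (Function.update x j y.1) (prv j) y.2) (nxt j) = x (nxt j) := by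
  refine ⟨?_, ?_, ?_⟩
  · rw [Function.update_of_ne (prv_ne h j).symm, Function.update_self]
  · rw [Function.update_self]
  · rw [Function.update_of_ne (nxt_ne_prv h j), Function.update_of_ne (nxt_ne h j)]

theorem T_up (h : P.Ok) (d d'' : ℤ) :
    ((T P d d'').card : ℝ) ≤ C4 P.L * (P.n : ℝ) ^ (P.L - 1) := by
  have h1 := tup_gen h (T P d d'') (ty P d) 4
    (fun j => (EE P).filter (fun e => P.df e.1 e.2 (ty P d, j) = d ∧
      P.df e.1 (sw P (ty P d) e.1 j e.2) (ty P d, j) = d'')) ?_ ?_ ?_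
  · refine h1.trans (le_of_eq ?_)
    unfold C4
    push_cast
    ring
  · rintro ⟨e, t', j⟩ ha
    obtain ⟨h2, h3, -, -, h4, h5⟩ := mem_T.1 ha
    have h3' : t' = ty P d := h3
    subst h3'
    exact ⟨rfl, mem_filter.2 ⟨h2, h4, h5⟩⟩
  · intro j e he
    exact (mem_filter.1 he).1
  · intro j r _ x _
    obtain ⟨v1, hv1⟩ : ∃ v, v = anc P.n (P.vx r j) := ⟨_, rfl⟩
    cases ty P d with
    | true =>
      refine four_sol _ v1 d d'' (fun y1 => y1 + v1 - x (nxt j)) ?_
      intro y hy
      obtain ⟨e1, e2, e3⟩ := tup_vals h j x y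
      obtain ⟨-, h2, h3⟩ := mem_filter.1 (mem_filter.1 hy).2
      have h2' : |(Function.update (Function.update x j y.1) (prv j) y.2) j -
        anc P.n (P.vx r j)| = d := h2
      have h3' : |(sw P true r j (Function.update (Function.update x j y.1) (prv j) y.2)) j -
        anc P.n (P.vx r j)| = d'' := h3
      unfold sw at h3'
      rw [Function.update_self, if_pos rfl, e1, e2, e3, ← hv1] at h3'
      rw [e1, ← hv1] at h2'
      refine ⟨h2', ?_⟩
      rw [← h3']
      congr 1
      ring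
    | false =>
      refine four_sol _ (x (nxt j)) d d'' (fun y1 => y1 + x (nxt j) - v1) ?_
      intro y hy
      obtain ⟨e1, e2, e3⟩ := tup_vals h j x y
      obtain ⟨-, h2, h3⟩ := mem_filter.1 (mem_filter.1 hy).2
      have h2' : |(Function.update (Function.update x j y.1) (prv j) y.2) j -
        (Function.update (Function.update x j y.1) (prv j) y.2) (nxt j)| = d := h2
      have h3' : |(sw P false r j (Function.update (Function.update x j y.1) (prv j) y.2)) j -
        (sw P false r j (Function.update (Function.update x j y.1) (prv j) y.2)) (nxt j)| = d'' := h3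
      unfold sw at h3'
      rw [Function.update_self, Function.update_of_ne (nxt_ne h j), if_neg (by simp), e1, e2, e3,
        ← hv1] at h3'
      rw [e1, e3] at h2'
      refine ⟨h2', ?_⟩
      rw [← h3']
      congr 1
      ring

theorem Tz_up (h : P.Ok) (d z : ℤ) :
    ((Tz P d z).card : ℝ) ≤ 2 * P.L * 3 ^ P.L * (P.n : ℝ) ^ (P.L - 1) := by
  have h1 := tup_gen h (Tz P d z) (ty P d) 2
    (fun j => (EE P).filter (fun e => P.df e.1 e.2 (ty P d, j) = d ∧
      (sw P (ty P d) e.1 j e.2) j = z)) ?_ ?_ ?_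
  · refine h1.trans (le_of_eq ?_)
    push_cast
    ring
  · rintro ⟨e, t', j⟩ ha
    obtain ⟨h2, h3, h4, h5⟩ := mem_Tz.1 ha
    have h3' : t' = ty P d := h3
    subst h3'
    exact ⟨rfl, mem_filter.2 ⟨h2, h4, h5⟩⟩
  · intro j e he
    exact (mem_filter.1 he).1
  · intro j r _ x _
    obtain ⟨v1, hv1⟩ : ∃ v, v = anc P.n (P.vx r j) := ⟨_, rfl⟩
    cases ty P d with
    | true =>
      refine two_sol' _ v1 d (fun y1 => z + y1 - x (nxt j)) ?_
      intro y hy
      obtain ⟨e1, e2, e3⟩ := tup_vals h j x y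
      obtain ⟨-, h2, h3⟩ := mem_filter.1 (mem_filter.1 hy).2
      have h2' : |(Function.update (Function.update x j y.1) (prv j) y.2) j -
        anc P.n (P.vx r j)| = d := h2
      have h3' : (sw P true r j (Function.update (Function.update x j y.1) (prv j) y.2)) j = z := h3
      unfold sw at h3'
      rw [Function.update_self, if_pos rfl, e1, e2, e3] at h3'
      rw [e1, ← hv1] at h2'
      refine ⟨h2', ?_⟩
      rw [← h3']
      ring
    | false =>
      refine two_sol' _ (x (nxt j)) d (fun y1 => z + y1 - v1) ?_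
      intro y hy
      obtain ⟨e1, e2, e3⟩ := tup_vals h j x y
      obtain ⟨-, h2, h3⟩ := mem_filter.1 (mem_filter.1 hy).2
      have h2' : |(Function.update (Function.update x j y.1) (prv j) y.2) j -
        (Function.update (Function.update x j y.1) (prv j) y.2) (nxt j)| = d := h2
      have h3' : (sw P false r j (Function.update (Function.update x j y.1) (prv j) y.2)) j = z := h3
      unfold sw at h3'
      rw [Function.update_self, if_neg (by simp), e1, e2, ← hv1] at h3'
      rw [e1, e3] at h2'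
      refine ⟨h2', ?_⟩
      rw [← h3']
      ring

end Pool.Agent.PGo.M
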