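import Pool.Agent.PGo.M.BadC
import Pool.Agent.PGo.M.NotBad
import Pool.Agent.PGo.M.TLow
import Pool.Agent.PGo.M.TUp

/-!
# PGo-M-QLow: the numbers of the valid switches

PLAN. `Tdd_eq`: `Tdd d d'' ⊆ T d d''` (for `a ∈ Tv`, `da a = d`: `a.2.1 = ty d`). `Q_le`: `T_up`, division by
`n^(L-1) > 0`. `Q_few`: `d ∈ D1`. For `d'' ∈ J0` let `B d''` be the set of the `a ∈ T d d''` with `a.1 ∈ Bad` or
`(tgt a).2 a.2.2 ∈ BZ`. By `mem_VE_of_T` `T d d'' \ B d'' ⊆ Tdd d d''` (`da a = d`, `dt a = d'' ∈ J0`). The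
`B d''` are disjoint (`dt a = d''`), and their union is contained in
`{a | a.1 ∈ Bad, d ∈ differences of a.1, a.2.1 = ty d}` (at most `L` places for each edge, `bad_dif`:
`L Cb ρ n^L`) `∪ ⋃_{z ∈ BZ} Tz d z` (`Tz_up`, `BZ_card`: `2 ρ n * 2 L 3^L n^(L-1) ≤ L Cb ρ n^L`). So
`∑_{d'' ∈ J0} |B d''| ≤ 2 L Cb ρ n^L`. If `Q d d'' < 1/1000` then, by `T_low` (`|T| ≥ n^(L-1)/500`, `Ok.n_big`),
`|B d''| ≥ n^(L-1)/1000`. Hence the number of these `d''` is at most `2000 L Cb ρ n ≤ 9 n/1000 ≤ |J0|/10`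
(`Sm.s4`, `J0_card`).
-/
set_option autoImplicit false

noncomputable section

namespace Pool.Agent.PGo.M

open Finset Pool.Agent.PGr Pool.Agent.PGo
open scoped Classical

namespace Cx

variable {X : Cx} {C c ε : ℝ}

theorem Q_nonneg (d d'' : ℤ) : 0 ≤ X.Q d d'' := by
  unfold Q
  positivity

theorem Tdd_sub (d d'' : ℤ) : X.Tdd d d'' ⊆ T X.P d d'' := by
  intro a ha
  obtain ⟨h1, h2, h3⟩ := mem_Tdd.1 ha
  obtain ⟨k1, -, k3, k4, k5, -⟩ := mem_Tv.1 h1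
  refine mem_T.2 ⟨(mem_VE.1 k1).1, ?_, k4, k5, h2, h3⟩
  rw [← h2]
  exact k3

theorem Q_le (hX : X.Ok C c ε) (d d'' : ℤ) : X.Q d d'' ≤ C4 X.P.L := by
  have hn : (0 : ℝ) < (X.P.n : ℝ) ^ (X.P.L - 1) := pow_pos hX.n_pos _
  unfold Q
  rw [div_le_iff₀ hn]
  have h1 : ((X.Tdd d d'').card : ℝ) ≤ ((T X.P d d'').card : ℝ) := by
    exact_mod_cast card_le_card (Tdd_sub d d'')
  exact h1.trans (T_up hX.ok d d'')

private theorem qlow_pow (hX : X.Ok C c ε) :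
    (X.P.n : ℝ) ^ X.P.L = (X.P.n : ℝ) * (X.P.n : ℝ) ^ (X.P.L - 1) := by
  have h1 := hX.ok.L_pos
  rw [← pow_succ']
  congr 1
  omega

private theorem qlow_bad (hX : X.Ok C c ε) {d : ℤ} (hd : d ∈ X.D1) :
    ((((X.Bad.filter (fun e => (Sum.inr (Sum.inr d) : Vt) ∈ Sv X.P e)) ×ˢ
      (univ : Finset (Fin X.P.L))).image (fun b => ((b.1, (ty X.P d, b.2)) : Tp X.P)) ∪
      X.BZ.biUnion (fun z => Tz X.P d z)).card : ℝ) ≤
      2 * X.P.L * Cb X.P.L * X.ρ * (X.P.n : ℝ) * (X.P.n : ℝ) ^ (X.P.L - 1) := by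
  have hn := hX.n_pos
  have hN : (0 : ℝ) < (X.P.n : ℝ) ^ (X.P.L - 1) := pow_pos hn _
  have h1 : ((((X.Bad.filter (fun e => (Sum.inr (Sum.inr d) : Vt) ∈ Sv X.P e)) ×ˢ
      (univ : Finset (Fin X.P.L))).image (fun b => ((b.1, (ty X.P d, b.2)) : Tp X.P))).card : ℝ) ≤
      X.P.L * Cb X.P.L * X.ρ * (X.P.n : ℝ) * (X.P.n : ℝ) ^ (X.P.L - 1) := by
    have h2 : ((((X.Bad.filter (fun e => (Sum.inr (Sum.inr d) : Vt) ∈ Sv X.P e)) ×ˢ
        (univ : Finset (Fin X.P.L))).image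
          (fun b => ((b.1, (ty X.P d, b.2)) : Tp X.P))).card : ℝ) ≤
        ((X.Bad.filter (fun e => (Sum.inr (Sum.inr d) : Vt) ∈ Sv X.P e)).card : ℝ) * X.P.L := by
      have h3 := card_image_le (s := (X.Bad.filter
        (fun e => (Sum.inr (Sum.inr d) : Vt) ∈ Sv X.P e)) ×ˢ (univ : Finset (Fin X.P.L)))
        (f := fun b => ((b.1, (ty X.P d, b.2)) : Tp X.P))
      rw [card_product, card_univ, Fintype.card_fin] at h3
      exact_mod_cast h3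
    refine h2.trans ?_
    have h4 := mul_le_mul_of_nonneg_right (bad_dif hX hd)
      (Nat.cast_nonneg (α := ℝ) X.P.L)
    refine h4.trans (le_of_eq ?_)
    rw [qlow_pow hX]
    ring
  have h5 : ((X.BZ.biUnion (fun z => Tz X.P d z)).card : ℝ) ≤
      X.P.L * Cb X.P.L * X.ρ * (X.P.n : ℝ) * (X.P.n : ℝ) ^ (X.P.L - 1) := by
    have h6 : ((X.BZ.biUnion (fun z => Tz X.P d z)).card : ℝ) ≤
        ∑ z ∈ X.BZ, ((Tz X.P d z).card : ℝ) := by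
      exact_mod_cast card_biUnion_le
    have h7 := Finset.sum_le_card_nsmul X.BZ (fun z => ((Tz X.P d z).card : ℝ)) _
      (fun z _ => Tz_up hX.ok d z)
    rw [nsmul_eq_mul] at h7
    refine h6.trans (h7.trans ?_)
    have h8 : (0 : ℝ) ≤ 2 * X.P.L * 3 ^ X.P.L * (X.P.n : ℝ) ^ (X.P.L - 1) := by positivity
    refine (mul_le_mul_of_nonneg_right (BZ_card hX) h8).trans ?_
    have hL : (1 : ℝ) ≤ X.P.L := by exact_mod_cast hX.ok.L_pos
    have h9 : (4 : ℝ) * 3 ^ X.P.L ≤ Cb X.P.L := by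
      unfold Cb
      have h10 : (0 : ℝ) < 3 ^ X.P.L := by positivity
      have h11 : (1 : ℝ) ≤ (X.P.L : ℝ) ^ 2 := one_le_pow₀ hL
      nlinarith
    have h12 : (0 : ℝ) ≤ X.P.L * X.ρ * (X.P.n : ℝ) * (X.P.n : ℝ) ^ (X.P.L - 1) := by
      have := hX.ρ_pos.le
      positivity
    have h13 := mul_le_mul_of_nonneg_left h9 h12
    calc 2 * X.ρ * (X.P.n : ℝ) * (2 * X.P.L * 3 ^ X.P.L * (X.P.n : ℝ) ^ (X.P.L - 1))
        = X.P.L * X.ρ * (X.P.n : ℝ) * (X.P.n : ℝ) ^ (X.P.L - 1) * (4 * 3 ^ X.P.L) := by ring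
      _ ≤ X.P.L * X.ρ * (X.P.n : ℝ) * (X.P.n : ℝ) ^ (X.P.L - 1) * Cb X.P.L := h13
      _ = _ := by ring
  have h14 : ((((X.Bad.filter (fun e => (Sum.inr (Sum.inr d) : Vt) ∈ Sv X.P e)) ×ˢ
      (univ : Finset (Fin X.P.L))).image (fun b => ((b.1, (ty X.P d, b.2)) : Tp X.P)) ∪
      X.BZ.biUnion (fun z => Tz X.P d z)).card : ℝ) ≤
      ((((X.Bad.filter (fun e => (Sum.inr (Sum.inr d) : Vt) ∈ Sv X.P e)) ×ˢ
      (univ : Finset (Fin X.P.L))).image (fun b => ((b.1, (ty X.P d, b.2)) : Tp X.P))).card : ℝ) +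
      ((X.BZ.biUnion (fun z => Tz X.P d z)).card : ℝ) := by
    exact_mod_cast card_union_le _ _
  linarith

theorem Q_few (hX : X.Ok C c ε) (hS : Sm X.P.L C c X.ρ) {d : ℤ} (hd : d ∈ X.D1) :
    10 * (X.J0.filter (fun d'' => X.Q d d'' < 1 / 1000)).card ≤ X.J0.card := by
  have hn := hX.n_pos
  have hN : (0 : ℝ) < (X.P.n : ℝ) ^ (X.P.L - 1) := pow_pos hn _
  obtain ⟨B, hB⟩ : ∃ B : ℤ → Finset (Tp X.P), ∀ d'', B d'' =
      (T X.P d d'').filter (fun a => a.1 ∈ X.Bad ∨ (tgt X.P a).2 a.2.2 ∈ X.BZ) :=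
    ⟨_, fun _ => rfl⟩
  set F := X.J0.filter (fun d'' => X.Q d d'' < 1 / 1000) with hF
  obtain ⟨hd1, hd2⟩ := (mem_D1.1 hd).1.1.2
  -- every bad set is large
  have h1 : ∀ d'' ∈ F, (X.P.n : ℝ) ^ (X.P.L - 1) / 1000 ≤ ((B d'').card : ℝ) := by
    intro d'' hd''
    rw [hF, mem_filter] at hd''
    obtain ⟨hJ, hQ⟩ := hd''
    obtain ⟨-, hJ1, hJ2⟩ := mem_J0.1 hJ
    have h2 := T_low hX.ok hX.n_big hd1 hd2 hJ1 hJ2
    have h3 : T X.P d d'' ⊆ X.Tdd d d'' ∪ B d'' := by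
      intro a ha
      by_cases hb : a.1 ∈ X.Bad ∨ (tgt X.P a).2 a.2.2 ∈ X.BZ
      · refine mem_union_right _ ?_
        rw [hB, mem_filter]
        exact ⟨ha, hb⟩
      · push Not at hb
        obtain ⟨k1, k2⟩ := mem_VE_of_T hX hJ ha hb.1 hb.2
        obtain ⟨-, m2, m3, m4, m5, m6⟩ := mem_T.1 ha
        refine mem_union_left _ (mem_Tdd.2 ⟨mem_Tv.2 ⟨k1, k2, ?_, m3, m4, ?_⟩, m5, m6⟩)
        · rw [m5]
          exact m2
        · rw [m6]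
          exact hJ
    have h4 : ((T X.P d d'').card : ℝ) ≤ ((X.Tdd d d'').card : ℝ) + ((B d'').card : ℝ) := by
      exact_mod_cast (card_le_card h3).trans (card_union_le _ _)
    have h5 : ((X.Tdd d d'').card : ℝ) < 1 / 1000 * (X.P.n : ℝ) ^ (X.P.L - 1) := by
      unfold Q at hQ
      rwa [div_lt_iff₀ hN] at hQ
    linarith
  -- the union is small
  have h6 : (∑ d'' ∈ F, (B d'').card) ≤
      (((X.Bad.filter (fun e => (Sum.inr (Sum.inr d) : Vt) ∈ Sv X.P e)) ×ˢ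
      (univ : Finset (Fin X.P.L))).image (fun b => ((b.1, (ty X.P d, b.2)) : Tp X.P)) ∪
      X.BZ.biUnion (fun z => Tz X.P d z)).card := by
    rw [← card_biUnion]
    · refine card_le_card ?_
      intro a ha
      rw [mem_biUnion] at ha
      obtain ⟨d'', -, ha⟩ := ha
      rw [hB, mem_filter] at ha
      obtain ⟨ha, hb⟩ := ha
      obtain ⟨m1, m2, -, -, m5, -⟩ := mem_T.1 ha
      rcases hb with hb | hb
      · refine mem_union_left _ (mem_image.2 ⟨(a.1, a.2.2), ?_, ?_⟩)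
        · rw [mem_product, mem_filter]
          exact ⟨⟨hb, mem_Sv_dif.2 ⟨a.2, m5⟩⟩, mem_univ _⟩
        · rw [← m2]
      · refine mem_union_right _ (mem_biUnion.2 ⟨(tgt X.P a).2 a.2.2, hb, ?_⟩)
        exact mem_Tz.2 ⟨m1, m2, m5, rfl⟩
    · intro d1 _ d2 _ hne
      show Disjoint (B d1) (B d2)
      rw [disjoint_left]
      intro a ha1 ha2
      rw [hB, mem_filter] at ha1 ha2
      exact hne ((mem_T.1 ha1.1).2.2.2.2.2.symm.trans (mem_T.1 ha2.1).2.2.2.2.2)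
  have h7 : (F.card : ℝ) * ((X.P.n : ℝ) ^ (X.P.L - 1) / 1000) ≤ ∑ d'' ∈ F, ((B d'').card : ℝ) := by
    rw [← nsmul_eq_mul]
    exact card_nsmul_le_sum F _ _ h1
  have h8 : ∑ d'' ∈ F, ((B d'').card : ℝ) ≤
      2 * X.P.L * Cb X.P.L * X.ρ * (X.P.n : ℝ) * (X.P.n : ℝ) ^ (X.P.L - 1) := by
    refine le_trans ?_ (qlow_bad hX hd)
    exact_mod_cast h6
  have h9 : (F.card : ℝ) ≤ 2000 * X.P.L * Cb X.P.L * X.ρ * (X.P.n : ℝ) := by
    have h10 := h7.trans h8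
    have h11 : (F.card : ℝ) * (X.P.n : ℝ) ^ (X.P.L - 1) ≤
        2000 * X.P.L * Cb X.P.L * X.ρ * (X.P.n : ℝ) * (X.P.n : ℝ) ^ (X.P.L - 1) := by
      linarith
    exact le_of_mul_le_mul_right h11 hN
  have h12 := hS.s4
  have h13 := J0_card hX hS
  have h14 : 2000 * X.P.L * Cb X.P.L * X.ρ * (X.P.n : ℝ) ≤ 9 / 1000 * (X.P.n : ℝ) := by
    refine mul_le_mul_of_nonneg_right ?_ hn.le
    linarith
  have h15 : (10 : ℝ) * (F.card : ℝ) ≤ (X.J0.card : ℝ) := by linarith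
  exact_mod_cast h15

end Cx

end Pool.Agent.PGo.M
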