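import Pool.Agent.PGo.M.DegB
import Pool.Agent.PGo.M.QLow
import Pool.Agent.PGr.CFlow

/-!
# PGo-M-FlowM: the flow

PLAN. `Pool.Agent.PGr.flow` with `A = D1`, `J = J0` (nonempty by `J0_card`, `Ok.n_pos`), `Q = X.Q`,
`E d = dg w1 d - τ`, `c4 = 1/1000`, `C4 = C4 L`, `ε = 2 Cd ρ` (`|dg w1 d - 1| ≤ Cd ρ` on `D1`, so `|τ - 1| ≤ Cd ρ`
because `τ` is the average over `D1`, nonempty; `Cd ≥ 0`). `∑_{d ∈ D1} E d = 0` by the definition of `τ`.
`|γ d j| ≤ 3 (2 Cd ρ) C4 / ((1/1000)^2 |J0|) ≤ 6 Cd ρ C4 10^6 / (9 n/100) ≤ Cg ρ / n`, `Cg = 300 Cd C4 250000`.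
-/
set_option autoImplicit false

noncomputable section

namespace Pool.Agent.PGo.M

open Finset Pool.Agent.PGr Pool.Agent.PGo
open scoped Classical

namespace Cx

variable {X : Cx} {C c ε : ℝ}

theorem exists_flow (hX : X.Ok C c ε) (hS : Sm X.P.L C c X.ρ) :
    ∃ γ : ℤ → ℤ → ℝ, (∀ d ∈ X.D1, ∀ j ∈ X.J0, |γ d j| ≤ Cg X.P.L C * X.ρ / X.P.n) ∧
      (∀ d ∈ X.D1, ∑ j ∈ X.J0, X.Q d j * γ d j = X.dg X.w1 (Sum.inr (Sum.inr d)) - X.τ) ∧
      (∀ j ∈ X.J0, ∑ d ∈ X.D1, X.Q d j * γ d j = 0) := by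
  set K : ℝ := Cd X.P.L C * X.ρ with hK
  have hρ : 0 < X.ρ := hX.ρ_pos
  have hCb : 0 ≤ Cb X.P.L := by
    unfold Cb
    positivity
  have hCd : 0 ≤ Cd X.P.L C := by
    unfold Cd
    have := hX.C_pos
    positivity
  have hC4 : 0 ≤ C4 X.P.L := by
    unfold C4
    positivity
  have hK0 : 0 ≤ K := mul_nonneg hCd hρ.le
  have hn : (0 : ℝ) < X.P.n := by exact_mod_cast hX.ok.n_pos
  have hJc : 9 * (X.P.n : ℝ) / 100 ≤ (X.J0.card : ℝ) := by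
    have h0 := J0_card hX hS
    linarith
  have hJpos : (0 : ℝ) < X.J0.card := lt_of_lt_of_le (by positivity) hJc
  have hJ : X.J0.Nonempty := by
    rw [← Finset.card_pos]
    exact_mod_cast hJpos
  have hD1 : X.D1.Nonempty := by
    obtain ⟨d, hd⟩ := hJ
    exact ⟨d, (mem_J0.1 hd).1⟩
  have hD1c : (0 : ℝ) < X.D1.card := by exact_mod_cast hD1.card_pos
  have hτ : |X.τ - 1| ≤ K := by
    have h1 : X.τ - 1 = (∑ d ∈ X.D1, (X.dg X.w1 (Sum.inr (Sum.inr d)) - 1)) / (X.D1.card : ℝ) := by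
      unfold τ
      rw [Finset.sum_sub_distrib, Finset.sum_const, nsmul_eq_mul, mul_one, sub_div,
        div_self hD1c.ne']
    rw [h1, abs_div, abs_of_pos hD1c, div_le_iff₀ hD1c]
    refine (Finset.abs_sum_le_sum_abs _ _).trans ?_
    calc ∑ d ∈ X.D1, |X.dg X.w1 (Sum.inr (Sum.inr d)) - 1| ≤ ∑ _d ∈ X.D1, K :=
          Finset.sum_le_sum fun d hd => dg_dif hX hS hd
      _ = K * X.D1.card := by rw [Finset.sum_const, nsmul_eq_mul, mul_comm]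
  have hE : ∀ d ∈ X.D1, |X.dg X.w1 (Sum.inr (Sum.inr d)) - X.τ| ≤ 2 * K := by
    intro d hd
    have h1 := dg_dif hX hS hd
    have h2 : X.dg X.w1 (Sum.inr (Sum.inr d)) - X.τ =
        (X.dg X.w1 (Sum.inr (Sum.inr d)) - 1) - (X.τ - 1) := by ring
    rw [h2]
    refine (abs_sub _ _).trans ?_
    rw [hK] at hτ ⊢
    linarith
  have hsum : ∑ d ∈ X.D1, (X.dg X.w1 (Sum.inr (Sum.inr d)) - X.τ) = 0 := by
    rw [Finset.sum_sub_distrib, Finset.sum_const, nsmul_eq_mul]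
    unfold τ
    rw [mul_div_cancel₀ _ hD1c.ne', sub_self]
  obtain ⟨γ, g1, g2, g3⟩ := Pool.Agent.PGr.flow X.D1 X.J0 X.Q
    (fun d => X.dg X.w1 (Sum.inr (Sum.inr d)) - X.τ) (1 / 1000) (C4 X.P.L) (2 * K)
    (by norm_num) (by positivity) hJ (fun d _ j _ => Q_nonneg d j) (fun d _ j _ => Q_le hX d j)
    (fun d hd => Q_few hX hS hd) hE hsum
  refine ⟨γ, fun d hd j hj => (g1 d hd j hj).trans ?_, g2, g3⟩
  have h5 : 3 * (2 * K) * C4 X.P.L / ((1 / 1000 : ℝ) ^ 2 * X.J0.card) ≤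
      3 * (2 * K) * C4 X.P.L / ((1 / 1000 : ℝ) ^ 2 * (9 * X.P.n / 100)) := by
    refine div_le_div_of_nonneg_left (by positivity) (by positivity) ?_
    exact mul_le_mul_of_nonneg_left hJc (by positivity)
  refine h5.trans ?_
  rw [div_le_div_iff₀ (by positivity) hn]
  have h6 : 0 ≤ Cd X.P.L C * X.ρ * C4 X.P.L * X.P.n := by positivity
  unfold Cg
  rw [hK]
  nlinarith

end Cx

end Pool.Agent.PGo.M
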