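import Pool.Agent.PGo.M.Sw

/-!
# PGo-M-Move: sums with the corrected weights

PLAN. `sum_w2`: unfold `w2`, distribute, exchange the two sums, and
`∑_{e ∈ VE} (if tgt a = e then 1 else 0) * F e = F (tgt a)` since `tgt a ∈ VE` for `a ∈ Tv`, the same for `a.1`.
`dg_w2`: `dg w u = ∑_{e ∈ VE} w e * (if u ∈ Sv e then 1 else 0)`, so `sum_w2` with this `F`.
`dif_ind`: for `e ∈ VE` the indicator of `inr (inr d) ∈ Sv e` is `∑_i (if df i = d then 1 else 0)` (`difi`);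
`sum_df_tgt` (Sw) with `F z = if z = d then 1 else 0`.
-/
set_option autoImplicit false

noncomputable section

namespace Pool.Agent.PGo.M

open Finset Pool.Agent.PGr Pool.Agent.PGo
open scoped Classical

namespace Cx

variable {X : Cx} {C c ε : ℝ}

private theorem sum_ind (e0 : Ed X.P) (h : e0 ∈ X.VE) (F : Ed X.P → ℝ) :
    ∑ e ∈ X.VE, (if e0 = e then (1 : ℝ) else 0) * F e = F e0 := by
  rw [Finset.sum_eq_single e0]
  · rw [if_pos rfl, one_mul]
  · intro e _ he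
    rw [if_neg (Ne.symm he), zero_mul]
  · intro h'
    exact absurd h h'

private theorem dg_eq (w : Ed X.P → ℝ) (u : Vt) :
    X.dg w u = ∑ e ∈ X.VE, w e * (if u ∈ Sv X.P e then (1 : ℝ) else 0) := by
  unfold dg
  rw [Finset.sum_filter]
  apply Finset.sum_congr rfl
  intro e _
  by_cases h : u ∈ Sv X.P e
  · rw [if_pos h, if_pos h, mul_one]
  · rw [if_neg h, if_neg h, mul_zero]

private theorem ind_sum {e : Ed X.P} (h : e ∈ X.VE) (d : ℤ) :
    (if (Sum.inr (Sum.inr d) : Vt) ∈ Sv X.P e then (1 : ℝ) else 0) =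
      ∑ i, (if X.P.df e.1 e.2 i = d then (1 : ℝ) else 0) := by
  have hinj := (mem_VE.1 h).2.2.2.2.difi
  by_cases h1 : (Sum.inr (Sum.inr d) : Vt) ∈ Sv X.P e
  · rw [if_pos h1]
    obtain ⟨i0, h2⟩ := mem_Sv_dif.1 h1
    rw [Finset.sum_eq_single i0]
    · rw [if_pos h2]
    · intro i _ hi
      rw [if_neg]
      intro h3
      exact hi (hinj (h3.trans h2.symm))
    · intro h3
      exact absurd (Finset.mem_univ i0) h3
  · rw [if_neg h1]
    symm
    apply Finset.sum_eq_zero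
    intro i _
    rw [if_neg]
    intro h3
    exact h1 (mem_Sv_dif.2 ⟨i, h3⟩)

theorem sum_w2 (γ : ℤ → ℤ → ℝ) (F : Ed X.P → ℝ) :
    ∑ e ∈ X.VE, X.w2 γ e * F e =
      ∑ e ∈ X.VE, X.w1 e * F e + ∑ a ∈ X.Tv, X.mv γ a * (F (tgt X.P a) - F a.1) := by

  have e1 : ∀ e ∈ X.VE, X.w2 γ e * F e = X.w1 e * F e + ∑ a ∈ X.Tv, X.mv γ a *
      ((if tgt X.P a = e then (1 : ℝ) else 0) * F e - (if a.1 = e then (1 : ℝ) else 0) * F e) := by
    intro e _
    unfold w2
    rw [add_mul, Finset.sum_mul]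
    congr 1
    apply Finset.sum_congr rfl
    intro a _
    ring
  rw [Finset.sum_congr rfl e1, Finset.sum_add_distrib, Finset.sum_comm]
  congr 1
  apply Finset.sum_congr rfl
  intro a ha
  rw [← Finset.mul_sum, Finset.sum_sub_distrib, sum_ind _ (mem_Tv.1 ha).2.1,
    sum_ind _ (mem_Tv.1 ha).1]


theorem dg_w2 (γ : ℤ → ℤ → ℝ) (u : Vt) : X.dg (X.w2 γ) u = X.dg X.w1 u +
    ∑ a ∈ X.Tv, X.mv γ a * ((if u ∈ Sv X.P (tgt X.P a) then (1 : ℝ) else 0) -
      (if u ∈ Sv X.P a.1 then (1 : ℝ) else 0)) := by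

  rw [dg_eq, dg_eq, sum_w2]


/-- the change of the incidence with a difference along a switch -/
theorem dif_ind (hP : X.P.Ok) {a : Tp X.P} (ha : a ∈ X.Tv) (d : ℤ) :
    (if (Sum.inr (Sum.inr d) : Vt) ∈ Sv X.P (tgt X.P a) then (1 : ℝ) else 0) -
      (if (Sum.inr (Sum.inr d) : Vt) ∈ Sv X.P a.1 then (1 : ℝ) else 0) =
    (if dt X.P a = d then (1 : ℝ) else 0) - (if da X.P a = d then (1 : ℝ) else 0) := by

  rw [ind_sum (mem_Tv.1 ha).2.1 d, ind_sum (mem_Tv.1 ha).1 d]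
  have h1 := sum_df_tgt hP a (fun z => if z = d then (1 : ℝ) else 0)
  rw [h1]
  ring


end Cx

end Pool.Agent.PGo.M
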