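import Pool.Agent.PGo.M.Sw
import Pool.Agent.PGo.M.Anc

/-!
# PGo-M-PairA: pairs (cycle, label), (cycle, difference), (label, label)

PLAN. `thr2 P (cycle r) (label z) ⊆ ⋃_j {e ∈ EE | e.1 = r, e.2 j = z}` (`mem_Sv_cyc`, `mem_Sv_lab`), each
by `cnt1` with `R = {r}`, coordinate `j`, `K = 1`: at most `3^L n^(L-1)`; sum `L 3^L n^(L-1)`
(`card_biUnion_le`). (cycle, difference): `{e.1 = r, df i = d}`: `i = (true, j)`: `|y - anc| = d` has at
most 2 solutions; `i = (false, j)`: coordinate `j` (`nxt j ≠ j`), `|y - x (nxt j)| = d`: `K = 2`;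
`2L` terms: `4 L 3^L n^(L-1)`. (label, label): coordinates `j ≠ l` (`j = l` is impossible, `z ≠ z'`),
`cnt2`, `K = 1`, `R = range g`, `|R| ≤ n`: `L^2 3^L n^(L-2) n = L^2 3^L n^(L-1)`.
`L ≤ L^2`; `kk P = L^2 3^L`.
Useful: a set `{y ∈ ZB | |y - u| = d}` is contained in `{u + d, u - d}`.
-/
set_option autoImplicit false

noncomputable section

namespace Pool.Agent.PGo.M

open Finset Pool.Agent.PGr Pool.Agent.PGo
open scoped Classical

variable {P : Par}

/-- at most two integers have a given distance from a given integer -/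
theorem two_sol (B : Finset ℤ) (u d : ℤ) : (B.filter (fun y => |y - u| = d)).card ≤ 2 := by
  have h1 : B.filter (fun y => |y - u| = d) ⊆ {u + d, u - d} := by
    intro y hy
    have h2 := (mem_filter.1 hy).2
    rw [mem_insert, mem_singleton]
    rcases abs_cases (y - u) with h3 | h3
    · left
      omega
    · right
      omega
  exact (card_le_card h1).trans card_le_two

private theorem pairA_un {ι : Type} [Fintype ι] (s : Finset (Ed P)) (A : ι → Finset (Ed P)) (C : ℝ)
    (h : ∀ e ∈ s, ∃ i, e ∈ A i) (hC : ∀ i, ((A i).card : ℝ) ≤ C) :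
    (s.card : ℝ) ≤ Fintype.card ι * C := by
  have h1 : s.card ≤ (univ.biUnion A).card := card_le_card fun e he => by
    obtain ⟨i, hi⟩ := h e he
    exact mem_biUnion.2 ⟨i, mem_univ _, hi⟩
  have h2 : (univ.biUnion A).card ≤ ∑ i, (A i).card := card_biUnion_le
  calc (s.card : ℝ) ≤ ((∑ i, (A i).card : ℕ) : ℝ) := by exact_mod_cast h1.trans h2
    _ = ∑ i, ((A i).card : ℝ) := by push_cast; rfl
    _ ≤ ∑ i : ι, C := sum_le_sum fun i _ => hC i
    _ = _ := by rw [sum_const, card_univ, nsmul_eq_mul]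

private theorem pairA_L (h : P.Ok) : (1 : ℝ) ≤ P.L := by
  exact_mod_cast h.L_pos

private theorem pairA_fin (h : P.Ok) {m a : ℝ} (hm : 0 ≤ a) (hma : m * a ≤ 16 * (P.L : ℝ) ^ 2) :
    m * (a * (3 ^ P.L * (P.n : ℝ) ^ (P.L - 1))) ≤ 16 * kk P * (P.n : ℝ) ^ (P.L - 1) := by
  unfold kk
  have h1 : (0 : ℝ) ≤ 3 ^ P.L * (P.n : ℝ) ^ (P.L - 1) := by positivity
  calc m * (a * (3 ^ P.L * (P.n : ℝ) ^ (P.L - 1)))
      = (m * a) * (3 ^ P.L * (P.n : ℝ) ^ (P.L - 1)) := by ring
    _ ≤ (16 * (P.L : ℝ) ^ 2) * (3 ^ P.L * (P.n : ℝ) ^ (P.L - 1)) :=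
        mul_le_mul_of_nonneg_right hma h1
    _ = _ := by ring

/-- the labelled cycles with a given label at a given place -/
theorem lab_le (h : P.Ok) (j : Fin P.L) (z : ℤ) :
    (((EE P).filter (fun e => e.2 j = z)).card : ℝ) ≤ 3 ^ P.L * (P.n : ℝ) ^ P.L := by
  have hA : (EE P).filter (fun e => e.2 j = z) ⊆ range P.g ×ˢ P.box := by
    intro e he
    exact (mem_filter.1 he).1
  have h1 := cnt1 (range P.g) _ hA j 1 (by
    intro r _ x _
    have h2 : (ZB P.n).filter (fun y => ((r, Function.update x j y) : Ed P) ∈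
        (EE P).filter (fun e => e.2 j = z)) ⊆ {z} := by
      intro y hy
      have h3 : Function.update x j y j = z := (mem_filter.1 (mem_filter.1 hy).2).2
      rw [Function.update_self] at h3
      rw [mem_singleton, h3]
    exact (card_le_card h2).trans (card_singleton z).le)
  rw [card_range, Nat.cast_one, one_mul] at h1
  refine h1.trans ?_
  have hg : (P.g : ℝ) ≤ P.n := by exact_mod_cast h.g_le_n
  have hL : P.L = P.L - 1 + 1 := by have := h.L_pos; omega
  have h3 : (0 : ℝ) ≤ 3 ^ P.L * (P.n : ℝ) ^ (P.L - 1) := by positivity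
  calc (P.g : ℝ) * 3 ^ P.L * (P.n : ℝ) ^ (P.L - 1)
      = (P.g : ℝ) * (3 ^ P.L * (P.n : ℝ) ^ (P.L - 1)) := by ring
    _ ≤ (P.n : ℝ) * (3 ^ P.L * (P.n : ℝ) ^ (P.L - 1)) := mul_le_mul_of_nonneg_right hg h3
    _ = 3 ^ P.L * ((P.n : ℝ) ^ (P.L - 1) * P.n) := by ring
    _ = 3 ^ P.L * (P.n : ℝ) ^ P.L := by rw [← pow_succ, ← hL]

theorem pair_cl (h : P.Ok) (r : ℕ) (z : ℤ) :
    ((thr2 P (Sum.inl r) (Sum.inr (Sum.inl z))).card : ℝ) ≤ 16 * kk P * (P.n : ℝ) ^ (P.L - 1) := by
  have h1 := pairA_un (thr2 P (Sum.inl r) (Sum.inr (Sum.inl z)))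
    (fun j : Fin P.L => (EE P).filter (fun e => e.1 = r ∧ e.2 j = z))
    (1 * (3 ^ P.L * (P.n : ℝ) ^ (P.L - 1))) (fun e he => by
      obtain ⟨he1, he2, he3⟩ := mem_thr2.1 he
      obtain ⟨j, hj⟩ := mem_Sv_lab.1 he3
      exact ⟨j, mem_filter.2 ⟨he1, mem_Sv_cyc.1 he2, hj⟩⟩) (fun j => by
      have hA : (EE P).filter (fun e => e.1 = r ∧ e.2 j = z) ⊆ {r} ×ˢ P.box := by
        intro e he
        obtain ⟨h2, h3, -⟩ := mem_filter.1 he
        rw [mem_product, mem_singleton]
        exact ⟨h3, (mem_EE.1 h2).2⟩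
      have h1 := cnt1 {r} _ hA j 1 (by
        intro r' _ x _
        have h2 : (ZB P.n).filter (fun y => ((r', Function.update x j y) : Ed P) ∈
            (EE P).filter (fun e => e.1 = r ∧ e.2 j = z)) ⊆ {z} := by
          intro y hy
          have h3 : Function.update x j y j = z := (mem_filter.1 (mem_filter.1 hy).2).2.2
          rw [Function.update_self] at h3
          rw [mem_singleton, h3]
        exact (card_le_card h2).trans (card_singleton z).le)
      rw [card_singleton, Nat.cast_one, one_mul, one_mul] at h1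
      rw [one_mul]
      exact h1)
  refine h1.trans (pairA_fin h zero_le_one ?_)
  rw [Fintype.card_fin]
  nlinarith [pairA_L h]

theorem pair_cd (h : P.Ok) (r : ℕ) (d : ℤ) :
    ((thr2 P (Sum.inl r) (Sum.inr (Sum.inr d))).card : ℝ) ≤ 16 * kk P * (P.n : ℝ) ^ (P.L - 1) := by
  have h1 := pairA_un (thr2 P (Sum.inl r) (Sum.inr (Sum.inr d)))
    (fun i : Bool × Fin P.L => (EE P).filter (fun e => e.1 = r ∧ P.df e.1 e.2 i = d))
    (2 * (3 ^ P.L * (P.n : ℝ) ^ (P.L - 1))) (fun e he => by
      obtain ⟨he1, he2, he3⟩ := mem_thr2.1 he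
      obtain ⟨i, hi⟩ := mem_Sv_dif.1 he3
      exact ⟨i, mem_filter.2 ⟨he1, mem_Sv_cyc.1 he2, hi⟩⟩) (fun i => by
      obtain ⟨b, j⟩ := i
      have hA : (EE P).filter (fun e => e.1 = r ∧ P.df e.1 e.2 (b, j) = d) ⊆ {r} ×ˢ P.box := by
        intro e he
        obtain ⟨h2, h3, -⟩ := mem_filter.1 he
        rw [mem_product, mem_singleton]
        exact ⟨h3, (mem_EE.1 h2).2⟩
      have h1 := cnt1 {r} _ hA j 2 (by
        intro r' _ x _
        cases b with
        | true =>
          have h2 : (ZB P.n).filter (fun y => ((r', Function.update x j y) : Ed P) ∈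
              (EE P).filter (fun e => e.1 = r ∧ P.df e.1 e.2 (true, j) = d)) ⊆
              (ZB P.n).filter (fun y => |y - anc P.n (P.vx r' j)| = d) := by
            intro y hy
            obtain ⟨hy1, hy2⟩ := mem_filter.1 hy
            have h3 : |Function.update x j y j - anc P.n (P.vx r' j)| = d :=
              (mem_filter.1 hy2).2.2
            rw [Function.update_self] at h3
            exact mem_filter.2 ⟨hy1, h3⟩
          exact (card_le_card h2).trans (two_sol _ _ _)
        | false =>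
          have h2 : (ZB P.n).filter (fun y => ((r', Function.update x j y) : Ed P) ∈
              (EE P).filter (fun e => e.1 = r ∧ P.df e.1 e.2 (false, j) = d)) ⊆
              (ZB P.n).filter (fun y => |y - x (nxt j)| = d) := by
            intro y hy
            obtain ⟨hy1, hy2⟩ := mem_filter.1 hy
            have h3 : |Function.update x j y j - Function.update x j y (nxt j)| = d :=
              (mem_filter.1 hy2).2.2
            rw [Function.update_self, Function.update_of_ne (nxt_ne h j)] at h3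
            exact mem_filter.2 ⟨hy1, h3⟩
          exact (card_le_card h2).trans (two_sol _ _ _))
      rw [card_singleton, Nat.cast_one, mul_one] at h1
      refine h1.trans (le_of_eq ?_)
      push_cast
      ring)
  refine h1.trans (pairA_fin h zero_le_two ?_)
  rw [Fintype.card_prod, Fintype.card_fin, Fintype.card_bool]
  push_cast
  nlinarith [pairA_L h]

theorem pair_ll (h : P.Ok) {z z' : ℤ} (hne : z ≠ z') :
    ((thr2 P (Sum.inr (Sum.inl z)) (Sum.inr (Sum.inl z'))).card : ℝ) ≤
      16 * kk P * (P.n : ℝ) ^ (P.L - 1) := by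
  have h1 := pairA_un (thr2 P (Sum.inr (Sum.inl z)) (Sum.inr (Sum.inl z')))
    (fun i : Fin P.L × Fin P.L => (EE P).filter (fun e => e.2 i.1 = z ∧ e.2 i.2 = z'))
    (1 * (3 ^ P.L * (P.n : ℝ) ^ (P.L - 1))) (fun e he => by
      obtain ⟨he1, he2, he3⟩ := mem_thr2.1 he
      obtain ⟨j, hj⟩ := mem_Sv_lab.1 he2
      obtain ⟨l, hl⟩ := mem_Sv_lab.1 he3
      exact ⟨(j, l), mem_filter.2 ⟨he1, hj, hl⟩⟩) (fun i => by
      obtain ⟨j, l⟩ := i
      rw [one_mul]
      by_cases hjl : j = l
      · have h2 : (EE P).filter (fun e => e.2 j = z ∧ e.2 l = z') = ∅ := by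
          refine filter_eq_empty_iff.2 fun e _ he => hne ?_
          rw [← he.1, ← he.2, hjl]
        show ((((EE P).filter (fun e => e.2 j = z ∧ e.2 l = z')).card : ℕ) : ℝ) ≤ _
        rw [h2, card_empty, Nat.cast_zero]
        positivity
      · have hA : (EE P).filter (fun e => e.2 j = z ∧ e.2 l = z') ⊆ range P.g ×ˢ P.box := by
          intro e he
          exact (mem_filter.1 he).1
        have h1 := cnt2 (range P.g) _ hA hjl 1 (by
          intro r _ x _
          have h2 : ((ZB P.n) ×ˢ (ZB P.n)).filter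
              (fun y => ((r, Function.update (Function.update x j y.1) l y.2) : Ed P) ∈
              (EE P).filter (fun e => e.2 j = z ∧ e.2 l = z')) ⊆ {(z, z')} := by
            intro y hy
            obtain ⟨h3, h4⟩ := (mem_filter.1 (mem_filter.1 hy).2).2
            have h3' : Function.update (Function.update x j y.1) l y.2 j = z := h3
            have h4' : Function.update (Function.update x j y.1) l y.2 l = z' := h4
            rw [Function.update_of_ne hjl, Function.update_self] at h3'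
            rw [Function.update_self] at h4'
            rw [mem_singleton, ← h3', ← h4']
          exact (card_le_card h2).trans (card_singleton _).le)
        rw [card_range, Nat.cast_one, one_mul] at h1
        refine h1.trans ?_
        have hg : (P.g : ℝ) ≤ P.n := by exact_mod_cast h.g_le_n
        have hL : P.L - 1 = P.L - 2 + 1 := by have := h.adm.three; omega
        have h3 : (0 : ℝ) ≤ 3 ^ P.L * (P.n : ℝ) ^ (P.L - 2) := by positivity
        calc (P.g : ℝ) * 3 ^ P.L * (P.n : ℝ) ^ (P.L - 2)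
            = (P.g : ℝ) * (3 ^ P.L * (P.n : ℝ) ^ (P.L - 2)) := by ring
          _ ≤ (P.n : ℝ) * (3 ^ P.L * (P.n : ℝ) ^ (P.L - 2)) :=
              mul_le_mul_of_nonneg_right hg h3
          _ = 3 ^ P.L * ((P.n : ℝ) ^ (P.L - 2) * P.n) := by ring
          _ = 3 ^ P.L * (P.n : ℝ) ^ (P.L - 1) := by rw [← pow_succ, ← hL])
  refine h1.trans (pairA_fin h zero_le_one ?_)
  rw [Fintype.card_prod, Fintype.card_fin]
  push_cast
  nlinarith [pairA_L h]

end Pool.Agent.PGo.M
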