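import Pool.Agent.PGo.M.Co

/-!
# PGo-M-Sets: sizes of the exceptional sets

PLAN. `big` gives `1000 ≤ ε n` and `1000 L kk / ρ ≤ ε n` (both terms are positive; `kk ≥ 27`).
`Bx_card`: `ρ n^L |Bx| ≤ ∑_{d ∈ Bx} |coT d| ≤ ∑_{d ∈ Icc 1 (2n)} |coT d| ≤ 2 L |{e ∈ EE | Co e}|` (double
counting: an edge is in `coT d` for at most `2 L` differences `d`, the values of `df`), and
`|{e ∈ EE | Co e}| ≤ g * 20 kk n^(L-1) ≤ 20 kk n^L` (`co_le` for every `r < g`; `g ≤ n`).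
`BZ_card`: `ZB n \ zall n` has at most one element (`3 (n/2)` for `n` even), `Z_card`, `1 ≤ ρ n`.
`BD_card`: `Icc 1 (2n) \ dall n` has at most 2 elements, `D_card`, `Bd_card`, `Bx_card`;
`2 + ρ n + ε n + 40 L kk/ρ ≤ 3 ρ n`. `D0_D1_card`: the elements of `D0 ⊆ dall n` above `2 n` are
`2n+1, 2n+2`; `2 + ε n + 40 L kk/ρ ≤ 2 ε n`.
`D1_card`: `2 n - 3 ρ n ≥ n` as `ρ ≤ 1/3` (from `Sm.s4`, `Cb L ≥ 120`, `L ≥ 3`).
`J0_card`: the interval `19 n ≤ 20 d ≤ 21 n` has at least `n/10 - 1` integers, all in `Icc 1 (2n)`, minus `BD`;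
`3 ρ n + 1 ≤ n/100`.
-/
set_option autoImplicit false

noncomputable section

namespace Pool.Agent.PGo.M

open Finset Pool.Agent.PGr Pool.Agent.PGo
open scoped Classical

namespace Cx

variable {X : Cx} {C c ε : ℝ}

theorem Ok.n_pos (hX : X.Ok C c ε) : (0 : ℝ) < X.P.n := by
  exact_mod_cast hX.ok.n_pos

theorem Ok.kk_ge (hX : X.Ok C c ε) : 27 ≤ kk X.P := by
  have hL : 3 ≤ X.P.L := hX.ok.adm.three
  have h1 : (1 : ℝ) ≤ (X.P.L : ℝ) ^ 2 := by
    have h2 : (1 : ℝ) ≤ (X.P.L : ℝ) := by exact_mod_cast (by omega : 1 ≤ X.P.L)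
    exact one_le_pow₀ h2
  have h3 : (3 : ℝ) ^ 3 ≤ 3 ^ X.P.L := pow_le_pow_right₀ (by norm_num) hL
  unfold kk
  nlinarith

private theorem Sets_quot (hX : X.Ok C c ε) : 0 ≤ (X.P.L : ℝ) * kk X.P / X.ρ := by
  have h1 := hX.kk_ge
  exact div_nonneg (mul_nonneg (Nat.cast_nonneg _) (by linarith)) hX.ρ_pos.le

private theorem Sets_big (hX : X.Ok C c ε) :
    1000 + 1000 * ((X.P.L : ℝ) * kk X.P / X.ρ) ≤ ε * X.P.n := by
  have h1 := hX.big
  have h2 : 1000 * (X.P.L : ℝ) * kk X.P / X.ρ = 1000 * ((X.P.L : ℝ) * kk X.P / X.ρ) := by ring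
  rw [h2] at h1
  exact h1

theorem Ok.big1 (hX : X.Ok C c ε) : 1000 ≤ ε * X.P.n := by
  have h1 := Sets_big hX
  have h2 := Sets_quot hX
  linarith

theorem Ok.n_big (hX : X.Ok C c ε) : 100 * (X.P.L + 1) ≤ X.P.n := by
  have h1 := Sets_big hX
  have hn := hX.n_pos
  have hk := hX.kk_ge
  have hL : (0 : ℝ) ≤ X.P.L := Nat.cast_nonneg _
  have h2 : (X.P.L : ℝ) ≤ (X.P.L : ℝ) * kk X.P / X.ρ := by
    rw [le_div_iff₀ hX.ρ_pos]
    have h3 : (X.P.L : ℝ) * X.ρ ≤ X.P.L * 1 := mul_le_mul_of_nonneg_left hX.ρ_le hL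
    have h4 : (X.P.L : ℝ) * 1 ≤ X.P.L * kk X.P := mul_le_mul_of_nonneg_left (by linarith) hL
    linarith
  have h5 : ε * X.P.n ≤ 1 * X.P.n :=
    mul_le_mul_of_nonneg_right (hX.ε_le.trans hX.ρ_le) hn.le
  have h6 : (100 * ((X.P.L : ℝ) + 1)) ≤ X.P.n := by linarith
  exact_mod_cast h6

/-- the number of the edges with coincidences -/
private theorem Sets_co (hX : X.Ok C c ε) :
    ((((EE X.P).filter (fun e => Co X.P e)).card : ℕ) : ℝ) ≤ 20 * kk X.P * (X.P.n : ℝ) ^ X.P.L := by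
  have h1 : (EE X.P).filter (fun e => Co X.P e) ⊆ (range X.P.g).biUnion
      (fun r => (X.P.box.filter (fun x => Co X.P (r, x))).image (fun x => (r, x))) := by
    intro e he
    rw [mem_filter, mem_EE] at he
    rw [mem_biUnion]
    refine ⟨e.1, mem_range.2 he.1.1, ?_⟩
    rw [mem_image]
    exact ⟨e.2, mem_filter.2 ⟨he.1.2, he.2⟩, rfl⟩
  have h2 : ((EE X.P).filter (fun e => Co X.P e)).card ≤
      ∑ r ∈ range X.P.g, (X.P.box.filter (fun x => Co X.P (r, x))).card :=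
    (card_le_card h1).trans (card_biUnion_le.trans (sum_le_sum fun r _ => card_image_le))
  have h3 : ((((EE X.P).filter (fun e => Co X.P e)).card : ℕ) : ℝ) ≤
      ∑ r ∈ range X.P.g, (((X.P.box.filter (fun x => Co X.P (r, x))).card : ℕ) : ℝ) := by
    exact_mod_cast h2
  have hk := hX.kk_ge
  have hn := hX.n_pos
  have h4 : ∑ r ∈ range X.P.g, (((X.P.box.filter (fun x => Co X.P (r, x))).card : ℕ) : ℝ) ≤
      X.P.g * (20 * kk X.P * (X.P.n : ℝ) ^ (X.P.L - 1)) := by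
    refine (sum_le_sum fun r _ => co_le hX.ok r).trans ?_
    rw [sum_const, card_range, nsmul_eq_mul]
  have h5 : (X.P.g : ℝ) ≤ X.P.n := by exact_mod_cast hX.ok.g_le_n
  have h6 : 0 ≤ 20 * kk X.P * (X.P.n : ℝ) ^ (X.P.L - 1) := by positivity
  have h7 : (X.P.n : ℝ) ^ X.P.L = X.P.n * (X.P.n : ℝ) ^ (X.P.L - 1) := by
    rw [← pow_succ']
    congr 1
    have := hX.ok.L_pos
    omega
  calc _ ≤ _ := h3
    _ ≤ _ := h4
    _ ≤ X.P.n * (20 * kk X.P * (X.P.n : ℝ) ^ (X.P.L - 1)) := mul_le_mul_of_nonneg_right h5 h6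
    _ = _ := by rw [h7]; ring

/-- an edge contains at most `2 L` differences -/
private theorem Sets_sum (X : Cx) :
    ∑ d ∈ X.Bx, (coT X.P d).card ≤ ((EE X.P).filter (fun e => Co X.P e)).card * (2 * X.P.L) := by
  have h1 : ∀ d ∈ X.Bx, (coT X.P d).card =
      (((EE X.P).filter (fun e => Co X.P e)).bipartiteAbove
        (fun (d : ℤ) (e : Ed X.P) => ∃ i, X.P.df e.1 e.2 i = d) d).card := by
    intro d _
    congr 1
    ext e
    rw [mem_coT, mem_bipartiteAbove, mem_filter]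
    tauto
  rw [sum_congr rfl h1, sum_card_bipartiteAbove_eq_sum_card_bipartiteBelow]
  refine (sum_le_card_nsmul _ _ (2 * X.P.L) ?_).trans (le_of_eq (by rw [smul_eq_mul]))
  intro e _
  have h2 : X.Bx.bipartiteBelow (fun (d : ℤ) (e : Ed X.P) => ∃ i, X.P.df e.1 e.2 i = d) e ⊆
      (univ : Finset (Bool × Fin X.P.L)).image (X.P.df e.1 e.2) := by
    intro d hd
    rw [mem_bipartiteBelow] at hd
    obtain ⟨-, i, hi⟩ := hd
    exact mem_image.2 ⟨i, mem_univ _, hi⟩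
  refine (card_le_card h2).trans (card_image_le.trans ?_)
  rw [card_univ, Fintype.card_prod, Fintype.card_bool, Fintype.card_fin]

theorem Bx_card (hX : X.Ok C c ε) : (X.Bx.card : ℝ) ≤ 40 * X.P.L * kk X.P / X.ρ := by
  have hn := hX.n_pos
  have hk := hX.kk_ge
  have hnL : 0 < (X.P.n : ℝ) ^ X.P.L := pow_pos hn _
  have h1 : (X.Bx.card : ℝ) * (X.ρ * (X.P.n : ℝ) ^ X.P.L) ≤
      ∑ d ∈ X.Bx, ((coT X.P d).card : ℝ) := by
    rw [← nsmul_eq_mul]
    exact card_nsmul_le_sum _ _ _ fun d hd => (mem_Bx.1 hd).2.le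
  have h2 : ∑ d ∈ X.Bx, ((coT X.P d).card : ℝ) ≤
      (((EE X.P).filter (fun e => Co X.P e)).card : ℝ) * (2 * X.P.L) := by
    exact_mod_cast Sets_sum X
  have h3 := Sets_co hX
  have hL : (0 : ℝ) ≤ 2 * X.P.L := by positivity
  have h4 := mul_le_mul_of_nonneg_right h3 hL
  rw [le_div_iff₀ hX.ρ_pos]
  have h5 : (X.Bx.card : ℝ) * X.ρ * (X.P.n : ℝ) ^ X.P.L ≤
      40 * X.P.L * kk X.P * (X.P.n : ℝ) ^ X.P.L := by
    calc (X.Bx.card : ℝ) * X.ρ * (X.P.n : ℝ) ^ X.P.L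
        = (X.Bx.card : ℝ) * (X.ρ * (X.P.n : ℝ) ^ X.P.L) := by ring
      _ ≤ 20 * kk X.P * (X.P.n : ℝ) ^ X.P.L * (2 * X.P.L) := h1.trans (h2.trans h4)
      _ = _ := by ring
  exact le_of_mul_le_mul_right h5 hnL

private theorem Sets_Bx (hX : X.Ok C c ε) : (X.Bx.card : ℝ) + 3 ≤ ε * X.P.n := by
  have h1 := Bx_card hX
  have h2 : 40 * (X.P.L : ℝ) * kk X.P / X.ρ = 40 * ((X.P.L : ℝ) * kk X.P / X.ρ) := by ring
  have h3 := Sets_big hX
  have h4 := Sets_quot hX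
  rw [h2] at h1
  linarith

private theorem Sets_rho (hX : X.Ok C c ε) : ε * X.P.n ≤ X.ρ * X.P.n :=
  mul_le_mul_of_nonneg_right hX.ε_le hX.n_pos.le

theorem BZ_card (hX : X.Ok C c ε) : (X.BZ.card : ℝ) ≤ 2 * X.ρ * X.P.n := by
  have h1 : X.BZ ⊆ insert (3 * ((X.P.n / 2 : ℕ) : ℤ)) (zall X.P.n \ X.Z0) := by
    intro x hx
    unfold BZ at hx
    rw [mem_sdiff] at hx
    obtain ⟨hx, hz⟩ := hx
    unfold ZB at hx
    rw [mem_filter, mem_Icc] at hx
    by_cases h : x = 3 * ((X.P.n / 2 : ℕ) : ℤ)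
    · rw [h]
      exact mem_insert_self _ _
    · refine mem_insert_of_mem (mem_sdiff.2 ⟨?_, hz⟩)
      unfold zall
      split_ifs with hp
      · rw [mem_erase, mem_Icc]
        refine ⟨h, ?_, ?_⟩ <;> omega
      · rw [mem_Icc]
        constructor <;> omega
  have h2 : (X.BZ.card : ℝ) ≤ ((zall X.P.n \ X.Z0).card : ℝ) + 1 := by
    exact_mod_cast (card_le_card h1).trans (card_insert_le _ _)
  have h3 := hX.Z_card
  have h4 := hX.big1
  have h5 := Sets_rho hX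
  linarith

theorem BD_card (hX : X.Ok C c ε) : (X.BD.card : ℝ) ≤ 3 * X.ρ * X.P.n := by
  have h1 : X.BD ⊆ (({(X.P.n : ℤ) + 1, 3 * ((X.P.n / 2 : ℕ) : ℤ),
      (((X.P.n - 1) / 2 : ℕ) : ℤ)} : Finset ℤ) ∪ (dall X.P.n \ X.D0)) ∪ (X.Bd ∪ X.Bx) := by
    intro d hd
    unfold BD at hd
    rw [mem_sdiff, mem_Icc, mem_D1] at hd
    obtain ⟨hd, hn⟩ := hd
    by_cases hb : d ∈ X.Bd
    · exact mem_union_right _ (mem_union_left _ hb)
    by_cases hx : d ∈ X.Bx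
    · exact mem_union_right _ (mem_union_right _ hx)
    have h0 : d ∉ X.D0 := fun h0 => hn ⟨⟨⟨h0, hd⟩, hb⟩, hx⟩
    refine mem_union_left _ ?_
    by_cases hs : d = (X.P.n : ℤ) + 1 ∨ d = 3 * ((X.P.n / 2 : ℕ) : ℤ) ∨
        d = (((X.P.n - 1) / 2 : ℕ) : ℤ)
    · refine mem_union_left _ ?_
      rw [mem_insert, mem_insert, mem_singleton]
      exact hs
    · rw [not_or, not_or] at hs
      refine mem_union_right _ (mem_sdiff.2 ⟨?_, h0⟩)
      unfold dall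
      split_ifs with hp
      · rw [mem_erase, mem_erase, mem_Icc]
        refine ⟨hs.2.1, hs.1, hd.1, ?_⟩
        omega
      · rw [mem_erase, mem_Icc]
        refine ⟨hs.2.2, hd.1, ?_⟩
        omega
  have h2 : X.BD.card ≤ (3 + (dall X.P.n \ X.D0).card) + (X.Bd.card + X.Bx.card) := by
    refine (card_le_card h1).trans ((card_union_le _ _).trans ?_)
    refine Nat.add_le_add ((card_union_le _ _).trans ?_) (card_union_le _ _)
    exact Nat.add_le_add_right card_le_three _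
  have h3 : (X.BD.card : ℝ) ≤ (3 + ((dall X.P.n \ X.D0).card : ℝ)) +
      ((X.Bd.card : ℝ) + (X.Bx.card : ℝ)) := by exact_mod_cast h2
  have h4 := hX.D_card
  have h5 := hX.Bd_card
  have h6 := Sets_Bx hX
  have h7 := Sets_rho hX
  linarith

theorem D0_D1_card (hX : X.Ok C c ε) : ((X.D0 \ X.D1).card : ℝ) ≤ 2 * ε * X.P.n := by
  have h1 : X.D0 \ X.D1 ⊆ ({2 * (X.P.n : ℤ) + 1, 2 * (X.P.n : ℤ) + 2} : Finset ℤ) ∪
      (X.Bd ∪ X.Bx) := by
    intro d hd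
    rw [mem_sdiff, mem_D1] at hd
    obtain ⟨h0, hn⟩ := hd
    by_cases hb : d ∈ X.Bd
    · exact mem_union_right _ (mem_union_left _ hb)
    by_cases hx : d ∈ X.Bx
    · exact mem_union_right _ (mem_union_right _ hx)
    have h2 : ¬ (1 ≤ d ∧ d ≤ 2 * (X.P.n : ℤ)) := fun h2 => hn ⟨⟨⟨h0, h2⟩, hb⟩, hx⟩
    have h3 : 1 ≤ d ∧ d ≤ 2 * (X.P.n : ℤ) + 2 := by
      have h4 := hX.D_sub h0
      unfold dall at h4
      split_ifs at h4 with hp
      · rw [mem_erase, mem_erase, mem_Icc] at h4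
        exact h4.2.2
      · rw [mem_erase, mem_Icc] at h4
        exact ⟨h4.2.1, by omega⟩
    refine mem_union_left _ ?_
    rw [mem_insert, mem_singleton]
    omega
  have h2 : (X.D0 \ X.D1).card ≤ 2 + (X.Bd.card + X.Bx.card) := by
    refine (card_le_card h1).trans ((card_union_le _ _).trans ?_)
    exact Nat.add_le_add card_le_two (card_union_le _ _)
  have h3 : ((X.D0 \ X.D1).card : ℝ) ≤ 2 + ((X.Bd.card : ℝ) + (X.Bx.card : ℝ)) := by
    exact_mod_cast h2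
  have h5 := hX.Bd_card
  have h6 := Sets_Bx hX
  linarith

private theorem Sets_small (hX : X.Ok C c ε) (hS : Sm X.P.L C c X.ρ) : X.ρ ≤ 1 / 10000 := by
  have h1 := hS.s4
  have hk := hX.kk_ge
  have h2 : Cb X.P.L = 120 * kk X.P := rfl
  have hL : (1 : ℝ) ≤ X.P.L := by exact_mod_cast hX.ok.L_pos
  have h3 : 1 ≤ 4 * (X.P.L : ℝ) * Cb X.P.L := by
    rw [h2]
    nlinarith
  have h4 : 1 * X.ρ ≤ 4 * (X.P.L : ℝ) * Cb X.P.L * X.ρ :=
    mul_le_mul_of_nonneg_right h3 hX.ρ_pos.le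
  linarith

theorem D1_card (hX : X.Ok C c ε) (hS : Sm X.P.L C c X.ρ) : (X.P.n : ℝ) ≤ X.D1.card := by
  have h1 : Icc (1 : ℤ) (2 * (X.P.n : ℤ)) ⊆ X.D1 ∪ X.BD := by
    intro d hd
    by_cases h : d ∈ X.D1
    · exact mem_union_left _ h
    · exact mem_union_right _ (by unfold BD; exact mem_sdiff.2 ⟨hd, h⟩)
  have h2 : 2 * X.P.n ≤ X.D1.card + X.BD.card := by
    have h3 := (card_le_card h1).trans (card_union_le _ _)
    rw [Int.card_Icc] at h3
    omega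
  have h3 : 2 * (X.P.n : ℝ) ≤ (X.D1.card : ℝ) + (X.BD.card : ℝ) := by exact_mod_cast h2
  have h4 := BD_card hX
  have h5 := Sets_small hX hS
  have hn := hX.n_pos
  have h6 : 3 * X.ρ * X.P.n ≤ 3 * (1 / 10000) * X.P.n :=
    mul_le_mul_of_nonneg_right (by linarith) hn.le
  linarith

theorem J0_card (hX : X.Ok C c ε) (hS : Sm X.P.L C c X.ρ) :
    9 / 100 * (X.P.n : ℝ) ≤ X.J0.card := by
  have hnb := hX.n_big
  set a : ℤ := (19 * (X.P.n : ℤ) + 19) / 20 with ha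
  set b : ℤ := (21 * (X.P.n : ℤ)) / 20 with hb
  have h1 : Icc a b ⊆ X.J0 ∪ X.BD := by
    intro d hd
    rw [mem_Icc] at hd
    have h19 : 19 * (X.P.n : ℤ) ≤ 20 * d := by omega
    have h21 : 20 * d ≤ 21 * (X.P.n : ℤ) := by omega
    by_cases h : d ∈ X.D1
    · exact mem_union_left _ (mem_J0.2 ⟨h, h19, h21⟩)
    · refine mem_union_right _ ?_
      unfold BD
      refine mem_sdiff.2 ⟨mem_Icc.2 ⟨?_, ?_⟩, h⟩ <;> omega
  have h2 : 2 * X.P.n ≤ 20 * (X.J0.card + X.BD.card) + 20 := by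
    have h3 := (card_le_card h1).trans (card_union_le _ _)
    rw [Int.card_Icc] at h3
    omega
  have h3 : 2 * (X.P.n : ℝ) ≤ 20 * ((X.J0.card : ℝ) + (X.BD.card : ℝ)) + 20 := by
    exact_mod_cast h2
  have h4 := BD_card hX
  have h5 := Sets_small hX hS
  have hn := hX.n_pos
  have h6 : 3 * X.ρ * X.P.n ≤ 3 * (1 / 10000) * X.P.n :=
    mul_le_mul_of_nonneg_right (by linarith) hn.le
  have h7 : (1000 : ℝ) ≤ X.P.n := by
    have h8 := hX.big1
    have h9 : ε * X.P.n ≤ 1 * X.P.n :=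
      mul_le_mul_of_nonneg_right (hX.ε_le.trans hX.ρ_le) hn.le
    linarith
  linarith

end Cx

end Pool.Agent.PGo.M
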