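import Pool.Agent.PGo.M.Cnt

/-!
# PGo-M-Sw: the switches

PLAN. `nxt j = (j+1) mod L`, `prv j = (j + (L-1)) mod L`, `L ≥ 3`: all statements of the first
group by `Fin.ext`, unfolding, and `omega` after a case distinction (`j + 1 < L` or `j + 1 = L`,
`Nat.mod_eq_of_lt`, `Nat.add_mod_right`...).
`df_sw`: `sw` changes only the label of `j`. The differences touching `j` are `(true, j)`,
`(false, j)` = (j, nxt j), `(false, prv j)` = (prv j, j). With `x' = x (nxt j) + x (prv j) - x j`:
`|x' - x (nxt j)| = |x (prv j) - x j|`, `|x (prv j) - x'| = |x j - x (nxt j)|`; with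
`x' = anc + x (prv j) - x j`: `|x' - anc| = |x (prv j) - x j|`, `|x (prv j) - x'| = |x j - anc|`.
All others are unchanged. `Equiv.swap_apply_def` (or `swap_apply_left`, `swap_apply_right`,
`swap_apply_of_ne_of_ne`).
-/
set_option autoImplicit false

noncomputable section

namespace Pool.Agent.PGo.M

open Finset Pool.Agent.PGr Pool.Agent.PGo
open scoped Classical

variable {P : Par}

private theorem swx_nxt_val (j : Fin P.L) : (nxt j).1 = if j.1 + 1 < P.L then j.1 + 1 else 0 := by
  have hj := j.2
  unfold nxt
  show (j.1 + 1) % P.L = _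
  by_cases h1 : j.1 + 1 < P.L
  · rw [if_pos h1, Nat.mod_eq_of_lt h1]
  · rw [if_neg h1, show j.1 + 1 = P.L by omega, Nat.mod_self]

private theorem swx_prv_val (j : Fin P.L) : (prv j).1 = if j.1 = 0 then P.L - 1 else j.1 - 1 := by
  have hj := j.2
  unfold prv
  show (j.1 + (P.L - 1)) % P.L = _
  by_cases h1 : j.1 = 0
  · rw [if_pos h1, h1, Nat.zero_add, Nat.mod_eq_of_lt (by omega)]
  · rw [if_neg h1, show j.1 + (P.L - 1) = (j.1 - 1) + P.L by omega, Nat.add_mod_right,
      Nat.mod_eq_of_lt (by omega)]

theorem nxt_ne (h : P.Ok) (j : Fin P.L) : nxt j ≠ j := by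
  have hL := h.adm.three
  have hj := j.2
  intro he
  have h1 := congrArg Fin.val he
  rw [swx_nxt_val] at h1
  split_ifs at h1 <;> omega

theorem prv_ne (h : P.Ok) (j : Fin P.L) : prv j ≠ j := by
  have hL := h.adm.three
  have hj := j.2
  intro he
  have h1 := congrArg Fin.val he
  rw [swx_prv_val] at h1
  split_ifs at h1 <;> omega

theorem nxt_ne_prv (h : P.Ok) (j : Fin P.L) : nxt j ≠ prv j := by
  have hL := h.adm.three
  have hj := j.2
  intro he
  have h1 := congrArg Fin.val he
  rw [swx_nxt_val, swx_prv_val] at h1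
  split_ifs at h1 <;> omega

theorem nxt_prv (h : P.Ok) (j : Fin P.L) : nxt (prv j) = j := by
  have hL := h.adm.three
  have hj := j.2
  apply Fin.ext
  rw [swx_nxt_val, swx_prv_val]
  split_ifs <;> omega

theorem prv_nxt (h : P.Ok) (j : Fin P.L) : prv (nxt j) = j := by
  have hL := h.adm.three
  have hj := j.2
  apply Fin.ext
  rw [swx_prv_val, swx_nxt_val]
  by_cases h1 : j.1 + 1 < P.L
  · rw [if_pos h1, if_neg (by omega)]
    omega
  · rw [if_neg h1, if_pos rfl]
    omega

theorem sw_self (t : Bool) (r : ℕ) (j : Fin P.L) (x : Fin P.L → ℤ) : sw P t r j x j =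
    if t then x (nxt j) + x (prv j) - x j else anc P.n (P.vx r j) + x (prv j) - x j := by
  unfold sw
  rw [Function.update_self]

theorem sw_ne {t : Bool} {r : ℕ} {j i : Fin P.L} (x : Fin P.L → ℤ) (hi : i ≠ j) :
    sw P t r j x i = x i := by
  unfold sw
  rw [Function.update_of_ne hi]

theorem sw_sw (h : P.Ok) (t : Bool) (r : ℕ) (j : Fin P.L) (x : Fin P.L → ℤ) :
    sw P t r j (sw P t r j x) = x := by
  funext i
  by_cases hi : i = j
  · rw [hi, sw_self, sw_ne x (nxt_ne h j), sw_ne x (prv_ne h j), sw_self]
    split_ifs <;> ring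
  · rw [sw_ne _ hi, sw_ne x hi]

/-- The differences after a switch. -/
theorem df_sw (h : P.Ok) {t : Bool} {j : Fin P.L} (r : ℕ) (x : Fin P.L → ℤ) {i : Bool × Fin P.L}
    (hi : i ≠ (t, j)) : P.df r (sw P t r j x) i =
      P.df r x (Equiv.swap (!t, j) (false, prv j) i) := by
  obtain ⟨b, l⟩ := i
  cases b with
  | true =>
    by_cases hl : l = j
    · subst hl
      have ht : t = false := by
        cases t with
        | true => exact absurd rfl hi
        | false => rfl
      subst ht
      rw [Bool.not_false, Equiv.swap_apply_left, Par.df_true, Par.df_false, sw_self, nxt_prv h l,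
        if_neg (by simp)]
      rw [show anc P.n (P.vx r l) + x (prv l) - x l - anc P.n (P.vx r l) = x (prv l) - x l by ring]
    · rw [Equiv.swap_apply_of_ne_of_ne, Par.df_true, Par.df_true, sw_ne x hl]
      · intro he
        exact hl (congrArg Prod.snd he)
      · intro he
        exact absurd (congrArg Prod.fst he) (by simp)
  | false =>
    by_cases hl : l = j
    · subst hl
      have ht : t = true := by
        cases t with
        | true => rfl
        | false => exact absurd rfl hi
      subst ht
      rw [Bool.not_true, Equiv.swap_apply_left, Par.df_false, Par.df_false, sw_self,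
        sw_ne x (nxt_ne h l), nxt_prv h l, if_pos rfl]
      rw [show x (nxt l) + x (prv l) - x l - x (nxt l) = x (prv l) - x l by ring]
    · by_cases hp : l = prv j
      · subst hp
        rw [Equiv.swap_apply_right, Par.df_false, sw_ne x (prv_ne h j), nxt_prv h j, sw_self]
        cases t with
        | true =>
          rw [Bool.not_true, Par.df_false, if_pos rfl]
          rw [show x (prv j) - (x (nxt j) + x (prv j) - x j) = x j - x (nxt j) by ring]
        | false =>
          rw [Bool.not_false, Par.df_true, if_neg (by simp)]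
          rw [show x (prv j) - (anc P.n (P.vx r j) + x (prv j) - x j) =
            x j - anc P.n (P.vx r j) by ring]
      · have hn : nxt l ≠ j := by
          intro he
          apply hp
          rw [← he, prv_nxt h l]
        rw [Equiv.swap_apply_of_ne_of_ne, Par.df_false, Par.df_false, sw_ne x hl, sw_ne x hn]
        · intro he
          exact hl (congrArg Prod.snd he)
        · intro he
          exact hp (congrArg Prod.snd he)

/-- The permutation fixes the place of the switch. -/
theorem swap_fix (h : P.Ok) (t : Bool) (j : Fin P.L) :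
    Equiv.swap (!t, j) ((false, prv j) : Bool × Fin P.L) (t, j) = (t, j) := by
  apply Equiv.swap_apply_of_ne_of_ne
  · intro he
    have h1 := congrArg Prod.fst he
    cases t with
    | true => exact absurd h1 (by simp)
    | false => exact absurd h1 (by simp)
  · intro he
    exact prv_ne h j (congrArg Prod.snd he).symm

theorem tgt_tgt (h : P.Ok) (a : Tp P) : tgt P (tgt P a, a.2) = a.1 := by
  show ((a.1.1, sw P a.2.1 a.1.1 a.2.2 (sw P a.2.1 a.1.1 a.2.2 a.1.2)) : Ed P) = a.1
  rw [sw_sw h]

/-- The differences of the target: for every function `F`, the sum over all differences changes only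
by the values at `dt` and `da`. -/
theorem sum_df_tgt (h : P.Ok) (a : Tp P) (F : ℤ → ℝ) :
    ∑ i, F (P.df (tgt P a).1 (tgt P a).2 i) =
      ∑ i, F (P.df a.1.1 a.1.2 i) + (F (dt P a) - F (da P a)) := by
  have h1 : ∑ i, F (P.df a.1.1 a.1.2 i) = ∑ i, F (P.df a.1.1 a.1.2
      (Equiv.swap (!a.2.1, a.2.2) ((false, prv a.2.2) : Bool × Fin P.L) i)) :=
    (Equiv.sum_comp (Equiv.swap (!a.2.1, a.2.2) ((false, prv a.2.2) : Bool × Fin P.L))
      (fun i => F (P.df a.1.1 a.1.2 i))).symm
  rw [h1, ← Finset.add_sum_erase univ _ (mem_univ a.2),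
    ← Finset.add_sum_erase univ (fun i => F (P.df a.1.1 a.1.2
      (Equiv.swap (!a.2.1, a.2.2) ((false, prv a.2.2) : Bool × Fin P.L) i))) (mem_univ a.2)]
  have h2 : ∑ i ∈ univ.erase a.2, F (P.df (tgt P a).1 (tgt P a).2 i) =
      ∑ i ∈ univ.erase a.2, F (P.df a.1.1 a.1.2
      (Equiv.swap (!a.2.1, a.2.2) ((false, prv a.2.2) : Bool × Fin P.L) i)) := by
    apply Finset.sum_congr rfl
    intro i hi
    have hne : i ≠ (a.2.1, a.2.2) := (Finset.mem_erase.1 hi).1
    have h3 := df_sw h a.1.1 a.1.2 hne
    exact congrArg F h3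
  rw [h2]
  have h4 : P.df a.1.1 a.1.2
      (Equiv.swap (!a.2.1, a.2.2) ((false, prv a.2.2) : Bool × Fin P.L) a.2) = da P a := by
    have h5 := swap_fix h a.2.1 a.2.2
    exact congrArg (P.df a.1.1 a.1.2) h5
  simp only [h4]
  have h6 : P.df (tgt P a).1 (tgt P a).2 a.2 = dt P a := rfl
  rw [h6]
  ring

end Pool.Agent.PGo.M
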