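import Pool.Agent.PGo.M.Sw
import Pool.Agent.PGo.M.Anc

/-!
# PGo-M-TLowA: many switches at a fixed place

PLAN. Write `n = P.n`, `a = anc (vx r j)` (`51 n ≤ 20 a`, `5 a ≤ 14 n`). Choose the labels of the places
other than `j, nxt j, prv j` freely in `Icc n (2n)` (`L - 3` places, `(n+1)^(L-3)` choices), the label
`b` of `nxt j` in an interval, the labels `b'` of `prv j` and `x` of `j` are then determined:
* `d ≤ n` (`ty P d = false`): `s := a - d - d''` (`n/2 ≤ s ≤ 37 n/20`), `b' := 2 b - s`, `x := b + d`;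
  conditions on `b`: `n ≤ b`, `n + s ≤ 2 b`, `1000 b ≤ 1449 n`, `2 b ≤ 2 n + s`: an interval with at least
  `24 n/1000 - 1 ≥ n/100` integers. Then `sw x` has the label `a + b' - x = b + d''` at `j`.
* `n < d` (`ty P d = true`): `s := 2 a - d - d''` (`41 n/20 ≤ s ≤ 73 n/20`), `b' := s - b`, `x := a - d`;
  conditions: `n ≤ b`, `s - 2 n ≤ b`, `b ≤ 2 n`, `b ≤ s - n`: at least `n/20` integers. `sw x` has the label
  `b + b' - x = a - d''` at `j`.
The map `(b, y) ↦ (fun i => if i = j then x else if i = nxt j then b else if i = prv j then b' else y i)` is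
injective on `Icc lo hi ×ˢ piFinset (fun i => if i = j ∨ i = nxt j ∨ i = prv j then {(n:ℤ)} else Icc n (2n))`
(`card_le_card_of_injOn`; `b` = value at `nxt j`), the second factor has `(n+1)^(L-3)` elements
(`Fintype.card_piFinset`, `prod_ite`, the three places are different: `nxt_ne`, `prv_ne`, `nxt_ne_prv`).
`Reg`: box: `mem_box`, `mem_ZB`; everything else is linear arithmetic (`abs_of_nonneg`, `abs_le`, `omega`).
Recommended: a lemma for the two cases separately with explicit hypotheses on `(b, b', x)`.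
-/
set_option autoImplicit false

noncomputable section

namespace Pool.Agent.PGo.M

open Finset Pool.Agent.PGr Pool.Agent.PGo
open scoped Classical

variable {P : Par}

private theorem tl_reg (h : P.Ok) {r : ℕ} {j : Fin P.L} (hr : P.good r)
    (ha1 : 51 * (P.n : ℤ) ≤ 20 * anc P.n (P.vx r j))
    (ha2 : 5 * anc P.n (P.vx r j) ≤ 14 * (P.n : ℤ)) {x : Fin P.L → ℤ}
    (hx : ∀ i, i ≠ j → (P.n : ℤ) ≤ x i ∧ x i ≤ 2 * P.n) (h1 : (P.n : ℤ) < 2 * x j)
    (h2 : 2 * x j < 5 * P.n) (h3 : |x j - anc P.n (P.vx r j)| ≤ 2 * (P.n : ℤ)) :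
    Reg P r j x := by
  have hn := h.n_pos
  refine ⟨hr, ha1, ha2, mem_box.2 fun i => mem_ZB.2 ?_, hx, h3⟩
  by_cases hi : i = j
  · rw [hi]
    exact ⟨h1, h2⟩
  · have := hx i hi
    constructor <;> omega

private theorem tl_card (h : P.Ok) (j : Fin P.L) : (Fintype.piFinset (fun i : Fin P.L =>
    if i = j ∨ i = nxt j ∨ i = prv j then ({(P.n : ℤ)} : Finset ℤ)
      else Icc (P.n : ℤ) (2 * P.n))).card = (P.n + 1) ^ (P.L - 3) := by
  have e1 : ∀ i : Fin P.L, (if i = j ∨ i = nxt j ∨ i = prv j then ({(P.n : ℤ)} : Finset ℤ)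
      else Icc (P.n : ℤ) (2 * P.n)).card = if i = j ∨ i = nxt j ∨ i = prv j then 1
        else P.n + 1 := by
    intro i
    split_ifs
    · exact card_singleton _
    · rw [Int.card_Icc]
      omega
  rw [Fintype.card_piFinset]
  simp only [e1]
  rw [prod_ite, prod_const_one, one_mul, prod_const]
  congr 1
  have e2 : (univ.filter fun i : Fin P.L => ¬ (i = j ∨ i = nxt j ∨ i = prv j)) =
      univ \ {j, nxt j, prv j} := by
    ext i
    simp only [mem_filter, mem_univ, true_and, mem_sdiff, mem_insert, mem_singleton]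
  have e3 : ({j, nxt j, prv j} : Finset (Fin P.L)).card = 3 := by
    rw [card_insert_of_notMem, card_insert_of_notMem, card_singleton]
    · rw [mem_singleton]
      exact nxt_ne_prv h j
    · rw [mem_insert, mem_singleton]
      rintro (h1 | h1)
      · exact nxt_ne h j h1.symm
      · exact prv_ne h j h1.symm
  rw [e2, card_sdiff_of_subset (subset_univ _), e3, card_univ, Fintype.card_fin]

private theorem tl_core (h : P.Ok) (j : Fin P.L) (S : Finset (Fin P.L → ℤ)) (lo hi : ℤ)
    (X B : ℤ → ℤ) (hS : ∀ b, lo ≤ b → b ≤ hi → ∀ x : Fin P.L → ℤ, x j = X b → x (nxt j) = b →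
      x (prv j) = B b → (∀ i, i ≠ j → i ≠ nxt j → i ≠ prv j →
        (P.n : ℤ) ≤ x i ∧ x i ≤ 2 * P.n) → x ∈ S)
    (hc : (P.n : ℤ) ≤ 100 * (hi + 1 - lo)) :
    (P.n : ℝ) / 100 * (P.n : ℝ) ^ (P.L - 3) ≤ (S.card : ℝ) := by
  have h1 : ((Icc lo hi) ×ˢ (Fintype.piFinset (fun i : Fin P.L =>
      if i = j ∨ i = nxt j ∨ i = prv j then ({(P.n : ℤ)} : Finset ℤ)
        else Icc (P.n : ℤ) (2 * P.n)))).card ≤ S.card := by
    refine card_le_card_of_injOn (fun q i => if i = j then X q.1 else if i = nxt j then q.1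
      else if i = prv j then B q.1 else q.2 i) ?_ ?_
    · intro q hq
      obtain ⟨hq1, hq2⟩ := mem_product.1 (mem_coe.1 hq)
      obtain ⟨hb1, hb2⟩ := mem_Icc.1 hq1
      rw [Fintype.mem_piFinset] at hq2
      refine hS q.1 hb1 hb2 _ ?_ ?_ ?_ ?_
      · exact if_pos rfl
      · show (if nxt j = j then _ else _) = _
        rw [if_neg (nxt_ne h j), if_pos rfl]
      · show (if prv j = j then _ else _) = _
        rw [if_neg (prv_ne h j), if_neg (nxt_ne_prv h j).symm, if_pos rfl]
      · intro i h1 h2 h3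
        have h4 := hq2 i
        rw [if_neg (by
          rintro (h5 | h5 | h5)
          · exact h1 h5
          · exact h2 h5
          · exact h3 h5), mem_Icc] at h4
        show (P.n : ℤ) ≤ (if i = j then _ else _) ∧ (if i = j then _ else _) ≤ _
        rw [if_neg h1, if_neg h2, if_neg h3]
        exact h4
    · intro q hq q' hq' he
      obtain ⟨_, hq2⟩ := mem_product.1 (mem_coe.1 hq)
      obtain ⟨_, hq2'⟩ := mem_product.1 (mem_coe.1 hq')
      rw [Fintype.mem_piFinset] at hq2 hq2'
      have h1 : q.1 = q'.1 := by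
        have h2 := congrFun he (nxt j)
        simp only at h2
        rwa [if_neg (nxt_ne h j), if_pos trivial, if_neg (nxt_ne h j), if_pos trivial] at h2
      refine Prod.ext h1 (funext fun i => ?_)
      by_cases h2 : i = j ∨ i = nxt j ∨ i = prv j
      · have h3 := hq2 i
        have h4 := hq2' i
        rw [if_pos h2, mem_singleton] at h3 h4
        rw [h3, h4]
      · have h3 : i ≠ j := fun h5 => h2 (Or.inl h5)
        have h4 : i ≠ nxt j := fun h5 => h2 (Or.inr (Or.inl h5))
        have h5 : i ≠ prv j := fun h6 => h2 (Or.inr (Or.inr h6))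
        have h6 := congrFun he i
        simp only at h6
        rwa [if_neg h3, if_neg h4, if_neg h5, if_neg h3, if_neg h4, if_neg h5] at h6
  rw [card_product, tl_card h, Int.card_Icc] at h1
  have h2 : (P.n : ℤ) ≤ 100 * ((hi + 1 - lo).toNat : ℤ) := by
    have := Int.self_le_toNat (hi + 1 - lo)
    omega
  have h3 : (P.n : ℝ) / 100 ≤ ((hi + 1 - lo).toNat : ℝ) := by
    have h4 : (P.n : ℝ) ≤ 100 * ((hi + 1 - lo).toNat : ℝ) := by exact_mod_cast h2
    linarith
  calc (P.n : ℝ) / 100 * (P.n : ℝ) ^ (P.L - 3)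
      ≤ ((hi + 1 - lo).toNat : ℝ) * ((P.n : ℝ) + 1) ^ (P.L - 3) :=
        mul_le_mul h3 (pow_le_pow_left₀ (Nat.cast_nonneg _) (by linarith) _)
          (by positivity) (by positivity)
    _ = (((hi + 1 - lo).toNat * (P.n + 1) ^ (P.L - 3) : ℕ) : ℝ) := by push_cast; rfl
    _ ≤ (S.card : ℝ) := by exact_mod_cast h1

theorem low_fix (h : P.Ok) (hn : 100 * (P.L + 1) ≤ P.n) {r : ℕ} (j : Fin P.L) (hr : P.good r)
    (ha1 : 51 * (P.n : ℤ) ≤ 20 * anc P.n (P.vx r j))
    (ha2 : 5 * anc P.n (P.vx r j) ≤ 14 * (P.n : ℤ)) {d d'' : ℤ} (hd1 : 1 ≤ d)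
    (hd2 : d ≤ 2 * (P.n : ℤ)) (hd3 : 19 * (P.n : ℤ) ≤ 20 * d'') (hd4 : 20 * d'' ≤ 21 * (P.n : ℤ)) :
    (P.n : ℝ) / 100 * (P.n : ℝ) ^ (P.L - 3) ≤ ((P.box.filter (fun x => Reg P r j x ∧
      Reg P r j (sw P (ty P d) r j x) ∧ P.df r x (ty P d, j) = d ∧
      P.df r (sw P (ty P d) r j x) (ty P d, j) = d'')).card : ℝ) := by
  have hL := h.adm.three
  have hn0 := h.n_pos
  have hn4 : (400 : ℤ) ≤ P.n := by
    have h1 : 100 * (3 + 1) ≤ P.n := le_trans (by omega) hn
    exact_mod_cast h1
  set n : ℤ := (P.n : ℤ) with hnd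
  set a : ℤ := anc P.n (P.vx r j) with had
  have hsw : ∀ (t : Bool) (x : Fin P.L → ℤ), (∀ i, i ≠ j → n ≤ x i ∧ x i ≤ 2 * n) →
      ∀ i, i ≠ j → n ≤ sw P t r j x i ∧ sw P t r j x i ≤ 2 * n := by
    intro t x hx i hi
    rw [sw_ne x hi]
    exact hx i hi
  by_cases hdn : d ≤ n
  · have hty : ty P d = false := by
      unfold ty
      exact decide_eq_false (by omega)
    rw [hty]
    refine tl_core h j _ (max n ((n + (a - d - d'') + 1) / 2))
      (min (1449 * n / 1000) ((2 * n + (a - d - d'')) / 2)) (fun b => b + d)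
      (fun b => 2 * b - (a - d - d'')) ?_ ?_
    · intro b hb1 hb2 x hx1 hx2 hx3 hx4
      have c1 : n ≤ b := le_trans (le_max_left _ _) hb1
      have c2 : (n + (a - d - d'') + 1) / 2 ≤ b := le_trans (le_max_right _ _) hb1
      have c3 : b ≤ 1449 * n / 1000 := le_trans hb2 (min_le_left _ _)
      have c4 : b ≤ (2 * n + (a - d - d'')) / 2 := le_trans hb2 (min_le_right _ _)
      have hx : ∀ i, i ≠ j → n ≤ x i ∧ x i ≤ 2 * n := by
        intro i hi
        by_cases h1 : i = nxt j
        · rw [h1, hx2]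
          constructor <;> omega
        · by_cases h2 : i = prv j
          · rw [h2, hx3]
            constructor <;> omega
          · exact hx4 i hi h1 h2
      have hs : sw P false r j x j = b + d'' := by
        rw [sw_self]
        show a + x (prv j) - x j = b + d''
        rw [hx1, hx3]
        ring
      have hx1' : x j = b + d := hx1
      have r1 : Reg P r j x := by
        refine tl_reg h hr ha1 ha2 hx ?_ ?_ ?_
        · rw [hx1']
          omega
        · rw [hx1']
          omega
        · rw [hx1', abs_le]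
          constructor <;> omega
      have r2 : Reg P r j (sw P false r j x) := by
        refine tl_reg h hr ha1 ha2 (hsw false x hx) ?_ ?_ ?_
        · rw [hs]
          omega
        · rw [hs]
          omega
        · rw [hs, abs_le]
          constructor <;> omega
      refine mem_filter.2 ⟨r1.2.2.2.1, r1, r2, ?_, ?_⟩
      · rw [Par.df_false, hx1', hx2, add_sub_cancel_left, abs_of_pos (by omega)]
      · rw [Par.df_false, hs, sw_ne x (nxt_ne h j), hx2, add_sub_cancel_left, abs_of_pos (by omega)]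
    · rcases max_cases n ((n + (a - d - d'') + 1) / 2) with h1 | h1 <;>
      rcases min_cases (1449 * n / 1000) ((2 * n + (a - d - d'')) / 2) with h2 | h2 <;>
      rw [h1.1, h2.1] <;> omega
  · have hty : ty P d = true := by
      unfold ty
      exact decide_eq_true (by omega)
    rw [hty]
    refine tl_core h j _ (max n ((2 * a - d - d'') - 2 * n))
      (min (2 * n) ((2 * a - d - d'') - n)) (fun _ => a - d)
      (fun b => (2 * a - d - d'') - b) ?_ ?_
    · intro b hb1 hb2 x hx1 hx2 hx3 hx4
      have c1 : n ≤ b := le_trans (le_max_left _ _) hb1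
      have c2 : (2 * a - d - d'') - 2 * n ≤ b := le_trans (le_max_right _ _) hb1
      have c3 : b ≤ 2 * n := le_trans hb2 (min_le_left _ _)
      have c4 : b ≤ (2 * a - d - d'') - n := le_trans hb2 (min_le_right _ _)
      have hx : ∀ i, i ≠ j → n ≤ x i ∧ x i ≤ 2 * n := by
        intro i hi
        by_cases h1 : i = nxt j
        · rw [h1, hx2]
          constructor <;> omega
        · by_cases h2 : i = prv j
          · rw [h2, hx3]
            constructor <;> omega
          · exact hx4 i hi h1 h2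
      have hs : sw P true r j x j = a - d'' := by
        rw [sw_self]
        show x (nxt j) + x (prv j) - x j = a - d''
        rw [hx1, hx2, hx3]
        ring
      have hx1' : x j = a - d := hx1
      have r1 : Reg P r j x := by
        refine tl_reg h hr ha1 ha2 hx ?_ ?_ ?_
        · rw [hx1']
          omega
        · rw [hx1']
          omega
        · rw [hx1', abs_le]
          constructor <;> omega
      have r2 : Reg P r j (sw P true r j x) := by
        refine tl_reg h hr ha1 ha2 (hsw true x hx) ?_ ?_ ?_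
        · rw [hs]
          omega
        · rw [hs]
          omega
        · rw [hs, abs_le]
          constructor <;> omega
      refine mem_filter.2 ⟨r1.2.2.2.1, r1, r2, ?_, ?_⟩
      · rw [Par.df_true, hx1', sub_sub_cancel_left, abs_neg, abs_of_pos (by omega)]
      · rw [Par.df_true, hs, sub_sub_cancel_left, abs_neg, abs_of_pos (by omega)]
    · rcases max_cases n ((2 * a - d - d'') - 2 * n) with h1 | h1 <;>
      rcases min_cases (2 * n) ((2 * a - d - d'') - n) with h2 | h2 <;>
      rw [h1.1, h2.1] <;> omega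

end Pool.Agent.PGo.M
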