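import Pool.Agent.PGo.M.FlowM
import Pool.Agent.PGo.M.Move

/-!
# PGo-M-W2A: degrees of the cycles and of the differences after the correction

PLAN. `w2_sum`: `sum_w2` with `F = 1`. `w2_cyc`: `dg_w2`, `(tgt a).1 = a.1.1`, `mem_Sv_cyc`.
`w2_dif`: `dg_w2`, `dif_ind`: the correction is `∑_{a ∈ Tv, dt a = d} mv a - ∑_{a ∈ Tv, da a = d} mv a`.
Second sum: split by `d'' = dt a ∈ J0`: `∑_{d'' ∈ J0} |Tdd d d''| γ d d'' / n^(L-1) = ∑ Q d d'' γ d d'' = dg w1 d - τ`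
(`h1`). First sum: `da a ∈ D1` for `a ∈ Tv` (`a.1 ∈ VE`, field `dif` of `OkC`); if `d ∈ J0` it is
`∑_{d' ∈ D1} Q d' d γ d' d = 0` (`h2`), if `d ∉ J0` it is empty.
-/
set_option autoImplicit false

noncomputable section

namespace Pool.Agent.PGo.M

open Finset Pool.Agent.PGr Pool.Agent.PGo
open scoped Classical

namespace Cx

variable {X : Cx} {C c ε : ℝ}

theorem da_mem {a : Tp X.P} (ha : a ∈ X.Tv) : da X.P a ∈ X.D1 :=
  (mem_VE.1 (mem_Tv.1 ha).1).2.2.2.2.dif a.2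

theorem w2_sum (γ : ℤ → ℤ → ℝ) : ∑ e ∈ X.VE, X.w2 γ e = ∑ e ∈ X.VE, X.w1 e := by
  have h := sum_w2 (X := X) γ (fun _ => 1)
  simpa using h

theorem w2_cyc (γ : ℤ → ℤ → ℝ) (r : ℕ) :
    X.dg (X.w2 γ) (Sum.inl r) = X.dg X.w1 (Sum.inl r) := by
  rw [dg_w2]
  have h : ∑ a ∈ X.Tv, X.mv γ a *
      ((if (Sum.inl r : Vt) ∈ Sv X.P (tgt X.P a) then (1 : ℝ) else 0) -
      (if (Sum.inl r : Vt) ∈ Sv X.P a.1 then (1 : ℝ) else 0)) = 0 := by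
    refine Finset.sum_eq_zero fun a _ => ?_
    have h1 : ((Sum.inl r : Vt) ∈ Sv X.P (tgt X.P a)) ↔ ((Sum.inl r : Vt) ∈ Sv X.P a.1) := by
      rw [mem_Sv_cyc, mem_Sv_cyc]
      exact Iff.rfl
    by_cases h2 : (Sum.inl r : Vt) ∈ Sv X.P a.1
    · rw [if_pos h2, if_pos (h1.2 h2), sub_self, mul_zero]
    · rw [if_neg h2, if_neg (fun h3 => h2 (h1.1 h3)), sub_self, mul_zero]
  rw [h, add_zero]

private theorem Q_mul (γ : ℤ → ℤ → ℝ) (d j : ℤ) :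
    X.Q d j * γ d j = ∑ a ∈ X.Tv, X.mv γ a *
      ((if da X.P a = d then (1 : ℝ) else 0) * (if dt X.P a = j then (1 : ℝ) else 0)) := by
  have h1 : ∑ a ∈ X.Tv, X.mv γ a *
      ((if da X.P a = d then (1 : ℝ) else 0) * (if dt X.P a = j then (1 : ℝ) else 0)) =
      ∑ a ∈ X.Tdd d j, X.mv γ a := by
    unfold Tdd
    rw [Finset.sum_filter]
    refine Finset.sum_congr rfl fun a _ => ?_
    by_cases h2 : da X.P a = d
    · by_cases h3 : dt X.P a = j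
      · rw [if_pos h2, if_pos h3, if_pos ⟨h2, h3⟩, one_mul, mul_one]
      · rw [if_pos h2, if_neg h3, if_neg (fun h => h3 h.2), mul_zero, mul_zero]
    · rw [if_neg h2, zero_mul, mul_zero]
      exact (if_neg (fun h => h2 h.1)).symm
  have h2 : ∑ a ∈ X.Tdd d j, X.mv γ a =
      ∑ a ∈ X.Tdd d j, γ d j / (X.P.n : ℝ) ^ (X.P.L - 1) := by
    refine Finset.sum_congr rfl fun a ha => ?_
    obtain ⟨_, h3, h4⟩ := mem_Tdd.1 ha
    unfold mv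
    rw [h3, h4]
  rw [h1, h2, Finset.sum_const, nsmul_eq_mul]
  unfold Q
  ring

private theorem sum_snd {γ : ℤ → ℤ → ℝ} (d : ℤ) :
    ∑ a ∈ X.Tv, X.mv γ a * (if da X.P a = d then (1 : ℝ) else 0) =
      ∑ j ∈ X.J0, X.Q d j * γ d j := by
  simp only [Q_mul]
  rw [Finset.sum_comm]
  refine Finset.sum_congr rfl fun a ha => ?_
  rw [← Finset.mul_sum, ← Finset.mul_sum, Finset.sum_ite_eq, if_pos (mem_Tv.1 ha).2.2.2.2.2,
    mul_one]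

private theorem sum_fst {γ : ℤ → ℤ → ℝ} (j : ℤ) :
    ∑ a ∈ X.Tv, X.mv γ a * (if dt X.P a = j then (1 : ℝ) else 0) =
      ∑ d ∈ X.D1, X.Q d j * γ d j := by
  simp only [Q_mul]
  rw [Finset.sum_comm]
  refine Finset.sum_congr rfl fun a ha => ?_
  rw [← Finset.mul_sum, ← Finset.sum_mul, Finset.sum_ite_eq, if_pos (da_mem ha), one_mul]

theorem w2_dif (hX : X.Ok C c ε) {γ : ℤ → ℤ → ℝ}
    (h1 : ∀ d ∈ X.D1, ∑ j ∈ X.J0, X.Q d j * γ d j = X.dg X.w1 (Sum.inr (Sum.inr d)) - X.τ)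
    (h2 : ∀ j ∈ X.J0, ∑ d ∈ X.D1, X.Q d j * γ d j = 0) {d : ℤ} (hd : d ∈ X.D1) :
    X.dg (X.w2 γ) (Sum.inr (Sum.inr d)) = X.τ := by
  rw [dg_w2]
  have h3 : ∑ a ∈ X.Tv, X.mv γ a *
      ((if (Sum.inr (Sum.inr d) : Vt) ∈ Sv X.P (tgt X.P a) then (1 : ℝ) else 0) -
      (if (Sum.inr (Sum.inr d) : Vt) ∈ Sv X.P a.1 then (1 : ℝ) else 0)) =
      ∑ a ∈ X.Tv, X.mv γ a * (if dt X.P a = d then (1 : ℝ) else 0) -
      ∑ a ∈ X.Tv, X.mv γ a * (if da X.P a = d then (1 : ℝ) else 0) := by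
    rw [← Finset.sum_sub_distrib]
    refine Finset.sum_congr rfl fun a ha => ?_
    rw [dif_ind hX.ok ha, mul_sub]
  have h4 : ∑ a ∈ X.Tv, X.mv γ a * (if dt X.P a = d then (1 : ℝ) else 0) = 0 := by
    by_cases hj : d ∈ X.J0
    · rw [sum_fst, h2 d hj]
    · refine Finset.sum_eq_zero fun a ha => ?_
      rw [if_neg, mul_zero]
      intro h5
      exact hj (h5 ▸ (mem_Tv.1 ha).2.2.2.2.2)
  rw [h3, h4, sum_snd, h1 d hd]
  ring

end Cx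

end Pool.Agent.PGo.M
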