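import Pool.Agent.PGo.M.DegB
import Pool.Agent.PGo.M.Move

/-!
# PGo-M-W2B: label degrees after the correction

PLAN. `mv_le`: `|γ| ≤ Cg ρ / n` for `da a ∈ D1` (`a.1 ∈ VE`, field `dif` of `OkC`), `dt a ∈ J0`, divided by
`n^(L-1)`. `w2_lab`: `dg_w2`; the bracket is 0 unless `a.1.2 a.2.2 = z` or `(tgt a).2 a.2.2 = z` (the other
labels are not changed, `sw_ne`), and at most 1 in absolute value. The number of the `a ∈ Tv` with
`a.1.2 a.2.2 = z` is at most `2 L * 3^L n^L` (for each `a.2`: `lab_le`); the same for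
`(tgt a).2 a.2.2 = z` (for fixed `a.2` the map `a ↦ tgt a` is injective, `tgt_tgt`, into
`{e ∈ EE | e.2 j = z}`). So the change is at most `4 L 3^L n^L * Cg ρ / n^L ≤ 1/200` (`Sm.s2`); `dg_lab`.
-/
set_option autoImplicit false

noncomputable section

namespace Pool.Agent.PGo.M

open Finset Pool.Agent.PGr Pool.Agent.PGo
open scoped Classical

namespace Cx

variable {X : Cx} {C c ε : ℝ}

theorem mv_le (hX : X.Ok C c ε) {γ : ℤ → ℤ → ℝ}
    (hγ : ∀ d ∈ X.D1, ∀ j ∈ X.J0, |γ d j| ≤ Cg X.P.L C * X.ρ / X.P.n) {a : Tp X.P}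
    (ha : a ∈ X.Tv) : |X.mv γ a| ≤ Cg X.P.L C * X.ρ / (X.P.n : ℝ) ^ X.P.L := by
  have hn : (0 : ℝ) < X.P.n := by exact_mod_cast hX.ok.n_pos
  have h1 : da X.P a ∈ X.D1 := (mem_VE.1 (mem_Tv.1 ha).1).2.2.2.2.dif a.2
  have h2 : dt X.P a ∈ X.J0 := (mem_Tv.1 ha).2.2.2.2.2
  have h3 := hγ _ h1 _ h2
  have hL : (X.P.n : ℝ) ^ X.P.L = X.P.n * (X.P.n : ℝ) ^ (X.P.L - 1) := by
    rw [← pow_succ']
    congr 1
    have := hX.ok.L_pos
    omega
  have hpos : (0 : ℝ) < (X.P.n : ℝ) ^ (X.P.L - 1) := pow_pos hn _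
  unfold mv
  rw [abs_div, abs_of_pos hpos, hL, ← div_div]
  exact div_le_div_of_nonneg_right h3 hpos.le

private theorem card_fib (S : Finset (Tp X.P)) (M : ℝ)
    (h : ∀ i : Bool × Fin X.P.L, ((S.filter (fun a => a.2 = i)).card : ℝ) ≤ M) :
    (S.card : ℝ) ≤ 2 * X.P.L * M := by
  have h1 : S.card = ∑ i : Bool × Fin X.P.L, (S.filter (fun a => a.2 = i)).card :=
    Finset.card_eq_sum_card_fiberwise (f := fun a : Tp X.P => a.2)
      (t := (univ : Finset (Bool × Fin X.P.L))) (fun a _ => mem_coe.2 (mem_univ _))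
  rw [h1]
  push_cast
  refine (Finset.sum_le_sum (fun i _ => h i)).trans (le_of_eq ?_)
  rw [Finset.sum_const, card_univ, Fintype.card_prod, Fintype.card_bool, Fintype.card_fin,
    nsmul_eq_mul]
  push_cast
  ring

private theorem card_S1 (hX : X.Ok C c ε) (z : ℤ) :
    ((X.Tv.filter (fun a => a.1.2 a.2.2 = z)).card : ℝ) ≤
      2 * X.P.L * (3 ^ X.P.L * (X.P.n : ℝ) ^ X.P.L) := by
  refine card_fib _ _ fun i => ?_
  refine le_trans ?_ (lab_le hX.ok i.2 z)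
  have h1 : ((X.Tv.filter (fun a => a.1.2 a.2.2 = z)).filter (fun a => a.2 = i)).card ≤
      ((EE X.P).filter (fun e => e.2 i.2 = z)).card := by
    refine card_le_card_of_injOn (fun a => a.1) ?_ ?_
    · intro a ha
      obtain ⟨h1, h2⟩ := mem_filter.1 (mem_coe.1 ha)
      obtain ⟨h3, h4⟩ := mem_filter.1 h1
      refine mem_coe.2 (mem_filter.2 ⟨(mem_VE.1 (mem_Tv.1 h3).1).1, ?_⟩)
      rw [← h2]
      exact h4
    · intro a ha a' ha' he
      have h2 := (mem_filter.1 (mem_coe.1 ha)).2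
      have h2' := (mem_filter.1 (mem_coe.1 ha')).2
      exact Prod.ext he (h2.trans h2'.symm)
  exact_mod_cast h1

private theorem card_S2 (hX : X.Ok C c ε) (z : ℤ) :
    ((X.Tv.filter (fun a => (tgt X.P a).2 a.2.2 = z)).card : ℝ) ≤
      2 * X.P.L * (3 ^ X.P.L * (X.P.n : ℝ) ^ X.P.L) := by
  refine card_fib _ _ fun i => ?_
  refine le_trans ?_ (lab_le hX.ok i.2 z)
  have h1 : ((X.Tv.filter (fun a => (tgt X.P a).2 a.2.2 = z)).filter (fun a => a.2 = i)).card ≤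
      ((EE X.P).filter (fun e => e.2 i.2 = z)).card := by
    refine card_le_card_of_injOn (fun a => tgt X.P a) ?_ ?_
    · intro a ha
      obtain ⟨h1, h2⟩ := mem_filter.1 (mem_coe.1 ha)
      obtain ⟨h3, h4⟩ := mem_filter.1 h1
      refine mem_coe.2 (mem_filter.2 ⟨(mem_VE.1 (mem_Tv.1 h3).2.1).1, ?_⟩)
      rw [← h2]
      exact h4
    · intro a ha a' ha' he
      have h2 := (mem_filter.1 (mem_coe.1 ha)).2
      have h2' := (mem_filter.1 (mem_coe.1 ha')).2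
      have h3 : a.2 = a'.2 := h2.trans h2'.symm
      have h4 : a.1 = a'.1 := by
        have he' : tgt X.P a = tgt X.P a' := he
        rw [← tgt_tgt hX.ok a, ← tgt_tgt hX.ok a', he', h3]
      exact Prod.ext h4 h3
  exact_mod_cast h1

private theorem lab_ind (hX : X.Ok C c ε) (a : Tp X.P) (z : ℤ) :
    |(if (Sum.inr (Sum.inl z) : Vt) ∈ Sv X.P (tgt X.P a) then (1 : ℝ) else 0) -
      (if (Sum.inr (Sum.inl z) : Vt) ∈ Sv X.P a.1 then (1 : ℝ) else 0)| ≤
    (if a.1.2 a.2.2 = z then (1 : ℝ) else 0) +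
      (if (tgt X.P a).2 a.2.2 = z then (1 : ℝ) else 0) := by
  have h0 : ∀ i, i ≠ a.2.2 → (tgt X.P a).2 i = a.1.2 i := fun i hi => sw_ne _ hi
  by_cases h1 : a.1.2 a.2.2 = z
  · rw [if_pos h1]
    split_ifs <;> norm_num
  · by_cases h2 : (tgt X.P a).2 a.2.2 = z
    · rw [if_pos h2]
      split_ifs <;> norm_num
    · rw [if_neg h1, if_neg h2]
      have h3 : ((Sum.inr (Sum.inl z) : Vt) ∈ Sv X.P (tgt X.P a)) ↔
          ((Sum.inr (Sum.inl z) : Vt) ∈ Sv X.P a.1) := by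
        rw [mem_Sv_lab, mem_Sv_lab]
        constructor
        · rintro ⟨i, hi⟩
          have hne : i ≠ a.2.2 := fun h => h2 (by rw [← h]; exact hi)
          exact ⟨i, by rw [← h0 i hne]; exact hi⟩
        · rintro ⟨i, hi⟩
          have hne : i ≠ a.2.2 := fun h => h1 (by rw [← h]; exact hi)
          exact ⟨i, by rw [h0 i hne]; exact hi⟩
      by_cases h4 : (Sum.inr (Sum.inl z) : Vt) ∈ Sv X.P a.1
      · rw [if_pos h4, if_pos (h3.2 h4)]
        norm_num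
      · rw [if_neg h4, if_neg (fun h5 => h4 (h3.1 h5))]
        norm_num

theorem w2_lab (hX : X.Ok C c ε) (hS : Sm X.P.L C c X.ρ) {γ : ℤ → ℤ → ℝ}
    (hγ : ∀ d ∈ X.D1, ∀ j ∈ X.J0, |γ d j| ≤ Cg X.P.L C * X.ρ / X.P.n) (z : ℤ) :
    X.dg (X.w2 γ) (Sum.inr (Sum.inl z)) ≤ 99 / 100 := by
  have hn : (0 : ℝ) < X.P.n := by exact_mod_cast hX.ok.n_pos
  have hpos : (0 : ℝ) < (X.P.n : ℝ) ^ X.P.L := pow_pos hn _
  set M : ℝ := Cg X.P.L C * X.ρ / (X.P.n : ℝ) ^ X.P.L with hM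
  rw [dg_w2]
  have h1 := dg_lab hX hS z
  have h2 : ∑ a ∈ X.Tv, X.mv γ a *
      ((if (Sum.inr (Sum.inl z) : Vt) ∈ Sv X.P (tgt X.P a) then (1 : ℝ) else 0) -
      (if (Sum.inr (Sum.inl z) : Vt) ∈ Sv X.P a.1 then (1 : ℝ) else 0)) ≤
      ∑ a ∈ X.Tv, M * ((if a.1.2 a.2.2 = z then (1 : ℝ) else 0) +
      (if (tgt X.P a).2 a.2.2 = z then (1 : ℝ) else 0)) := by
    refine Finset.sum_le_sum fun a ha => ?_
    refine (le_abs_self _).trans ?_
    rw [abs_mul]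
    exact mul_le_mul (mv_le hX hγ ha) (lab_ind hX a z) (abs_nonneg _)
      ((abs_nonneg _).trans (mv_le hX hγ ha))
  have h3 : ∑ a ∈ X.Tv, M * ((if a.1.2 a.2.2 = z then (1 : ℝ) else 0) +
      (if (tgt X.P a).2 a.2.2 = z then (1 : ℝ) else 0)) =
      M * (((X.Tv.filter (fun a => a.1.2 a.2.2 = z)).card : ℝ) +
        ((X.Tv.filter (fun a => (tgt X.P a).2 a.2.2 = z)).card : ℝ)) := by
    rw [← Finset.mul_sum, Finset.sum_add_distrib, Finset.sum_boole, Finset.sum_boole]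
  have h4 : M * (((X.Tv.filter (fun a => a.1.2 a.2.2 = z)).card : ℝ) +
        ((X.Tv.filter (fun a => (tgt X.P a).2 a.2.2 = z)).card : ℝ)) ≤
      4 * X.P.L * 3 ^ X.P.L * Cg X.P.L C * X.ρ := by
    rcases X.Tv.eq_empty_or_nonempty with h0 | ⟨a, ha⟩
    · rw [h0, filter_empty, filter_empty, card_empty, Nat.cast_zero, add_zero, mul_zero]
      have hCg : 0 ≤ Cg X.P.L C := by
        unfold Cg Cd C4 Cb
        have := hX.C_pos.le
        positivity
      have := hX.ρ_pos.le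
      positivity
    · have hM0 : 0 ≤ M := (abs_nonneg _).trans (mv_le hX hγ ha)
      have h5 := card_S1 hX z
      have h6 := card_S2 hX z
      calc M * (((X.Tv.filter (fun a => a.1.2 a.2.2 = z)).card : ℝ) +
            ((X.Tv.filter (fun a => (tgt X.P a).2 a.2.2 = z)).card : ℝ))
          ≤ M * (2 * X.P.L * (3 ^ X.P.L * (X.P.n : ℝ) ^ X.P.L) +
            2 * X.P.L * (3 ^ X.P.L * (X.P.n : ℝ) ^ X.P.L)) :=
            mul_le_mul_of_nonneg_left (add_le_add h5 h6) hM0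
        _ = 4 * X.P.L * 3 ^ X.P.L * Cg X.P.L C * X.ρ := by
            rw [hM]
            field_simp
            ring
  have h7 := hS.s2
  linarith

end Cx

end Pool.Agent.PGo.M
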